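import Pool.Agent.Lib.MP_5d4057_al.CI.FinC
import Pool.Agent.Lib.MP_5d4057_al.RG.CpT1

/-!
# PU: the character has finite order on the parabolic elements

`Γ` acts through `ρ` as a subgroup of the lattice `G` of `SU(m+1,1)`, preserving a hyperplane; the elements of `Γ` which
preserve the horospheres at an isotropic line go to elements of `G` with the same property, so a power of them is
unipotent and their normal character is a root of unity. The first lemmas are those of `RG/FixL`.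
-/

set_option autoImplicit false

namespace Pool.Agent.Lib.MP_5d4057_al.PU

open Matrix Filter Topology Pool.Agent.Lib.MP_5d4057_al Pool.Agent.Lib.MP_5d4057_al.Hyb
  Pool.Agent.Lib.MP_5d4057_al.HM Pool.Agent.Lib.MP_5d4057_al.HM.Kak Pool.Agent.Lib.MP_5d4057_al.NU

open scoped ComplexOrder MatrixOrder Matrix.Norms.L2Operator

section Aux

variable {n : ℕ} {Γ : Subgroup (SUGroup n)}

/-- powers of an element of the stabiliser -/
private theorem pa_pow {δ : SUGroup n} {ξ : Fin n → ℂ} (hξ : nq ξ = 1) (hs : δ ∈ St ξ) (i : ℕ) :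
    δ ^ i ∈ St ξ ∧ ml (δ ^ i) ξ = ml δ ξ ^ i := by
  induction i with
  | zero => exact ⟨by rw [pow_zero]; exact (St ξ).one_mem, by rw [pow_zero, pow_zero, ml_one]⟩
  | succ i ih =>
    refine ⟨(St ξ).pow_mem hs _, ?_⟩
    rw [pow_succ, ml_mul hξ, (mem_St hξ).1 hs, ih.2, pow_succ]

/-- an element which fixes `ξ` and `-ξ` -/
private theorem pa_ch {y : SUGroup n} {ξ : Fin n → ℂ} (hξ : nq ξ = 1) (h1 : y ∈ St ξ)
    (h2 : y ∈ St (-ξ)) (h3 : 1 ≤ ‖ml y ξ‖) : ch y ≤ ‖ml y ξ‖ := by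
  have hξ' : nq (-ξ) = 1 := by rw [nq_neg, hξ]
  have e1 := act_of_mem_St hξ h1
  have e2 := act_of_mem_St hξ' h2
  have e3 : star (ml y ξ) * ml y (-ξ) = 1 := by
    have h0 := herm_pe_ne hξ hξ' (neg_ne_self hξ).symm
    have h4 := herm_act y (pe ξ) (pe (-ξ))
    rw [e1, e2, herm_smul_left, herm_smul_right, ← mul_assoc] at h4
    exact mul_right_cancel₀ h0 (by rw [h4, one_mul])
  have e4 : (2 : ℂ) * act y (base n) (Fin.last n) = ml y ξ + ml y (-ξ) := by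
    have h4 := congrArg (fun v => act y v (Fin.last n)) (two_smul_base ξ)
    simp only [act_smul, Pi.smul_apply, smul_eq_mul] at h4
    rw [← h4, act_add, e1, e2, Pi.add_apply, Pi.smul_apply, Pi.smul_apply, pe_last, pe_last,
      smul_eq_mul, smul_eq_mul, mul_one, mul_one]
  have e5 : ch y = ‖act y (base n) (Fin.last n)‖ := by
    rw [ch, act, mulVec, dotProduct, Fin.sum_univ_castSucc, base_last, mul_one,
      Finset.sum_eq_zero, zero_add]
    intro i _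
    rw [base_castSucc, mul_zero]
  have h5 : ‖ml y (-ξ)‖ ≤ 1 := by
    have h6 := congrArg norm e3
    rw [norm_mul, norm_star, norm_one] at h6
    have h7 := norm_nonneg (ml y (-ξ))
    nlinarith
  have h6 := congrArg norm e4
  rw [norm_mul, Complex.norm_ofNat, ← e5] at h6
  have h7 := norm_add_le (ml y ξ) (ml y (-ξ))
  linarith

/-- A group with a parabolic element at `ξ` has no loxodromic element at `ξ`: the conjugates of the
parabolic element by the powers of a loxodromic element would have bounded displacement. -/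
private theorem pa_key (hd : DiscreteTopology Γ) (hT : TF Γ) {ξ : Fin n → ℂ} (hξ : nq ξ = 1)
    {x : SUGroup n} (hx : x ∈ Γ) (hx1 : x ≠ 1) (hxP : x ∈ PS ξ) {δ : SUGroup n} (hδ : δ ∈ Γ)
    (hs : δ ∈ St ξ) : ‖ml δ ξ‖ ≤ 1 := by
  by_contra hlt
  rw [not_le] at hlt
  obtain ⟨ξ', hξ', hne, hs'⟩ := exists_second hξ hs hlt.ne'
  obtain ⟨a, ha, ha'⟩ := exists_frame hξ hξ' hne
  have hξn : nq (-ξ) = 1 := by rw [nq_neg, hξ]
  have hai : mv a⁻¹ ξ = ξ := by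
    conv_lhs => rw [← ha]
    exact mv_inv_mv hξ a
  have hai' : mv a⁻¹ ξ' = -ξ := by
    conv_lhs => rw [← ha']
    exact mv_inv_mv hξn a
  have hxs : x ∈ St ξ := PS_le_St ξ hxP
  obtain ⟨y, hy⟩ : ∃ y, y = a⁻¹ * x * a := ⟨_, rfl⟩
  have hys : y ∈ St ξ := by
    have h := (conj_mem_St hξ (g := a) (x := x)).2 hxs
    rw [hai, ← hy] at h
    exact h
  have hbd : ∀ k : ℕ, ds a ((δ ^ k)⁻¹ * x * δ ^ k) ≤ ds 1 y := by
    intro k
    obtain ⟨t, ht⟩ : ∃ t, t = k * Real.log ‖ml δ ξ‖ := ⟨_, rfl⟩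
    have ht0 : 0 ≤ t := by
      rw [ht]
      exact mul_nonneg (Nat.cast_nonneg k) (Real.log_nonneg hlt.le)
    have hexp : ‖ml δ ξ‖ ^ k = Real.exp t := by
      rw [ht, Real.exp_nat_mul, Real.exp_log (lt_trans one_pos hlt)]
    have hp1 := pa_pow hξ hs k
    have hp2 := pa_pow hξ' hs' k
    have hc1 : a⁻¹ * δ ^ k * a ∈ St ξ := by
      have h := (conj_mem_St hξ (g := a) (x := δ ^ k)).2 hp1.1
      rwa [hai] at h
    have hc2 : a⁻¹ * δ ^ k * a ∈ St (-ξ) := by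
      have h := (conj_mem_St hξ' (g := a) (x := δ ^ k)).2 hp2.1
      rwa [hai'] at h
    obtain ⟨z, hz⟩ : ∃ z, z = fl ξ (-t) * (a⁻¹ * δ ^ k * a) := ⟨_, rfl⟩
    have hzml : ‖ml z ξ‖ = 1 := by
      have h2 := ml_conj hξ (g := a) hp1.1
      rw [hai] at h2
      rw [hz, ml_mul hξ, (mem_St hξ).1 hc1, ml_fl hξ, h2, hp1.2, norm_mul, norm_pow, hexp,
        Complex.norm_real, Real.norm_eq_abs, Real.abs_exp, ← Real.exp_add, neg_add_cancel,
        Real.exp_zero]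
    have hf2 : fl ξ (-t) ∈ St (-ξ) := ⟨_, fl_pe_neg hξ (-t)⟩
    have hzch : ch z = 1 := by
      refine le_antisymm ?_ (one_le_ch z)
      have h := pa_ch (y := z) hξ ?_ ?_ hzml.ge
      · rwa [hzml] at h
      · rw [hz]
        exact (St ξ).mul_mem (fl_mem_St hξ (-t)) hc1
      · rw [hz]
        exact (St (-ξ)).mul_mem hf2 hc2
    have e : δ ^ k * a = a * fl ξ t * z := by
      rw [hz, fl_neg]
      group
    rw [← ds_conj, e, ds_mul_K _ _ hzch, ds_mul, ← hy]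
    have h := ds_flow_mono hξ hys (s := -t) (t := 0) (by linarith)
    rwa [neg_neg, neg_zero, fl_zero] at h
  have key : ∀ i j : ℕ, i < j → (δ ^ i)⁻¹ * x * δ ^ i = (δ ^ j)⁻¹ * x * δ ^ j → False := by
    intro i j hij he
    obtain ⟨m, rfl⟩ : ∃ m, j = m + i := ⟨j - i, by omega⟩
    have hm : 0 < m := by omega
    have hc : δ ^ m * x = x * δ ^ m := by
      rw [pow_add] at he
      have h1 : δ ^ m * (δ ^ i * ((δ ^ i)⁻¹ * x * δ ^ i) * (δ ^ i)⁻¹) =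
          δ ^ m * (δ ^ i * ((δ ^ m * δ ^ i)⁻¹ * x * (δ ^ m * δ ^ i)) * (δ ^ i)⁻¹) := by rw [he]
      have h2 : δ ^ m * (δ ^ i * ((δ ^ i)⁻¹ * x * δ ^ i) * (δ ^ i)⁻¹) = δ ^ m * x := by group
      have h3 : δ ^ m * (δ ^ i * ((δ ^ m * δ ^ i)⁻¹ * x * (δ ^ m * δ ^ i)) * (δ ^ i)⁻¹) =
          x * δ ^ m := by group
      rw [← h2, h1, h3]
    have hm1 : δ ^ m ≠ 1 := by
      intro h
      have h1 := (pa_pow hξ hs m).2
      rw [h, ml_one] at h1
      have h2 := congrArg norm h1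
      rw [norm_one, norm_pow] at h2
      have h3 := one_lt_pow₀ hlt hm.ne'
      linarith
    have h1 := comm_fixed (hT.nf (Γ.pow_mem hδ m) hm1) hc hξ' (pa_pow hξ' hs' m).1
    exact (two_fixed (hT.nf hx hx1) hξ hξ' hne.symm hxs h1).2 ((mem_PS hξ).1 hxP).2
  obtain ⟨i, -, j, -, hij, he⟩ := Set.infinite_univ.exists_ne_map_eq_of_mapsTo
    (f := fun k : ℕ => (δ ^ k)⁻¹ * x * δ ^ k)
    (fun k _ => (⟨Γ.mul_mem (Γ.mul_mem (Γ.inv_mem (Γ.pow_mem hδ k)) hx) (Γ.pow_mem hδ k), a,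
      le_rfl, hbd k⟩ : _ ∈ {γ : SUGroup n | γ ∈ Γ ∧ ∃ g : SUGroup n, ch g ≤ ch a ∧
        ds g γ ≤ ds 1 y})) (finite_ds hd (ch a) (ds 1 y))
  rcases lt_or_gt_of_ne hij with h | h
  · exact key i j h he
  · exact key j i h he.symm

/-- A torsion free discrete group with a nontrivial element preserving the horospheres at `ξ` has no element moving
them. -/
theorem par_of_PS (hd : DiscreteTopology Γ) (hT : TF Γ) {ξ : Fin n → ℂ} (hξ : nq ξ = 1)
    {x : SUGroup n} (hx : x ∈ Γ) (hx1 : x ≠ 1) (hxP : x ∈ PS ξ) : Par Γ ξ := by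
  refine ⟨hξ, fun δ hδ hs => ?_⟩
  rw [mem_PS hξ]
  refine ⟨(mem_St hξ).1 hs, le_antisymm (pa_key hd hT hξ hx hx1 hxP hδ hs) ?_⟩
  have h1 := pa_key hd hT hξ hx hx1 hxP (Γ.inv_mem hδ) ((St ξ).inv_mem hs)
  have h2 : mv δ⁻¹ ξ = ξ := (mem_St hξ).1 ((St ξ).inv_mem hs)
  rw [ml_inv hξ, h2, norm_inv] at h1
  have h3 : 0 < ‖ml δ ξ‖ := norm_pos_iff.2 (ml_ne_zero hξ _)
  rwa [inv_le_one₀ h3] at h1


/-- A unipotent element has no eigenvalue different from one. -/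
theorem eig_one {ξ : Fin n → ℂ} (hξ : nq ξ = 1) {x : SUGroup n} (hx : x ∈ PS ξ)
    (hD : Dg ξ x = 1) {v : Vec n} (hv : v ≠ 0) {c : ℂ} (h : act x v = c • v) : c = 1 := by
  by_contra hc
  obtain ⟨z1, z2, z3⟩ := block_zero hξ hξ ((mem_St hξ).1 (PS_le_St ξ hx))
  have hξn : nq (-ξ) = 1 := by rw [nq_neg, hξ]
  have m1 := Pp_mul_P0 (-ξ) hξn
  have m2 := P0_mul_Pp (-ξ) hξn
  rw [P0_neg] at m1 m2
  have d1 : Pp ξ * x.toMatrix * Pp ξ = Pp ξ := by
    have h1 : Dg ξ x * Pp ξ = Pp ξ * x.toMatrix * Pp ξ := by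
      rw [Dg, Matrix.add_mul, Matrix.add_mul, Matrix.mul_assoc _ (Pp ξ) (Pp ξ),
        Matrix.mul_assoc _ (P0 ξ) (Pp ξ), Matrix.mul_assoc _ (Pp (-ξ)) (Pp ξ), Pp_mul_self hξ,
        P0_mul_Pp ξ hξ, Pp_neg_mul ξ hξ, Matrix.mul_zero, Matrix.mul_zero, add_zero, add_zero]
    rw [← h1, hD, Matrix.one_mul]
  have d2 : P0 ξ * x.toMatrix * P0 ξ = P0 ξ := by
    have h1 : Dg ξ x * P0 ξ = P0 ξ * x.toMatrix * P0 ξ := by
      rw [Dg, Matrix.add_mul, Matrix.add_mul, Matrix.mul_assoc _ (Pp ξ) (P0 ξ),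
        Matrix.mul_assoc _ (P0 ξ) (P0 ξ), Matrix.mul_assoc _ (Pp (-ξ)) (P0 ξ), P0_mul_self hξ,
        Pp_mul_P0 ξ hξ, m1, Matrix.mul_zero, Matrix.mul_zero, add_zero, zero_add]
    rw [← h1, hD, Matrix.one_mul]
  have d3 : Pp (-ξ) * x.toMatrix * Pp (-ξ) = Pp (-ξ) := by
    have h1 : Dg ξ x * Pp (-ξ) = Pp (-ξ) * x.toMatrix * Pp (-ξ) := by
      rw [Dg, Matrix.add_mul, Matrix.add_mul, Matrix.mul_assoc _ (Pp ξ) (Pp (-ξ)),
        Matrix.mul_assoc _ (P0 ξ) (Pp (-ξ)), Matrix.mul_assoc _ (Pp (-ξ)) (Pp (-ξ)),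
        Pp_mul_self hξn, Pp_mul_neg ξ hξ, m2, Matrix.mul_zero, Matrix.mul_zero, zero_add, zero_add]
    rw [← h1, hD, Matrix.one_mul]
  have ins : ∀ A : Mat (n + 1), A * x.toMatrix = A * x.toMatrix * Pp ξ + A * x.toMatrix * P0 ξ +
      A * x.toMatrix * Pp (-ξ) := by
    intro A
    rw [← Matrix.mul_add, ← Matrix.mul_add, P_sum, Matrix.mul_one]
  have key : ∀ A : Mat (n + 1), (A * x.toMatrix) *ᵥ v = c • (A *ᵥ v) := by
    intro A
    rw [← Matrix.mulVec_smul, ← h, ← Matrix.mulVec_mulVec]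
    rfl
  have fin : ∀ A : Mat (n + 1), A *ᵥ v = c • (A *ᵥ v) → A *ᵥ v = 0 := by
    intro A hA
    have h1 : (1 - c) • (A *ᵥ v) = 0 := by rw [sub_smul, one_smul, ← hA, sub_self]
    exact (smul_eq_zero.1 h1).resolve_left (sub_ne_zero.2 (Ne.symm hc))
  have v1 : Pp (-ξ) *ᵥ v = 0 := by
    refine fin _ ?_
    rw [← key, ins, z2, z3, d3, zero_add, zero_add]
  have v2 : P0 ξ *ᵥ v = 0 := by
    refine fin _ ?_
    rw [← key, ins, z1, d2, zero_add, Matrix.add_mulVec, ← Matrix.mulVec_mulVec _ _ (Pp (-ξ)), v1,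
      Matrix.mulVec_zero, add_zero]
  have v3 : Pp ξ *ᵥ v = 0 := by
    refine fin _ ?_
    rw [← key, ins, d1, Matrix.add_mulVec, Matrix.add_mulVec, ← Matrix.mulVec_mulVec _ _ (Pp (-ξ)),
      ← Matrix.mulVec_mulVec _ _ (P0 ξ), v1, v2, Matrix.mulVec_zero, add_zero,
      add_zero]
  apply hv
  have h2 : (Pp ξ + P0 ξ + Pp (-ξ)) *ᵥ v = 0 := by
    rw [Matrix.add_mulVec, Matrix.add_mulVec, v1, v2, v3, add_zero, add_zero]
  rwa [P_sum, Matrix.one_mulVec] at h2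

/-- An element of a lattice preserving the horospheres at an isotropic line has only roots of unity as eigenvalues. -/
theorem root_of_PS {G : Subgroup (SUGroup n)} (hG : IsLattice G) (hf : FGG G) {ξ : Fin n → ℂ}
    (hξ : nq ξ = 1) {x : SUGroup n} (hxG : x ∈ G) (hx : x ∈ PS ξ) {v : Vec n} (hv : v ≠ 0) {c : ℂ}
    (h : act x v = c • v) : ∃ k : ℕ, 0 < k ∧ c ^ k = 1 := by
  obtain ⟨χ, hχ⟩ := exists_lat hG
  obtain ⟨Γ', hle, hfi, -, hTor⟩ := exists_tor hf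
  obtain ⟨χ', hχ'⟩ := hχ.finite_index hle hfi
  have hTF : TF Γ' := tf_of_tor hχ'.disc hTor
  have hpow : ∀ (y : SUGroup n) (d : ℂ), act y v = d • v → ∀ k : ℕ, act (y ^ k) v = d ^ k • v := by
    intro y d hy k
    induction k with
    | zero => rw [pow_zero, pow_zero, act_one, one_smul]
    | succ k ih => rw [pow_succ, act_mul, hy, act_smul, ih, smul_smul, pow_succ, mul_comm]
  obtain ⟨l, hl, hxl⟩ : ∃ l : ℕ, 0 < l ∧ x ^ l ∈ Γ' := by
    obtain ⟨l, hl, -, h1⟩ := Subgroup.exists_pow_mem_of_relIndex_ne_zero hfi hxG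
    exact ⟨l, hl, h1.1⟩
  by_cases h1 : x ^ l = 1
  · refine ⟨l, hl, ?_⟩
    have h2 := hpow x c h l
    rw [h1, act_one] at h2
    have h3 : (1 - c ^ l) • v = 0 := by rw [sub_smul, one_smul, ← h2, sub_self]
    exact (sub_eq_zero.1 ((smul_eq_zero.1 h3).resolve_right hv)).symm
  have hxP : x ^ l ∈ PS ξ := (PS ξ).pow_mem hx l
  have hP : Par Γ' ξ := par_of_PS hχ'.disc hTF hξ hxl h1 hxP
  obtain ⟨R, X, hX⟩ := exists_rays hχ' hTF
  obtain ⟨R', hR'⟩ := horo hTF hTor hχ'.disc hX hP ⟨x ^ l, hxl, h1, PS_le_St ξ hxP⟩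
  obtain ⟨Δ, hΔ, hΔi, hΔ1, -⟩ := exists_unip hχ'.disc hP hR'
  obtain ⟨l', hl', -, h2⟩ := Subgroup.exists_pow_mem_of_relIndex_ne_zero hΔi
    (show x ^ l ∈ Γ' ⊓ PS ξ from ⟨hxl, hxP⟩)
  refine ⟨l * l', Nat.mul_pos hl hl', ?_⟩
  have h3 : x ^ (l * l') ∈ Δ := by
    rw [pow_mul]
    exact h2.1
  exact eig_one hξ (hΔ h3).2 (hΔ1 _ h3) hv (hpow x c h _)

end Aux

variable {m : ℕ} {Γ : Subgroup (SUGroup m)} {ρ : Γ →* SUGroup (m + 1)} {g : SUGroup (m + 1)}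

/-- The character by which `Γ` acts on the normal line of the hyperplane. -/
noncomputable def chr (h : RG.Twd ρ g) : Γ →* ℂˣ :=
  MonoidHom.toHomUnits
    { toFun := fun x => (g⁻¹ * ρ x * g).toMatrix 0 0
      map_one' := by
        rw [map_one, mul_one, inv_mul_cancel, toMatrix_one, Matrix.one_apply_eq]
      map_mul' := fun x y => by
        obtain ⟨a, b, h1⟩ := h x
        obtain ⟨c, d, h2⟩ := h y
        have h3 : g⁻¹ * ρ (x * y) * g = (g⁻¹ * ρ x * g) * (g⁻¹ * ρ y * g) := by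
          rw [map_mul]
          group
        rw [h3, toMatrix_mul, h1, h2, dsum_mul, dsum_zero_zero, dsum_zero_zero, dsum_zero_zero] }

theorem chr_apply (h : RG.Twd ρ g) (x : Γ) :
    ((chr h x : ℂˣ) : ℂ) = (g⁻¹ * ρ x * g).toMatrix 0 0 := rfl

theorem chr_eq (h : RG.Twd ρ g) {x : Γ} {c d : ℂ}
    (hx : (g⁻¹ * ρ x * g).toMatrix = dsum c (d • (x : SUGroup m).toMatrix)) :
    ((chr h x : ℂˣ) : ℂ) = c := by
  rw [chr_apply, hx, dsum_zero_zero]

/-- The block form with the character. -/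
theorem chr_blk (h : RG.Twd ρ g) (x : Γ) : ∃ d : ℂ,
    (g⁻¹ * ρ x * g).toMatrix = dsum ((chr h x : ℂˣ) : ℂ) (d • (x : SUGroup m).toMatrix) := by
  obtain ⟨c, d, h1⟩ := h x
  exact ⟨d, by rw [chr_eq h h1, h1]⟩

theorem chr_act (h : RG.Twd ρ g) (x : Γ) :
    act (ρ x) (act g (nrm m)) = ((chr h x : ℂˣ) : ℂ) • act g (nrm m) := by
  obtain ⟨d, h1⟩ := chr_blk h x
  exact CI.act_nrm_tw h1

private theorem cp_nrm (g : SUGroup (m + 1)) : act g (nrm m) ≠ 0 := by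
  intro h0
  have h4 := congrArg (act g⁻¹) h0
  rw [← act_mul, inv_mul_cancel, act_one, act, mulVec_zero] at h4
  have := congrFun h4 0
  simp [nrm] at this

/-- The scalar of the block has modulus one. -/
theorem norm_psi {x : SUGroup (m + 1)} {y : SUGroup m} {χ ψ : ℂ}
    (h : (g⁻¹ * x * g).toMatrix = dsum χ (ψ • y.toMatrix)) : ‖ψ‖ = 1 := by
  have h1 := congrArg q (CI.act_hyp_tw h (base m))
  rw [q_act, q_smul, hyp_apply, hyp_apply, q_act, q_act, q_inc, q_inc, q_act] at h1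
  have h2 : q (base m) ≠ 0 := by
    have h3 : base m ∈ Cone m := by
      have h4 := orbit_mem (1 : SUGroup m)
      rwa [act_one] at h4
    exact ne_of_lt h3
  have h4 : ‖ψ‖ ^ 2 = 1 := mul_right_cancel₀ h2 (by rw [← h1, one_mul])
  exact (pow_eq_one_iff_of_nonneg (norm_nonneg ψ) two_ne_zero).1 h4

/-- **The character has finite order on the parabolic elements.** -/
theorem chr_par {G : Subgroup (SUGroup (m + 1))} (hG : IsLattice G) (hf : FGG G)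
    (hρ : ρ.range ≤ G) (h : RG.Twd ρ g) (ξ : Fin m → ℂ) (hξ : nq ξ = 1) (γ : Γ)
    (hγ : (γ : SUGroup m) ∈ PS ξ) : ∃ k : ℕ, 0 < k ∧ chr h γ ^ k = 1 := by
  obtain ⟨d, h1⟩ := chr_blk h γ
  obtain ⟨c, hc, hc'⟩ := hγ
  obtain ⟨p, hp⟩ : ∃ p, p = HM.hyp g (pe ξ) := ⟨_, rfl⟩
  have hq : q p = 0 := by
    rw [hp, hyp_apply, q_act, q_inc, q_pe, hξ, sub_self]
  have hp0 : p ≠ 0 := by
    intro h0
    rw [hp, hyp_apply] at h0
    have h4 := congrArg (act g⁻¹) h0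
    rw [← act_mul, inv_mul_cancel, act_one, act, mulVec_zero, ← map_zero (inc m)] at h4
    have h5 := congrFun h4 (Fin.last m).succ
    rw [inc_succ, inc_succ, pe_last] at h5
    exact one_ne_zero h5
  obtain ⟨h0, ξ', hξ', he⟩ := exists_pe hp0 hq
  have hx : ρ γ ∈ PS ξ' := by
    refine ⟨d * c, by rw [norm_mul, norm_psi h1, hc, one_mul], ?_⟩
    have h2 := CI.act_hyp_tw h1 (pe ξ)
    rw [hc', map_smul, ← hp, smul_smul, he, act_smul, smul_comm] at h2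
    exact smul_right_injective _ h0 h2
  obtain ⟨k, hk, h3⟩ := root_of_PS hG hf hξ' (hρ ⟨γ, rfl⟩) hx (cp_nrm g) (chr_act h γ)
  exact ⟨k, hk, Units.ext (by rw [Units.val_pow_eq_pow_val, h3, Units.val_one])⟩

end Pool.Agent.Lib.MP_5d4057_al.PU
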