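import Pool.Agent.Lib.MP_5d4057_al.PU.Norm
import Pool.Agent.Lib.MP_5d4057_al.HM.Basic
import Pool.Agent.Lib.MP_5d4057_al.Hyb.Defs

/-!
# PU: anisotropic rational planes are dense

For an admissible hermitian form over a CM field `K`, through every `K`-rational point of the ball
and in a dense set of directions there is a `K`-rational complex line of signature `(1,1)` without
`K`-rational isotropic vectors.
-/

set_option autoImplicit false

namespace Pool.Agent.Lib.MP_5d4057_al.PU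

open Matrix Filter Topology Metric Pool.Agent.Lib.MP_5d4057_al Pool.Agent.Lib.MP_5d4057_al.Hyb
  Pool.Agent.Lib.MP_5d4057_al.HM

open scoped ComplexOrder

variable {m : ℕ} {K : Subfield ℂ}

/-- The vector with coordinates `u` in the basis `B`. -/
def kv (B : Mat (m + 1)) (u : Fin (m + 1) → K) : Vec m := B *ᵥ fun i => (u i : ℂ)

theorem kv_add (B : Mat (m + 1)) (u w : Fin (m + 1) → K) : kv B (u + w) = kv B u + kv B w := by
  rw [kv, kv, kv, ← mulVec_add]
  rfl

theorem kv_smul (B : Mat (m + 1)) (c : K) (u : Fin (m + 1) → K) :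
    kv B (c • u) = (c : ℂ) • kv B u := by
  rw [kv, kv, ← mulVec_smul]
  rfl

theorem kv_sub (B : Mat (m + 1)) (u w : Fin (m + 1) → K) : kv B (u - w) = kv B u - kv B w := by
  rw [kv, kv, kv, ← mulVec_sub]
  rfl

theorem kv_zero (B : Mat (m + 1)) : kv B (0 : Fin (m + 1) → K) = 0 := by
  rw [kv]
  exact mulVec_zero B

theorem kv_inj {B : Mat (m + 1)} (hB : B.det ≠ 0) {u : Fin (m + 1) → K} (h : kv B u = 0) :
    u = 0 := by
  have h1 : (fun i => (u i : ℂ)) = 0 := by
    have h2 : B⁻¹ *ᵥ (B *ᵥ fun i => (u i : ℂ)) = fun i => (u i : ℂ) := by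
      rw [mulVec_mulVec, nonsing_inv_mul _ (isUnit_iff_ne_zero.2 hB), one_mulVec]
    rw [← h2]
    change B⁻¹ *ᵥ kv B u = 0
    rw [h, mulVec_zero]
  funext i
  have := congrFun h1 i
  exact Subtype.ext this

/-- The complex conjugation of `K`. -/
noncomputable def cj (hc : ∀ x ∈ K, (starRingEnd ℂ) x ∈ K) (x : K) : K := ⟨(starRingEnd ℂ) x, hc x x.2⟩

/-- The row vector of the linear form `herm u`. -/
noncomputable def row (hc : ∀ x ∈ K, (starRingEnd ℂ) x ∈ K) (H : Matrix (Fin (m + 1)) (Fin (m + 1)) K)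
    (u : Fin (m + 1) → K) : Fin (m + 1) → K := fun j => ∑ i, cj hc (u i) * H i j

section form

variable {H : Matrix (Fin (m + 1)) (Fin (m + 1)) K} {B : Matrix (Fin (m + 1)) (Fin (m + 1)) ℂ}

theorem herm_kv (hf : IsForm m K H B) (u w : Fin (m + 1) → K) :
    herm (kv B u) (kv B w) = ((row hf.cm.2.2.1 H u ⬝ᵥ w : K) : ℂ) := by
  have h1 : herm (kv B u) (kv B w) =
      star (fun i => (u i : ℂ)) ⬝ᵥ ((Bᴴ * J m * B) *ᵥ fun i => (w i : ℂ)) := by
    rw [herm, kv, kv, star_mulVec, ← dotProduct_mulVec, mulVec_mulVec, mulVec_mulVec,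
      Matrix.mul_assoc]
  rw [h1, hf.form]
  simp only [dotProduct, mulVec, Matrix.map_apply, Finset.mul_sum, Pi.star_apply]
  rw [Finset.sum_comm]
  push_cast
  refine Finset.sum_congr rfl fun j _ => ?_
  rw [row]
  push_cast
  rw [Finset.sum_mul]
  refine Finset.sum_congr rfl fun i _ => ?_
  rw [← mul_assoc]
  rfl

theorem dense_field (hK : IsCM K) : DenseRange (fun x : K => (x : ℂ)) := by
  have h1 : K.topologicalClosure = ⊤ := by
    refine (Complex.subfield_eq_of_closed K.isClosed_topologicalClosure).resolve_left ?_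
    intro h
    obtain ⟨x, hx, hne⟩ := hK.2.1
    have h2 : x ∈ K.topologicalClosure := K.le_topologicalClosure hx
    rw [h] at h2
    obtain ⟨r, rfl⟩ := h2
    exact hne (Complex.conj_ofReal r)
  intro z
  have h2 : z ∈ K.topologicalClosure := by rw [h1]; trivial
  have h3 : z ∈ closure (K : Set ℂ) := h2
  have h4 : Set.range (fun x : K => (x : ℂ)) = (K : Set ℂ) := Subtype.range_coe
  rw [h4]
  exact h3

/-- `K`-rational vectors are dense. -/
theorem exists_near (hf : IsForm m K H B) (z : Vec m) {ε : ℝ} (hε : 0 < ε) :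
    ∃ u : Fin (m + 1) → K, ‖kv B u - z‖ < ε := by
  have h1 : DenseRange (Pi.map fun (_ : Fin (m + 1)) (x : K) => (x : ℂ)) :=
    DenseRange.piMap fun _ => dense_field hf.cm
  have h2 : Function.Surjective fun v : Vec m => B *ᵥ v := by
    intro v
    refine ⟨B⁻¹ *ᵥ v, ?_⟩
    simp only
    rw [mulVec_mulVec, mul_nonsing_inv _ (isUnit_iff_ne_zero.2 hf.det), one_mulVec]
  have h3 : DenseRange ((fun v : Vec m => B *ᵥ v) ∘
      Pi.map fun (_ : Fin (m + 1)) (x : K) => (x : ℂ)) :=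
    h2.denseRange.comp h1 (Continuous.matrix_mulVec continuous_const continuous_id)
  obtain ⟨u, hu⟩ := Metric.denseRange_iff.1 h3 z ε hε
  refine ⟨u, ?_⟩
  rw [dist_comm, dist_eq_norm] at hu
  exact hu

/-- `K`-rational points of the ball are dense. -/
theorem exists_pt (hf : IsForm m K H B) {z : Vec m} (hz : z ∈ Cone m) {ε : ℝ} (hε : 0 < ε) :
    ∃ u : Fin (m + 1) → K, kv B u ∈ Cone m ∧ ‖kv B u - z‖ < ε := by
  obtain ⟨δ, hδ, hb⟩ := Metric.isOpen_iff.1 (isOpen_cone m) z hz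
  obtain ⟨u, hu⟩ := exists_near hf z (lt_min hε hδ)
  refine ⟨u, hb ?_, hu.trans_le (min_le_left _ _)⟩
  rw [mem_ball, dist_eq_norm]
  exact hu.trans_le (min_le_right _ _)

private theorem continuous_herm_right (v : Vec m) : Continuous fun w : Vec m => herm v w :=
  Continuous.dotProduct continuous_const
    (Continuous.matrix_mulVec continuous_const continuous_id)

/-- `K`-rational vectors orthogonal to a `K`-rational negative vector are dense. -/
theorem exists_orth_near (hf : IsForm m K H B) {u : Fin (m + 1) → K} (hu : kv B u ∈ Cone m)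
    {w' : Vec m} (hw' : herm (kv B u) w' = 0) {ε : ℝ} (hε : 0 < ε) :
    ∃ w : Fin (m + 1) → K, ‖kv B w - w'‖ < ε ∧ herm (kv B u) (kv B w) = 0 := by
  have h0 : herm (kv B u) (kv B u) ≠ 0 := herm_ne_zero hu hu
  have hcont : Continuous fun z : Vec m =>
      z - (herm (kv B u) z / herm (kv B u) (kv B u)) • kv B u :=
    continuous_id.sub (((continuous_herm_right _).div_const _).smul continuous_const)
  obtain ⟨δ, hδ, hb⟩ := Metric.continuousAt_iff.1 (hcont.continuousAt (x := w')) ε hε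
  obtain ⟨z, hz⟩ := exists_near hf w' hδ
  refine ⟨z - (row hf.cm.2.2.1 H u ⬝ᵥ z / row hf.cm.2.2.1 H u ⬝ᵥ u) • u, ?_, ?_⟩
  · rw [kv_sub, kv_smul]
    have h1 := @hb (kv B z) (by rw [dist_eq_norm]; exact hz)
    rw [dist_eq_norm, hw', zero_div, zero_smul, sub_zero, herm_kv hf, herm_kv hf] at h1
    push_cast
    exact h1
  · rw [kv_sub, kv_smul, sub_eq_add_neg, ← neg_smul, herm_add_right, herm_smul_right]
    push_cast
    rw [← herm_kv hf, ← herm_kv hf, neg_mul, div_mul_cancel₀ _ h0, add_neg_cancel]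

/-- There is a `K`-rational positive vector orthogonal to two orthogonal ones. -/
theorem exists_orth_two (hf : IsForm m K H B) (hm : 2 ≤ m) {u : Fin (m + 1) → K}
    (hu : kv B u ∈ Cone m) (w : Fin (m + 1) → K) :
    ∃ w₂ : Fin (m + 1) → K, herm (kv B u) (kv B w₂) = 0 ∧ herm (kv B w) (kv B w₂) = 0 ∧
      0 < q (kv B w₂) := by
  let A : Matrix (Fin 2) (Fin (m + 1)) K :=
    Matrix.of ![row hf.cm.2.2.1 H u, row hf.cm.2.2.1 H w]
  have h1 : LinearMap.ker A.mulVecLin ≠ ⊥ := by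
    apply LinearMap.ker_ne_bot_of_finrank_lt
    simp only [Module.finrank_fintype_fun_eq_card, Fintype.card_fin]
    omega
  obtain ⟨x, hx, hx0⟩ := Submodule.exists_mem_ne_zero_of_ne_bot h1
  have h2 : A *ᵥ x = 0 := hx
  have e0 : row hf.cm.2.2.1 H u ⬝ᵥ x = 0 := congrFun h2 0
  have e1 : row hf.cm.2.2.1 H w ⬝ᵥ x = 0 := congrFun h2 1
  have e2 : herm (kv B u) (kv B x) = 0 := by rw [herm_kv hf, e0]; rfl
  refine ⟨x, e2, by rw [herm_kv hf, e1]; rfl, q_pos_of_orth hu e2 ?_⟩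
  intro h
  exact hx0 (kv_inj hf.det h)

/-- If some conjugate of the form is definite then there are no rational isotropic vectors. -/
theorem eq_zero_of_definite (hf : IsForm m K H B) {τ : K →+* ℂ}
    (hτ : (H.map τ).PosDef ∨ (-(H.map τ)).PosDef) {x : Fin (m + 1) → K} (hx : q (kv B x) = 0) :
    x = 0 := by
  have h1 : row hf.cm.2.2.1 H x ⬝ᵥ x = 0 := by
    have h2 := herm_self (kv B x)
    rw [hx, herm_kv hf] at h2
    have h3 : ((row hf.cm.2.2.1 H x ⬝ᵥ x : K) : ℂ) = ((0 : K) : ℂ) := by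
      rw [h2]; simp
    exact Subtype.ext h3
  have h2 : star (fun i => τ (x i)) ⬝ᵥ ((H.map τ) *ᵥ fun i => τ (x i)) = 0 := by
    have h3 : τ (row hf.cm.2.2.1 H x ⬝ᵥ x) = 0 := by rw [h1, map_zero]
    rw [← h3]
    simp only [dotProduct, mulVec, Matrix.map_apply, Finset.mul_sum, Pi.star_apply, map_sum,
      map_mul]
    rw [Finset.sum_comm]
    refine Finset.sum_congr rfl fun j _ => ?_
    rw [row, map_sum, Finset.sum_mul]
    refine Finset.sum_congr rfl fun i _ => ?_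
    rw [map_mul, ← mul_assoc]
    have h4 : τ (cj hf.cm.2.2.1 (x i)) = (starRingEnd ℂ) (τ (x i)) :=
      hf.cm.2.2.2 τ (x i) (cj hf.cm.2.2.1 (x i)) rfl
    rw [h4]
    rfl
  have h3 : (fun i => τ (x i)) = 0 := by
    by_contra hne
    rcases hτ with hτ | hτ
    · have := hτ.dotProduct_mulVec_pos hne
      rw [h2] at this
      exact lt_irrefl _ this
    · have := hτ.dotProduct_mulVec_pos hne
      rw [neg_mulVec, dotProduct_neg, h2, neg_zero] at this
      exact lt_irrefl _ this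
  funext i
  have h4 : τ (x i) = 0 := congrFun h3 i
  exact (map_eq_zero τ).1 h4

/-- If the embeddings of `K` are the identity and the conjugation, real elements of `K` are
rational. -/
theorem real_rat (hK : IsCM K)
    (hτ : ∀ τ : K →+* ℂ, (∀ x : K, τ x = x) ∨ (∀ x : K, τ x = (starRingEnd ℂ) (x : ℂ)))
    {x : K} (hx : (starRingEnd ℂ) (x : ℂ) = x) : ∃ r : ℚ, (x : ℂ) = r := by
  have := hK.1
  have h1 := NumberField.Embeddings.range_eval_eq_rootSet_minpoly K ℂ x
  have h2 : (Set.range fun φ : K →+* ℂ => φ x) = {(x : ℂ)} := by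
    ext z
    simp only [Set.mem_range, Set.mem_singleton_iff]
    constructor
    · rintro ⟨τ, rfl⟩
      rcases hτ τ with h | h
      · exact h x
      · rw [h x, hx]
    · rintro rfl
      exact ⟨K.subtype, rfl⟩
  rw [h2] at h1
  have hint : IsIntegral ℚ x := (Algebra.IsIntegral.isIntegral x)
  have hsep : (minpoly ℚ x).Separable := (minpoly.irreducible hint).separable
  have h3 : Fintype.card ((minpoly ℚ x).rootSet ℂ) = (minpoly ℚ x).natDegree :=
    Polynomial.card_rootSet_eq_natDegree hsep (IsAlgClosed.splits _)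
  have h4 : (minpoly ℚ x).natDegree = 1 := by
    rw [← h3]
    rw [Fintype.card_eq_one_iff]
    refine ⟨⟨(x : ℂ), by rw [← h1]; rfl⟩, ?_⟩
    rintro ⟨y, hy⟩
    rw [← h1] at hy
    exact Subtype.ext hy
  obtain ⟨r, hr⟩ := minpoly.natDegree_eq_one_iff.1 h4
  refine ⟨r, ?_⟩
  rw [← hr]
  simp

/-- If the embeddings of `K` are the identity and the conjugation then `K` is an imaginary
quadratic field. -/
theorem quad (hK : IsCM K)
    (hτ : ∀ τ : K →+* ℂ, (∀ x : K, τ x = x) ∨ (∀ x : K, τ x = (starRingEnd ℂ) (x : ℂ))) :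
    ∃ (δ : K) (d : ℕ), 0 < d ∧ (δ : ℂ) ^ 2 = -(d : ℂ) ∧ (starRingEnd ℂ) (δ : ℂ) = -δ ∧
      ∀ x : K, ∃ a b : ℚ, (x : ℂ) = a + b * δ := by
  obtain ⟨θ, hθ, hne⟩ := hK.2.1
  have hc := hK.2.2.1
  set η : K := ⟨θ, hθ⟩ - cj hc ⟨θ, hθ⟩ with hη
  have hη1 : (η : ℂ) = θ - (starRingEnd ℂ) θ := rfl
  have hη2 : (starRingEnd ℂ) (η : ℂ) = -η := by
    rw [hη1, map_sub, Complex.conj_conj]; ring
  have hη0 : (η : ℂ) ≠ 0 := by
    rw [hη1]
    intro h
    exact hne (sub_eq_zero.1 h).symm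
  have hre : (η : ℂ) = (((η : ℂ).im : ℝ) : ℂ) * Complex.I := by
    have h1 : (η : ℂ).re = 0 := by
      have := congrArg Complex.re hη2
      rw [Complex.conj_re, Complex.neg_re] at this
      linarith
    apply Complex.ext <;> simp [h1]
  have hsq : (η : ℂ) ^ 2 = -(((η : ℂ).im ^ 2 : ℝ) : ℂ) := by
    conv_lhs => rw [hre]
    rw [mul_pow, Complex.I_sq]
    push_cast; ring
  obtain ⟨r, hr⟩ := real_rat hK hτ (x := η ^ 2) (by
    push_cast
    rw [map_pow, hη2]; ring)
  push_cast at hr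
  have him : (η : ℂ).im ≠ 0 := by
    intro h
    rw [h] at hre
    simp at hre
    exact hη0 (by rw [hre]; simp)
  have hrr : (r : ℝ) = -((η : ℂ).im ^ 2) := by
    have : ((r : ℝ) : ℂ) = ((-((η : ℂ).im ^ 2) : ℝ) : ℂ) := by
      rw [hsq] at hr
      push_cast at hr ⊢
      exact hr.symm
    exact_mod_cast this
  have hrneg : r < 0 := by
    have : (r : ℝ) < 0 := by
      rw [hrr]
      have := pow_pos (abs_pos.2 him) 2
      rw [sq_abs] at this
      linarith
    exact_mod_cast this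
  -- `r = -a / b`, `δ = b η`, `δ ^ 2 = - a b`
  set b : ℕ := r.den with hb
  have hb0 : 0 < b := r.den_pos
  set a : ℕ := (-r.num).toNat with ha
  have hanum : ((a : ℕ) : ℤ) = -r.num := by
    rw [ha, Int.toNat_of_nonneg]
    have := Rat.num_neg.2 hrneg
    omega
  have ha0 : 0 < a := by
    have := Rat.num_neg.2 hrneg
    omega
  have hrab : r * b = -(a : ℚ) := by
    have h1 : r * b = r.num := by
      rw [mul_comm]; exact Rat.den_mul_eq_num r
    rw [h1]
    have : ((a : ℕ) : ℤ) = -r.num := hanum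
    have h2 : ((a : ℤ) : ℚ) = ((-r.num : ℤ) : ℚ) := by rw [this]
    push_cast at h2
    rw [h2]; ring
  refine ⟨b * η, a * b, Nat.mul_pos ha0 hb0, ?_, ?_, ?_⟩
  · push_cast
    rw [mul_pow, hr]
    have h1 : ((r : ℚ) : ℂ) * (b : ℂ) = -(a : ℂ) := by exact_mod_cast congrArg (fun t : ℚ => (t : ℂ)) hrab
    calc (b : ℂ) ^ 2 * (r : ℂ) = (b : ℂ) * ((r : ℂ) * b) := by ring
      _ = _ := by rw [h1]; ring
  · push_cast
    rw [map_mul, hη2]
    simp
  · intro x
    have hb' : (b : ℂ) ≠ 0 := Nat.cast_ne_zero.2 hb0.ne'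
    obtain ⟨s, hs⟩ := real_rat hK hτ (x := (x + cj hc x) / 2) (by
      push_cast
      rw [map_div₀, map_add]
      change ((starRingEnd ℂ) (x : ℂ) + (starRingEnd ℂ) ((starRingEnd ℂ) (x : ℂ))) /
        (starRingEnd ℂ) 2 = ((x : ℂ) + (starRingEnd ℂ) (x : ℂ)) / 2
      rw [Complex.conj_conj, add_comm, Complex.conj_ofNat])
    obtain ⟨t, ht⟩ := real_rat hK hτ (x := (x - cj hc x) / (2 * (b * η))) (by
      push_cast
      rw [map_div₀, map_sub, map_mul, map_mul, hη2]
      change ((starRingEnd ℂ) (x : ℂ) - (starRingEnd ℂ) ((starRingEnd ℂ) (x : ℂ))) /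
        ((starRingEnd ℂ) 2 * ((starRingEnd ℂ) (b : ℂ) * -(η : ℂ))) =
        ((x : ℂ) - (starRingEnd ℂ) (x : ℂ)) / (2 * (b * η))
      rw [Complex.conj_conj, Complex.conj_ofNat, Complex.conj_natCast]
      field_simp
      ring)
    refine ⟨s, t, ?_⟩
    rw [← hs, ← ht]
    push_cast
    field_simp
    have h22 : ((2 : K) : ℂ) = 2 := rfl
    rw [h22]
    ring

private theorem norm_sq_eq {δ : K} {d : ℕ} (h2 : (δ : ℂ) ^ 2 = -(d : ℂ))
    (hδ : (starRingEnd ℂ) (δ : ℂ) = -δ) (a b : ℚ) :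
    ‖(a : ℂ) + b * δ‖ ^ 2 = ((a ^ 2 + d * b ^ 2 : ℚ) : ℝ) := by
  have h3 : ((‖(a : ℂ) + b * δ‖ ^ 2 : ℝ) : ℂ) = ((a ^ 2 + d * b ^ 2 : ℚ) : ℂ) := by
    rw [← Complex.normSq_eq_norm_sq, ← Complex.mul_conj, map_add, map_mul, hδ]
    have e1 : (starRingEnd ℂ) (a : ℂ) = a := by
      have := Complex.conj_ofReal (a : ℝ)
      push_cast at this
      exact this
    have e2 : (starRingEnd ℂ) (b : ℂ) = b := by
      have := Complex.conj_ofReal (b : ℝ)
      push_cast at this
      exact this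
    rw [e1, e2]
    push_cast
    linear_combination -((b : ℂ) ^ 2) * h2
  exact_mod_cast h3

private theorem q_add_smul {v w : Vec m} (h : herm v w = 0) (a b : ℂ) :
    q (a • v + b • w) = ‖a‖ ^ 2 * q v + ‖b‖ ^ 2 * q w := by
  have h1 : herm w v = 0 := by rw [herm_comm, h, star_zero]
  have h2 : herm (a • v + b • w) (a • v + b • w) =
      ((‖a‖ ^ 2 * q v + ‖b‖ ^ 2 * q w : ℝ) : ℂ) := by
    rw [herm_add_left, herm_add_right, herm_add_right, herm_smul_left v (b • w), herm_smul_left w,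
      herm_smul_right v w, herm_smul_right w v, h, h1, herm_self, herm_self, q_smul, q_smul]
    push_cast
    ring
  rw [q, h2, Complex.ofReal_re]

/-- Norms on a `K`-rational vector are rational when `K` is imaginary quadratic. -/
private theorem q_rat (hf : IsForm m K H B)
    (hτ : ∀ τ : K →+* ℂ, (∀ x : K, τ x = x) ∨ (∀ x : K, τ x = (starRingEnd ℂ) (x : ℂ)))
    (x : Fin (m + 1) → K) : ∃ r : ℚ, q (kv B x) = r := by
  have h1 : ((row hf.cm.2.2.1 H x ⬝ᵥ x : K) : ℂ) = (q (kv B x) : ℂ) := by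
    rw [← herm_kv hf, herm_self]
  obtain ⟨r, hr⟩ := real_rat hf.cm hτ (x := row hf.cm.2.2.1 H x ⬝ᵥ x) (by
    rw [h1, Complex.conj_ofReal])
  refine ⟨r, ?_⟩
  rw [h1] at hr
  exact_mod_cast hr

private theorem aniso {δ : K} {d p : ℕ} (h2 : (δ : ℂ) ^ 2 = -(d : ℂ))
    (hδ : (starRingEnd ℂ) (δ : ℂ) = -δ) (hq : ∀ x : K, ∃ a b : ℚ, (x : ℂ) = a + b * δ)
    (hp : p.Prime) (hx : ∀ x y : ZMod p, x ^ 2 + d * y ^ 2 = 0 → x = 0 ∧ y = 0)
    {v w : Vec m} (hvw : herm v w = 0) {β γ : ℚ} (hβ : β ≠ 0) (hγ : γ ≠ 0) (hv : q v = -β)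
    (hw : q w = γ) (hodd : ¬ Even (padicValRat p (γ * β))) (a b : K)
    (h : q ((a : ℂ) • v + (b : ℂ) • w) = 0) : a = 0 ∧ b = 0 := by
  have := Fact.mk hp
  obtain ⟨a₁, a₂, ha⟩ := hq a
  obtain ⟨b₁, b₂, hb⟩ := hq b
  have ea : ‖(a : ℂ)‖ ^ 2 = ((a₁ ^ 2 + d * a₂ ^ 2 : ℚ) : ℝ) := by rw [ha, norm_sq_eq h2 hδ]
  have eb : ‖(b : ℂ)‖ ^ 2 = ((b₁ ^ 2 + d * b₂ ^ 2 : ℚ) : ℝ) := by rw [hb, norm_sq_eq h2 hδ]
  rw [q_add_smul hvw, ea, eb, hv, hw] at h
  have h3 : (a₁ ^ 2 + d * a₂ ^ 2) * β = (b₁ ^ 2 + d * b₂ ^ 2) * γ := by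
    have : (((a₁ ^ 2 + d * a₂ ^ 2) * β : ℚ) : ℝ) = ((b₁ ^ 2 + d * b₂ ^ 2) * γ : ℚ) := by
      push_cast at h ⊢
      linarith
    exact_mod_cast this
  by_cases hb0 : b₁ ^ 2 + d * b₂ ^ 2 = 0
  · rw [hb0, zero_mul] at h3
    have ha0 : a₁ ^ 2 + d * a₂ ^ 2 = 0 := (mul_eq_zero.1 h3).resolve_right hβ
    rw [ha0] at ea
    rw [hb0] at eb
    constructor
    · have : (a : ℂ) = 0 := by simpa using ea
      exact Subtype.ext this
    · have : (b : ℂ) = 0 := by simpa using eb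
      exact Subtype.ext this
  · exfalso
    apply hodd
    have ha0 : a₁ ^ 2 + d * a₂ ^ 2 ≠ 0 := by
      intro h4
      rw [h4, zero_mul] at h3
      exact (mul_ne_zero hb0 hγ) h3.symm
    have h4 := congrArg (padicValRat p) h3
    rw [padicValRat.mul ha0 hβ, padicValRat.mul hb0 hγ] at h4
    rw [padicValRat.mul hγ hβ]
    obtain ⟨k, hk⟩ := even_norm hp hx ha0
    obtain ⟨l, hl⟩ := even_norm hp hx hb0
    rw [hk, hl] at h4
    exact ⟨padicValRat p β + k - l, by linarith⟩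

/-- `K`-rational positive vectors orthogonal to a `K`-rational negative vector are dense. -/
theorem exists_orth_pos_near (hf : IsForm m K H B) (hm : 2 ≤ m) {u : Fin (m + 1) → K}
    (hu : kv B u ∈ Cone m) {w' : Vec m} (hw' : herm (kv B u) w' = 0) {ε : ℝ} (hε : 0 < ε) :
    ∃ w : Fin (m + 1) → K, ‖kv B w - w'‖ < ε ∧ herm (kv B u) (kv B w) = 0 ∧
      0 < q (kv B w) := by
  by_cases h0 : w' = 0
  · obtain ⟨x, hx, -, hpos⟩ := exists_orth_two hf hm hu u
    obtain ⟨N, hN⟩ := exists_nat_gt (‖kv B x‖ / ε)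
    have hNpos : (0 : ℝ) < N := lt_of_le_of_lt (by positivity) hN
    have hN0 : N ≠ 0 := by
      rintro rfl
      simp at hNpos
    have hNc : ((((N : K))⁻¹ : K) : ℂ) = (N : ℂ)⁻¹ := by push_cast; rfl
    refine ⟨((N : K))⁻¹ • x, ?_, ?_, ?_⟩
    · rw [h0, sub_zero, kv_smul, norm_smul, hNc, norm_inv, Complex.norm_natCast]
      rw [div_lt_iff₀ hε] at hN
      rw [inv_mul_lt_iff₀ hNpos]
      exact hN
    · rw [kv_smul, herm_smul_right, hx, mul_zero]
    · rw [kv_smul, q_smul]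
      refine mul_pos (pow_pos (norm_pos_iff.2 ?_) 2) hpos
      rw [hNc]
      exact inv_ne_zero (Nat.cast_ne_zero.2 hN0)
  · obtain ⟨w, h1, h2⟩ := exists_orth_near hf hu hw' (lt_min hε (norm_pos_iff.2 h0))
    refine ⟨w, h1.trans_le (min_le_left _ _), h2, q_pos_of_orth hu h2 ?_⟩
    intro h3
    rw [h3, zero_sub, norm_neg] at h1
    exact lt_irrefl _ (h1.trans_le (min_le_right _ _))

/-- **Density of anisotropic rational planes.** Through every `K`-rational point of the ball the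
directions of the `K`-rational complex lines without `K`-rational isotropic vectors are dense. -/
theorem dense_dir (hf : IsForm m K H B) (hm : 2 ≤ m) {u : Fin (m + 1) → K}
    (hu : kv B u ∈ Cone m) {w' : Vec m} (hw' : herm (kv B u) w' = 0) {ε : ℝ} (hε : 0 < ε) :
    ∃ w : Fin (m + 1) → K, ‖kv B w - w'‖ < ε ∧ herm (kv B u) (kv B w) = 0 ∧
      0 < q (kv B w) ∧
      ∀ a b : K, q ((a : ℂ) • kv B u + (b : ℂ) • kv B w) = 0 → a = 0 ∧ b = 0 := by
  obtain ⟨w₁, h1, h2, h3⟩ := exists_orth_pos_near hf hm hu hw' (half_pos hε)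
  by_cases hdef : ∃ τ : K →+* ℂ, (H.map τ).PosDef ∨ (-(H.map τ)).PosDef
  · obtain ⟨τ, hτ⟩ := hdef
    refine ⟨w₁, h1.trans (half_lt_self hε), h2, h3, fun a b hab => ?_⟩
    rw [← kv_smul, ← kv_smul, ← kv_add] at hab
    have h4 := eq_zero_of_definite hf hτ hab
    have h5 : (a : ℂ) • kv B u + (b : ℂ) • kv B w₁ = 0 := by
      rw [← kv_smul, ← kv_smul, ← kv_add, h4, kv_zero]
    have ha : (a : ℂ) = 0 := by
      have h6 : herm (kv B u) ((a : ℂ) • kv B u + (b : ℂ) • kv B w₁) = 0 := by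
        rw [h5]; simp [herm]
      rw [herm_add_right, herm_smul_right, herm_smul_right, h2, mul_zero, add_zero] at h6
      exact (mul_eq_zero.1 h6).resolve_right (herm_ne_zero hu hu)
    rw [ha, zero_smul, zero_add] at h5
    have hb : (b : ℂ) = 0 := by
      refine (smul_eq_zero.1 h5).resolve_right ?_
      intro h6
      rw [h6] at h3
      simp [q, herm] at h3
    exact ⟨Subtype.ext ha, Subtype.ext hb⟩
  · have hτ : ∀ τ : K →+* ℂ, (∀ x : K, τ x = x) ∨
        (∀ x : K, τ x = (starRingEnd ℂ) (x : ℂ)) := by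
      intro τ
      rcases hf.definite τ with h | h | h | h
      · exact Or.inl h
      · exact Or.inr h
      · exact absurd ⟨τ, Or.inl h⟩ hdef
      · exact absurd ⟨τ, Or.inr h⟩ hdef
    obtain ⟨δ, d, hd, hδ2, hδ, hq⟩ := quad hf.cm hτ
    obtain ⟨p, hp, hp2, hx⟩ := exists_inert hd
    obtain ⟨β', hβ'⟩ := q_rat hf hτ u
    obtain ⟨γ, hγ⟩ := q_rat hf hτ w₁
    have hβ : q (kv B u) = -((-β' : ℚ) : ℝ) := by rw [hβ']; push_cast; ring
    have hβ0 : (-β' : ℚ) ≠ 0 := by
      intro h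
      rw [h] at hβ
      have : q (kv B u) < 0 := hu
      rw [hβ] at this
      simp at this
    have hγ0 : γ ≠ 0 := by
      intro h
      rw [hγ, h] at h3
      simp at h3
    by_cases hodd : Even (padicValRat p (γ * -β'))
    · obtain ⟨w₂, g1, g2, g3⟩ := exists_orth_two hf hm hu w₁
      obtain ⟨c, hc⟩ := q_rat hf hτ w₂
      have hc0 : c ≠ 0 := by
        intro h
        rw [hc, h] at g3
        simp at g3
      have hbig : 0 < (1 + ‖(δ : ℂ)‖) * (1 + ‖kv B w₂‖) := by positivity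
      obtain ⟨s, t, hs, ht, h6, h7⟩ := exists_not_norm hp hp2 hx (r := c / γ)
        (div_ne_zero hc0 hγ0) (ε := ε / 2 / ((1 + ‖(δ : ℂ)‖) * (1 + ‖kv B w₂‖))) (by positivity)
      set z : K := (s : K) + (t : K) * δ with hz
      have hzc : (z : ℂ) = (s : ℂ) + (t : ℂ) * δ := by rw [hz]; push_cast; rfl
      have hqw : q (kv B (w₁ + z • w₂)) = ((γ * (1 + c / γ * (s ^ 2 + d * t ^ 2)) : ℚ) : ℝ) := by
        have e1 : kv B (w₁ + z • w₂) = (1 : ℂ) • kv B w₁ + (z : ℂ) • kv B w₂ := by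
          rw [kv_add, kv_smul, one_smul]
        rw [e1, q_add_smul g2, hγ, hc, norm_one, hzc, norm_sq_eq hδ2 hδ]
        push_cast
        have : (γ : ℝ) ≠ 0 := by exact_mod_cast hγ0
        field_simp
      have horth : herm (kv B u) (kv B (w₁ + z • w₂)) = 0 := by
        rw [kv_add, kv_smul, herm_add_right, herm_smul_right, h2, g1, mul_zero, add_zero]
      have hprod0 : γ * (1 + c / γ * (s ^ 2 + d * t ^ 2)) ≠ 0 := mul_ne_zero hγ0 h6
      have := Fact.mk hp
      refine ⟨w₁ + z • w₂, ?_, horth, ?_, ?_⟩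
      · have e1 : kv B (w₁ + z • w₂) - w' = (kv B w₁ - w') + (z : ℂ) • kv B w₂ := by
          rw [kv_add, kv_smul]; abel
        have e2 : ‖(z : ℂ)‖ ≤ ε / 2 / ((1 + ‖(δ : ℂ)‖) * (1 + ‖kv B w₂‖)) * (1 + ‖(δ : ℂ)‖) := by
          rw [hzc]
          refine (norm_add_le _ _).trans ?_
          rw [norm_mul]
          have e3 : ‖(s : ℂ)‖ = |(s : ℝ)| := by
            have := Complex.norm_real (s : ℝ)
            push_cast at this
            rw [this]; rfl
          have e4 : ‖(t : ℂ)‖ = |(t : ℝ)| := by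
            have := Complex.norm_real (t : ℝ)
            push_cast at this
            rw [this]; rfl
          rw [e3, e4, mul_add, mul_one]
          exact add_le_add hs.le (mul_le_mul_of_nonneg_right ht.le (norm_nonneg _))
        have e5 : ‖(z : ℂ)‖ * ‖kv B w₂‖ ≤ ε / 2 := by
          calc ‖(z : ℂ)‖ * ‖kv B w₂‖ ≤ ε / 2 / ((1 + ‖(δ : ℂ)‖) * (1 + ‖kv B w₂‖)) *
                (1 + ‖(δ : ℂ)‖) * (1 + ‖kv B w₂‖) := by
                refine mul_le_mul e2 ?_ (norm_nonneg _) (by positivity)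
                linarith
            _ = ε / 2 := by
                rw [mul_assoc, div_mul_cancel₀ _ hbig.ne']
        rw [e1]
        refine lt_of_le_of_lt (norm_add_le _ _) ?_
        rw [norm_smul]
        linarith
      · refine q_pos_of_orth hu horth ?_
        intro h
        rw [h] at hqw
        have : q (0 : Vec m) = 0 := by simp [q, herm]
        rw [this] at hqw
        exact hprod0 (by exact_mod_cast hqw.symm)
      · intro a b hab
        refine aniso hδ2 hδ hq hp hx horth hβ0 hprod0 hβ hqw ?_ a b hab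
        intro hev
        apply h7
        have e1 : γ * (1 + c / γ * (s ^ 2 + d * t ^ 2)) * -β' =
            (γ * -β') * (1 + c / γ * (s ^ 2 + d * t ^ 2)) := by ring
        rw [e1, padicValRat.mul (mul_ne_zero hγ0 hβ0) h6] at hev
        exact (Int.even_add.1 hev).1 hodd
    · exact ⟨w₁, h1.trans (half_lt_self hε), h2, h3, fun a b hab =>
        aniso hδ2 hδ hq hp hx h2 hβ0 hγ0 hβ hγ hodd a b hab⟩

end form

end Pool.Agent.Lib.MP_5d4057_al.PU
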