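import Pool.Agent.Lib.MP_5d4057_al.CI.SliceB
import Pool.Agent.Lib.MP_5d4057_al.NU.Thm

/-!
# PU (d): existence of a pluriharmonic function with given periods
-/

set_option autoImplicit false

namespace Pool.Agent.Lib.MP_5d4057_al.PU

open Matrix Filter Topology Metric Pool.Agent.Lib.MP_5d4057_al Pool.Agent.Lib.MP_5d4057_al.Hyb
  Pool.Agent.Lib.MP_5d4057_al.HM Pool.Agent.Lib.MP_5d4057_al.RC Pool.Agent.Lib.MP_5d4057_al.CI
  Pool.Agent.Lib.MP_5d4057_al.NU

open scoped ComplexOrder MatrixOrder Matrix.Norms.L2Operator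

variable {m : ℕ} {Γ : Subgroup (SUGroup m)}

/-- The representation of rank one `γ ↦ exp (κ γ / 2)`. -/
noncomputable def rk1 (κ : Γ →* Multiplicative ℝ) : Γ →* Mat 1 where
  toFun γ := ((Real.exp (Multiplicative.toAdd (κ γ) / 2) : ℝ) : ℂ) • (1 : Mat 1)
  map_one' := by simp
  map_mul' a b := by
    rw [map_mul, toAdd_mul, add_div, Real.exp_add, Complex.ofReal_mul, smul_mul_smul_comm, mul_one]

theorem rk1_apply (κ : Γ →* Multiplicative ℝ) (γ : Γ) :
    rk1 κ γ = ((Real.exp (Multiplicative.toAdd (κ γ) / 2) : ℝ) : ℂ) • (1 : Mat 1) := rfl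

private theorem ex_one (M : Mat 1) : M = M 0 0 • (1 : Mat 1) := by
  ext i j
  rw [Subsingleton.elim i 0, Subsingleton.elim j 0]
  simp

theorem span_rk1 (κ : Γ →* Multiplicative ℝ) : Submodule.span ℂ (Set.range (rk1 κ)) = ⊤ := by
  rw [eq_top_iff]
  intro M _
  rw [ex_one M]
  refine Submodule.smul_mem _ _ (Submodule.subset_span ⟨1, ?_⟩)
  rw [map_one]

theorem norm_rk1 (κ : Γ →* Multiplicative ℝ) (γ : Γ) :
    ‖rk1 κ γ‖ = Real.exp (Multiplicative.toAdd (κ γ) / 2) := by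
  rw [rk1_apply, norm_smul, norm_one, mul_one, Complex.norm_real, Real.norm_of_nonneg
    (Real.exp_pos _).le]

/-- From a pluriharmonic metric of rank one to a pluriharmonic function. -/
theorem ph_of_harm {κ : Γ →* Multiplicative ℝ} {F : Vec m → Mat 1} (hF : Harm F)
    (he : Equi (rk1 κ) F) : ∃ u : Vec m → ℝ, PH u ∧
      ∀ γ : Γ, ∀ v ∈ Cone m, u (act (γ : SUGroup m) v) = u v + Multiplicative.toAdd (κ γ) := by
  obtain ⟨e, hee⟩ : ∃ e : Fin 1 → ℂ, e = Pi.single 0 1 := ⟨_, rfl⟩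
  have he0 : e ≠ 0 := by
    intro h
    have h1 := congrFun h 0
    rw [hee, Pi.single_eq_same] at h1
    exact one_ne_zero h1
  have hmul : ∀ M : Mat 1, M *ᵥ e = M 0 0 • e := by
    intro M
    conv_lhs => rw [ex_one M]
    rw [Matrix.smul_mulVec, one_mulVec]
  have hlen : ∀ v, len F e v = (F v 0 0).re := by
    intro v
    rw [len, hmul, dotProduct_smul, hee]
    simp
  have hpar : Par F e := by
    intro v hv ξ
    have h0 : F v 0 0 ≠ 0 := by
      have h1 := (hF.pos v hv).det_pos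
      rw [Matrix.det_fin_one] at h1
      exact h1.ne'
    refine ⟨⟨pz F v ξ 0 0 / F v 0 0, ?_⟩, ⟨pb F v ξ 0 0 / F v 0 0, ?_⟩⟩
    · rw [hmul, hmul, smul_smul, div_mul_cancel₀ _ h0]
    · rw [hmul, hmul, smul_smul, div_mul_cancel₀ _ h0]
  refine ⟨_, ph_log_len hF he0 hpar, fun γ v hv => ?_⟩
  have hpos : 0 < (F v 0 0).re := by
    have h1 := (hF.pos v hv).det_pos
    rw [Matrix.det_fin_one] at h1
    exact (Complex.pos_iff.1 h1).1
  have h1 := he γ v hv
  rw [hlen, hlen, h1, rk1_apply]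
  have h2 : (((Real.exp (Multiplicative.toAdd (κ γ) / 2) : ℝ) : ℂ) • (1 : Mat 1) * F v *
      (((Real.exp (Multiplicative.toAdd (κ γ) / 2) : ℝ) : ℂ) • (1 : Mat 1))ᴴ) 0 0 =
      ((Real.exp (Multiplicative.toAdd (κ γ)) : ℝ) : ℂ) * F v 0 0 := by
    rw [conjTranspose_smul, conjTranspose_one, smul_mul_assoc, one_mul, mul_smul_comm, mul_one,
      smul_smul, Matrix.smul_apply, smul_eq_mul]
    congr 1
    rw [Complex.star_def, Complex.conj_ofReal, ← Complex.ofReal_mul, ← Real.exp_add, add_halves]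
  rw [h2, Complex.re_ofReal_mul, Real.log_mul (Real.exp_pos _).ne' hpos.ne', Real.log_exp]
  ring

/-- **Existence**: a homomorphism of logarithmic growth is the period of a pluriharmonic function. -/
theorem exists_ph (hm : 1 ≤ m) {χ : SUGroup m → ℝ} (hL : Lat Γ χ) {T : ℝ} {y : Vec m → ℝ}
    (hy : Ht Γ T y) (κ : Γ →* Multiplicative ℝ) {N : ℕ} {C : ℝ} (hg : Grow (rk1 κ) N C) :
    ∃ u : Vec m → ℝ, PH u ∧
      ∀ γ : Γ, ∀ v ∈ Cone m, u (act (γ : SUGroup m) v) = u v + Multiplicative.toAdd (κ γ) := by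
  obtain ⟨F, hF, he, -⟩ := exists_harm_N hm one_pos hL hy (rk1 κ) hg (span_rk1 κ)
  exact ph_of_harm hF he

end Pool.Agent.Lib.MP_5d4057_al.PU
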