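import Pool.Agent.Lib.MP_5d4057_al.PU.Const
import Pool.Agent.Lib.MP_5d4057_al.PU.ExPh

/-!
# PU (d): there is a disc on which a given homomorphism is not trivial
-/

set_option autoImplicit false

namespace Pool.Agent.Lib.MP_5d4057_al.PU

open Matrix Filter Topology Metric Pool.Agent.Lib.MP_5d4057_al Pool.Agent.Lib.MP_5d4057_al.Hyb
  Pool.Agent.Lib.MP_5d4057_al.HM Pool.Agent.Lib.MP_5d4057_al.RC Pool.Agent.Lib.MP_5d4057_al.CI
  Pool.Agent.Lib.MP_5d4057_al.NU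

variable {m : ℕ} {Γ : Subgroup (SUGroup m)}

/-- `v` is a point, `S` a dense set of directions at `v` for which `P s` acts cocompactly on the disc of
the plane of `v`, `s`. Then a nontrivial homomorphism `κ` is nontrivial on `P s` for some `s`. -/
theorem exists_disc (hm : 1 ≤ m) {χ : SUGroup m → ℝ} (hL : Lat Γ χ) {T : ℝ} {y : Vec m → ℝ}
    (hy : Ht Γ T y) (κ : Γ →* Multiplicative ℝ) {N : ℕ} {C : ℝ} (hg : Grow (rk1 κ) N C)
    (hne : κ ≠ 1) {v : Vec m} (hv : v ∈ Cone m) {S : Set (Vec m)}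
    (hSv : ∀ s ∈ S, herm v s = 0)
    (hS : ∀ w : Vec m, herm v w = 0 → w ∈ closure {x : Vec m | ∃ c : ℂ, ∃ s ∈ S, x = c • s})
    (P : Vec m → Γ → Prop)
    (hc : ∀ s ∈ S, ∃ D : Set (Vec m), IsCompact D ∧ D ⊆ Cone m ∧
      (∀ x ∈ D, ∃ a b : ℂ, x = a • v + b • s) ∧
      ∀ x ∈ Cone m, (∃ a b : ℂ, x = a • v + b • s) →
        ∃ γ : Γ, P s γ ∧ ∃ c : ℂ, c ≠ 0 ∧ c • act (γ : SUGroup m) x ∈ D) :
    ∃ s ∈ S, ∃ γ : Γ, P s γ ∧ κ γ ≠ 1 := by
  obtain ⟨u, hu, hκ⟩ := exists_ph hm hL hy κ hg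
  obtain ⟨s, hs, γ, h1, h2⟩ := exists_dir (κ := fun γ => Multiplicative.toAdd (κ γ)) hu hκ (by
    by_contra hcon
    push Not at hcon
    apply hne
    ext γ
    exact Multiplicative.toAdd.injective (hcon γ)) hv hSv hS P hc
  refine ⟨s, hs, γ, h1, fun h3 => h2 ?_⟩
  rw [h3]
  rfl

end Pool.Agent.Lib.MP_5d4057_al.PU
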