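import Pool.Agent.Lib.MP_5d4057_al.PU.ExPh
import Pool.Agent.Lib.MP_5d4057_al.RG.CpG3

/-!
# PU: growth of a real character which is trivial on the parabolic elements
-/

set_option autoImplicit false

namespace Pool.Agent.Lib.MP_5d4057_al.PU

open Matrix Filter Topology Pool.Agent.Lib.MP_5d4057_al Pool.Agent.Lib.MP_5d4057_al.Hyb
  Pool.Agent.Lib.MP_5d4057_al.HM Pool.Agent.Lib.MP_5d4057_al.HM.Kak Pool.Agent.Lib.MP_5d4057_al.NU

open scoped ComplexOrder MatrixOrder Matrix.Norms.L2Operator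

variable {j m : ℕ}

/-- Polynomial growth. (`grow_rhoT` of NU/CuspN with `exp |κ|` instead of the norm.) -/
theorem grow_rk1 {Γ : Subgroup (SUGroup m)} (hm : 2 ≤ m) {χ : SUGroup m → ℝ} (hL : Lat Γ χ)
    (hT : TF Γ) (hTor : Tor Γ) (κ : Γ →* Multiplicative ℝ)
    (hpar : ∀ ξ : Fin m → ℂ, nq ξ = 1 → ∀ γ : Γ, (γ : SUGroup m) ∈ PS ξ → κ γ = 1) :
    ∃ (N : ℕ) (C : ℝ), Grow (rk1 κ) N C := by
  obtain ⟨N, C, -, h⟩ := RG.grow_of_St hm hL hT hTor (rk1 κ) fun ξ z κ' hc =>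
    ⟨1, one_pos, fun γ hγ => by
      rw [norm_rk1, hpar ξ hc.par.1 γ (hc.par.2 γ γ.2 hγ), toAdd_one, zero_div, Real.exp_zero,
        one_mul]
      exact one_le_pow₀ (one_le_ch _)⟩
  exact ⟨N, C, h⟩

end Pool.Agent.Lib.MP_5d4057_al.PU
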