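import Mathlib

/-! A character of infinite order of a finitely generated group: there is a nonzero homomorphism
to the integers which vanishes wherever the character is a root of unity. -/

namespace Pool.Agent.Lib.MP_5d4057_al.PU

/-- `χ` of infinite order on a finitely generated group: there is `φ ≠ 1` with values in `ℤ`
which is trivial on every element on which `χ` is a root of unity. -/
theorem exists_int {G A : Type} [Group G] [Group.FG G] [CommGroup A] (χ : G →* A)
    (hinf : ∀ k : ℕ, 0 < k → ∃ g, χ g ^ k ≠ 1) :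
    ∃ φ : G →* Multiplicative ℤ, (∃ g, φ g ≠ 1) ∧
      ∀ g, (∃ k : ℕ, 0 < k ∧ χ g ^ k = 1) → φ g = 1 := by
  classical
  have hfg : Group.FG χ.range := inferInstance
  have hM : Module.Finite ℤ (Additive χ.range) := by
    rw [Module.Finite.iff_addGroup_fg]
    infer_instance
  let T : Submodule ℤ (Additive χ.range) := Submodule.torsion ℤ (Additive χ.range)
  have hfree : Module.Free ℤ (Additive χ.range ⧸ T) := inferInstance
  have hT : ∀ g, (∃ k : ℕ, 0 < k ∧ χ g ^ k = 1) →
      (Additive.ofMul (⟨χ g, g, rfl⟩ : χ.range)) ∈ T := by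
    rintro g ⟨k, hk, h⟩
    rw [Submodule.mem_torsion_iff]
    refine ⟨⟨(k : ℤ), mem_nonZeroDivisors_of_ne_zero (by exact_mod_cast hk.ne')⟩, ?_⟩
    have h1 : (⟨χ g, g, rfl⟩ : χ.range) ^ k = 1 := Subtype.ext h
    show (k : ℤ) • Additive.ofMul (⟨χ g, g, rfl⟩ : χ.range) = 0
    rw [natCast_zsmul, ← ofMul_pow, h1, ofMul_one]
  have hne : ∃ g, (Additive.ofMul (⟨χ g, g, rfl⟩ : χ.range)) ∉ T := by
    by_contra hcon
    push Not at hcon
    have htors : Module.IsTorsion ℤ (Additive χ.range) := by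
      rintro ⟨x, g, rfl⟩
      exact (Submodule.mem_torsion_iff _).1 (hcon g)
    have hfin : Finite (Additive χ.range) := Module.finite_of_fg_torsion _ htors
    have hfin' : Finite χ.range := hfin
    obtain ⟨g, hg⟩ := hinf (Nat.card χ.range) Nat.card_pos
    have h2 : (⟨χ g, g, rfl⟩ : χ.range) ^ Nat.card χ.range = 1 := pow_card_eq_one'
    exact hg (congrArg Subtype.val h2)
  obtain ⟨g₀, hg₀⟩ := hne
  have hx : T.mkQ (Additive.ofMul (⟨χ g₀, g₀, rfl⟩ : χ.range)) ≠ 0 := by
    rwa [Submodule.mkQ_apply, Ne, Submodule.Quotient.mk_eq_zero]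
  obtain ⟨f, hf⟩ := Module.Projective.exists_dual_ne_zero ℤ hx
  let ψ : Additive χ.range →+ ℤ := (f.comp T.mkQ).toAddMonoidHom
  let φ : G →* Multiplicative ℤ :=
    { toFun := fun g => Multiplicative.ofAdd (ψ (Additive.ofMul (⟨χ g, g, rfl⟩ : χ.range)))
      map_one' := by
        have h : (⟨χ 1, 1, rfl⟩ : χ.range) = 1 := Subtype.ext (map_one χ)
        rw [h, ofMul_one, map_zero, ofAdd_zero]
      map_mul' := fun a b => by
        have h : (⟨χ (a * b), a * b, rfl⟩ : χ.range) = ⟨χ a, a, rfl⟩ * ⟨χ b, b, rfl⟩ :=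
          Subtype.ext (map_mul χ a b)
        rw [h, ofMul_mul, map_add, ofAdd_add] }
  refine ⟨φ, ⟨g₀, fun h => hf ?_⟩, fun g hg => ?_⟩
  · exact ofAdd_eq_one.1 h
  · refine ofAdd_eq_one.2 ?_
    have h1 : T.mkQ (Additive.ofMul (⟨χ g, g, rfl⟩ : χ.range)) = 0 := by
      rw [Submodule.mkQ_apply, Submodule.Quotient.mk_eq_zero]
      exact hT g hg
    show f (T.mkQ (Additive.ofMul (⟨χ g, g, rfl⟩ : χ.range))) = 0
    rw [h1, map_zero]

end Pool.Agent.Lib.MP_5d4057_al.PU
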