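import Pool.Agent.Lib.MP_5d4057_al.PU.CocU
import Pool.Agent.Lib.MP_5d4057_al.PU.Dense
import Pool.Agent.Lib.MP_5d4057_al.PU.Dir
import Pool.Agent.Lib.MP_5d4057_al.PU.GrowPhi
import Pool.Agent.Lib.MP_5d4057_al.PU.Tors
import Pool.Agent.Lib.MP_5d4057_al.RG.FGN

/-!
# PU: existence of the plane (owner: helper13)
-/

set_option autoImplicit false

namespace Pool.Agent.Lib.MP_5d4057_al.PU

open Matrix Filter Topology Pool.Agent.Lib.MP_5d4057_al Pool.Agent.Lib.MP_5d4057_al.Hyb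
  Pool.Agent.Lib.MP_5d4057_al.HM Pool.Agent.Lib.MP_5d4057_al.HM.Kak Pool.Agent.Lib.MP_5d4057_al.NU

open scoped ComplexOrder MatrixOrder Matrix.Norms.L2Operator

variable {j m : ℕ}

theorem kv_rat {K : Subfield ℂ} {B : Mat (m + 1)} (hB : B.det ≠ 0) (u : Fin (m + 1) → K) (i) :
    (B⁻¹ *ᵥ kv B u) i ∈ K := by
  have h1 : B⁻¹ *ᵥ kv B u = fun i => (u i : ℂ) := by
    rw [kv, mulVec_mulVec, Matrix.nonsing_inv_mul B (isUnit_iff_ne_zero.2 hB), one_mulVec]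
  rw [h1]
  exact (u i).2

/-- The case of a torsion free subgroup of the integral points. -/
theorem exists_plane_tf {K : Subfield ℂ} {H : Matrix (Fin (j + 2)) (Fin (j + 2)) K}
    {B : Mat (j + 2)} (hj : 1 ≤ j) (hf : IsForm (j + 1) K H B)
    {Γ : Subgroup (SUGroup (j + 1))} (hΓ : Γ ≤ integralPoints (j + 1) K B)
    {χ₀ : SUGroup (j + 1) → ℝ} (hL : Lat Γ χ₀) (hT : TF Γ) (hTor : Tor Γ) (hfg : Group.FG Γ)
    (χ : Γ →* ℂˣ)
    (hpar : ∀ ξ : Fin (j + 1) → ℂ, nq ξ = 1 → ∀ γ : Γ, (γ : SUGroup (j + 1)) ∈ PS ξ →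
      ∃ k : ℕ, 0 < k ∧ χ γ ^ k = 1)
    (hinf : ∀ k : ℕ, 0 < k → ∃ γ : Γ, χ γ ^ k ≠ 1) :
    ∃ (u w : Vec (j + 1)) (g : SUGroup (j + 1)) (a b : ℂ), Pl K B u w ∧ a ≠ 0 ∧ b ≠ 0 ∧
      act g (inc2 j (Pi.single 1 1)) = a • u ∧ act g (inc2 j (Pi.single 0 1)) = b • w ∧
      Coc (Γ.comap (emb2 g)) ∧
      ∃ (y : SUGroup 1) (hy : emb2 g y ∈ Γ), ∀ k : ℕ, 0 < k → χ ⟨emb2 g y, hy⟩ ^ k ≠ 1 := by
  obtain ⟨φ, ⟨γ₀, hγ₀⟩, hφ⟩ := exists_int χ hinf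
  obtain ⟨κ, hκ⟩ : ∃ κ : Γ →* Multiplicative ℝ, κ =
    (AddMonoidHom.toMultiplicative (Int.castAddHom ℝ)).comp φ := ⟨_, rfl⟩
  have hκφ : ∀ γ, κ γ = 1 ↔ φ γ = 1 := by
    intro γ
    rw [hκ]
    show Multiplicative.ofAdd (((Multiplicative.toAdd (φ γ) : ℤ)) : ℝ) = 1 ↔ _
    rw [ofAdd_eq_one, Int.cast_eq_zero, toAdd_eq_zero]
  have hne : κ ≠ 1 := by
    intro h
    apply hγ₀
    rw [← hκφ, h]
    rfl
  have hκpar : ∀ ξ : Fin (j + 1) → ℂ, nq ξ = 1 → ∀ γ : Γ, (γ : SUGroup (j + 1)) ∈ PS ξ →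
      κ γ = 1 := fun ξ hξ γ hγ => (hκφ γ).2 (hφ γ (hpar ξ hξ γ hγ))
  obtain ⟨N, C, hg⟩ := grow_rk1 (by omega) hL hT hTor κ hκpar
  have hy := ht_hty (by omega : 2 ≤ j + 1) hL hT hTor
  obtain ⟨u, hu, -⟩ := exists_pt hf (base_mem (j + 1)) one_pos
  obtain ⟨v, hv⟩ : ∃ v, v = kv B u := ⟨_, rfl⟩
  rw [← hv] at hu
  have hvr : ∀ i, (B⁻¹ *ᵥ v) i ∈ K := by
    rw [hv]
    exact kv_rat hf.det u
  -- the frames
  have hfr : ∀ s : Vec (j + 1), ∃ (g : SUGroup (j + 1)) (a b : ℂ), Pl K B v s → a ≠ 0 ∧ b ≠ 0 ∧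
      act g (inc2 j (Pi.single 1 1)) = a • v ∧ act g (inc2 j (Pi.single 0 1)) = b • s := by
    intro s
    by_cases h : Pl K B v s
    · obtain ⟨g, a, b, h1⟩ := exists_frm h.neg h.pos h.orth
      exact ⟨g, a, b, fun _ => h1⟩
    · exact ⟨1, 0, 0, fun h' => absurd h' h⟩
  choose g a b hgab using hfr
  obtain ⟨s, hs, γ, ⟨y, hyγ⟩, hκγ⟩ := exists_disc (by omega) hL hy κ hg hne hu
    (S := {s | Pl K B v s}) (fun s hs => hs.orth) (fun w hw => by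
      rw [Metric.mem_closure_iff]
      intro ε hε
      rw [hv] at hw hu
      obtain ⟨w₁, h1, h2, h3, h4⟩ := dense_dir hf (by omega) hu hw hε
      refine ⟨kv B w₁, ⟨1, kv B w₁, ?_, (one_smul _ _).symm⟩, ?_⟩
      · rw [hv]
        exact ⟨kv_rat hf.det u, kv_rat hf.det w₁, hu, h3, h2, fun a ha b hb hab => by
          have h5 := h4 ⟨a, ha⟩ ⟨b, hb⟩ hab
          exact ⟨congrArg Subtype.val h5.1, congrArg Subtype.val h5.2⟩⟩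
      · rw [dist_eq_norm, ← norm_neg, neg_sub]
        exact h1)
    (fun s γ => ∃ y : SUGroup 1, emb2 (g s) y = γ) (fun s hs => by
      obtain ⟨ha, hb, h1, h2⟩ := hgab s hs
      obtain ⟨D, hD, hDC, hDP, hcov⟩ := cov_emb2 hj hf hΓ hL hT hTor hs ha hb h1 h2
      refine ⟨D, hD, hDC, hDP, fun x hx hxp => ?_⟩
      obtain ⟨y, hyΓ, c, hc, h3⟩ := hcov x hx hxp
      exact ⟨⟨_, hyΓ⟩, ⟨y, rfl⟩, c, hc, h3⟩)
  obtain ⟨ha, hb, h1, h2⟩ := hgab s hs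
  have hyΓ : emb2 (g s) y ∈ Γ := by
    rw [hyγ]
    exact γ.2
  refine ⟨v, s, g s, a s, b s, hs, ha, hb, h1, h2,
    coc_emb2 hj hf hΓ hL hT hTor hs ha hb h1 h2, y, hyΓ, fun k hk hχ => hκγ ?_⟩
  have h3 : (⟨emb2 (g s) y, hyΓ⟩ : Γ) = γ := Subtype.ext hyγ
  rw [h3] at hχ
  exact (hκφ γ).2 (hφ γ ⟨k, hk, hχ⟩)

/-- **Existence of the plane.** `Γ` is a lattice commensurable with `SU(H, O_K)`, `χ` a character of infinite order which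
has finite order on the parabolic elements. Then there is a rational anisotropic plane `U` such that the subgroup of `Γ` of
the elements preserving `U` and trivial on its complement is cocompact on the disc of `U` and contains an element on which
`χ` is not a root of unity. -/
theorem exists_plane {K : Subfield ℂ} {H : Matrix (Fin (j + 2)) (Fin (j + 2)) K} {B : Mat (j + 2)}
    (hj : 1 ≤ j) (hf : IsForm (j + 1) K H B) {Γ : Subgroup (SUGroup (j + 1))} (hL : IsLattice Γ)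
    (hc : Subgroup.Commensurable Γ (integralPoints (j + 1) K B)) (χ : Γ →* ℂˣ)
    (hpar : ∀ ξ : Fin (j + 1) → ℂ, nq ξ = 1 → ∀ γ : Γ, (γ : SUGroup (j + 1)) ∈ PS ξ →
      ∃ k : ℕ, 0 < k ∧ χ γ ^ k = 1)
    (hinf : ∀ k : ℕ, 0 < k → ∃ γ : Γ, χ γ ^ k ≠ 1) :
    ∃ (u w : Vec (j + 1)) (g : SUGroup (j + 1)) (a b : ℂ), Pl K B u w ∧ a ≠ 0 ∧ b ≠ 0 ∧
      act g (inc2 j (Pi.single 1 1)) = a • u ∧ act g (inc2 j (Pi.single 0 1)) = b • w ∧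
      Coc (Γ.comap (emb2 g)) ∧
      ∃ (y : SUGroup 1) (hy : emb2 g y ∈ Γ), ∀ k : ℕ, 0 < k → χ ⟨emb2 g y, hy⟩ ^ k ≠ 1 := by
  have hfgg : FGG Γ := fgg_of_commensurable hf hc
  obtain ⟨Γ₁, hle1, hfi1, -, hTor1⟩ := exists_tor hfgg
  obtain ⟨Γ', hΓ'⟩ : ∃ Γ', Γ' = Γ₁ ⊓ integralPoints (j + 1) K B := ⟨_, rfl⟩
  have hle : Γ' ≤ Γ := by
    rw [hΓ']
    exact inf_le_left.trans hle1
  have hfi : Γ'.relIndex Γ ≠ 0 := by
    rw [hΓ']
    exact Subgroup.relIndex_inf_ne_zero hfi1 hc.2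
  have hTor : Tor Γ' := fun γ hγ k hk h => hTor1 γ (by
    rw [hΓ'] at hγ
    exact hγ.1) k hk h
  obtain ⟨χ₁, hχ₁⟩ := exists_lat hL
  obtain ⟨χ₀, hL'⟩ := hχ₁.finite_index hle hfi
  have hT := tf_of_tor hL'.disc hTor
  have hfg : Group.FG Γ' := RG.fg_of_tor (by omega) hL' hT hTor
  obtain ⟨r, hr⟩ : ∃ r, r = (Γ'.subgroupOf Γ).index := ⟨_, rfl⟩
  have hr0 : r ≠ 0 := by
    rw [hr]
    exact hfi
  have hpow : ∀ γ : Γ, ((γ ^ r.factorial : Γ) : SUGroup (j + 1)) ∈ Γ' := by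
    intro γ
    obtain ⟨n, hn0, hn1, hn⟩ := Subgroup.exists_pow_mem_of_index_ne_zero
      (H := Γ'.subgroupOf Γ) (by rw [← hr]; exact hr0) γ
    rw [← hr] at hn1
    obtain ⟨c, hc⟩ := Nat.dvd_factorial hn0 hn1
    rw [hc, pow_mul]
    exact (Γ'.subgroupOf Γ).pow_mem hn c
  obtain ⟨u, w, g, a, b, h1, h2, h3, h4, h5, h6, y, hy, h7⟩ := exists_plane_tf hj hf
    (Γ := Γ') (by rw [hΓ']; exact inf_le_right) hL' hT hTor hfg (χ.comp (Subgroup.inclusion hle))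
    (fun ξ hξ γ hγ => hpar ξ hξ _ hγ) (fun k hk => by
      obtain ⟨γ, hγ⟩ := hinf (r.factorial * k) (Nat.mul_pos (Nat.factorial_pos r) hk)
      refine ⟨⟨_, hpow γ⟩, fun h => hγ ?_⟩
      rw [pow_mul, ← map_pow]
      exact h)
  refine ⟨u, w, g, a, b, h1, h2, h3, h4, h5, ?_, y, hle hy, fun k hk h => h7 k hk h⟩
  obtain ⟨F, hF, hcov⟩ := h6.cpt
  refine ⟨?_, F, hF, fun x => ?_⟩
  · have hd : DiscreteTopology Γ := hL.1
    have h8 : Continuous (fun y : Γ.comap (emb2 g) => (⟨emb2 g y, y.2⟩ : Γ)) :=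
      Continuous.subtype_mk ((continuous_emb2 g).comp continuous_subtype_val) _
    refine DiscreteTopology.of_continuous_injective h8 fun y y' hyy => ?_
    exact Subtype.ext (emb2_injective g (congrArg Subtype.val hyy))
  · obtain ⟨γ, hγ, h8⟩ := hcov x
    exact ⟨γ, hle hγ, h8⟩

end Pool.Agent.Lib.MP_5d4057_al.PU
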