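import Pool.Agent.Lib.MP_5d4057_al.DR.Piece
import Pool.Agent.Lib.MP_5d4057_al.CF.Reg
import Pool.Agent.Lib.MP_5d4057_al.Hyb.ArithB
import Pool.Agent.Lib.MP_5d4057_al.GX.FrmB

/-!
# PU: an arithmetic lattice with a hyperplane piece is of the first type

The piece of the hyperplane acts, up to two characters, as a lattice of `SU(k,1)`. The projection on
the normal line is then in the algebra of the arithmetic structure, which is therefore the algebra of
all matrices over the field.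
-/

set_option autoImplicit false

namespace Pool.Agent.Lib.MP_5d4057_al.PU

open Matrix Pool.Agent.Lib.MP_5d4057_al Pool.Agent.Lib.MP_5d4057_al.Hyb
  Pool.Agent.Lib.MP_5d4057_al.RG Pool.Agent.Lib.MP_5d4057_al.DR

variable {k : ℕ} {K : Subfield ℂ}

private theorem col_zero {n : ℕ} (hn : 2 ≤ n) {S : Set (Matrix (Fin n) (Fin n) ℂ)}
    (hS : Submodule.span ℂ S = ⊤) {c : Fin n → ℂ}
    (h : ∀ s ∈ S, ∃ l : ℂ, s *ᵥ c = l • c) : c = 0 := by
  have h1 : ∀ M : Matrix (Fin n) (Fin n) ℂ, ∃ l : ℂ, M *ᵥ c = l • c := by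
    intro M
    have hM : M ∈ Submodule.span ℂ S := by rw [hS]; trivial
    induction hM using Submodule.span_induction with
    | mem x hx => exact h x hx
    | zero => exact ⟨0, by rw [zero_mulVec, zero_smul]⟩
    | add x y _ _ hx hy =>
      obtain ⟨a, ha⟩ := hx
      obtain ⟨b, hb⟩ := hy
      exact ⟨a + b, by rw [add_mulVec, ha, hb, add_smul]⟩
    | smul t x _ hx =>
      obtain ⟨a, ha⟩ := hx
      exact ⟨t * a, by rw [smul_mulVec, ha, smul_smul]⟩
  funext j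
  by_contra hj
  have hj' : c j ≠ 0 := hj
  obtain ⟨i, hi⟩ : ∃ i : Fin n, i ≠ j := by
    by_cases h0 : j = ⟨0, by omega⟩
    · refine ⟨⟨1, by omega⟩, ?_⟩
      rw [h0]
      intro h
      have := congrArg Fin.val h
      simp at this
    · exact ⟨⟨0, by omega⟩, fun h => h0 h.symm⟩
  obtain ⟨l, hl⟩ := h1 (single i j 1)
  have h2 := congrFun hl j
  have h3 := congrFun hl i
  have e : ∀ a, (single i j (1 : ℂ) *ᵥ c) a = if a = i then c j else 0 := by
    intro a
    rw [mulVec, dotProduct, Finset.sum_eq_single j]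
    · by_cases ha : a = i
      · rw [ha, single_apply_same, one_mul, if_pos rfl]
      · rw [single_apply_of_ne _ _ _ _ _ (fun h => ha h.1.symm), zero_mul, if_neg ha]
    · intro b _ hb
      rw [single_apply_of_ne _ _ _ _ _ (fun h => hb h.2.symm), zero_mul]
    · intro h
      exact absurd (Finset.mem_univ _) h
  rw [e, if_neg (fun h => hi h.symm), Pi.smul_apply, smul_eq_mul] at h2
  rw [e, if_pos rfl, Pi.smul_apply, smul_eq_mul] at h3
  rcases mul_eq_zero.1 h2.symm with h4 | h4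
  · rw [h4, zero_mul] at h3
    exact hj' h3
  · exact hj' h4

private theorem row_zero {n : ℕ} (hn : 2 ≤ n) {S : Set (Matrix (Fin n) (Fin n) ℂ)}
    (hS : Submodule.span ℂ S = ⊤) {c : Fin n → ℂ}
    (h : ∀ s ∈ S, ∃ l : ℂ, c ᵥ* s = l • c) : c = 0 := by
  have hS' : Submodule.span ℂ ((fun s : Matrix (Fin n) (Fin n) ℂ => sᵀ) '' S) = ⊤ := by
    have h1 : Submodule.map (Matrix.transposeLinearEquiv (Fin n) (Fin n) ℂ ℂ).toLinearMap
        (Submodule.span ℂ S) = ⊤ := by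
      rw [hS, Submodule.map_top, LinearEquiv.range]
    rw [Submodule.map_span] at h1
    exact h1
  refine col_zero hn hS' ?_
  rintro _ ⟨s, hs, rfl⟩
  obtain ⟨l, hl⟩ := h s hs
  exact ⟨l, by rw [← hl]; exact mulVec_transpose s c⟩

private theorem blk_scalar {n : ℕ} {S : Set (Matrix (Fin n) (Fin n) ℂ)}
    (hS : Submodule.span ℂ S = ⊤) {Y : Matrix (Fin n) (Fin n) ℂ} (h : ∀ s ∈ S, s * Y = Y * s) :
    ∃ b : ℂ, Y = b • 1 := by
  have h1 : ∀ M : Matrix (Fin n) (Fin n) ℂ, M * Y = Y * M := by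
    intro M
    have hM : M ∈ Submodule.span ℂ S := by rw [hS]; trivial
    induction hM using Submodule.span_induction with
    | mem x hx => exact h x hx
    | zero => rw [Matrix.zero_mul, Matrix.mul_zero]
    | add x y _ _ hx hy => rw [Matrix.add_mul, Matrix.mul_add, hx, hy]
    | smul t x _ hx => rw [Matrix.smul_mul, Matrix.mul_smul, hx]
  obtain ⟨b, hb⟩ := Matrix.mem_range_scalar_of_commute_single (M := Y) fun i j _ => h1 _
  refine ⟨b, ?_⟩
  rw [← hb, smul_one_eq_diagonal]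
  rfl

private theorem dm_zero {n : ℕ} (χ : ℂ) (M : Matrix (Fin n) (Fin n) ℂ)
    (x : Matrix (Fin (n + 1)) (Fin (n + 1)) ℂ) (j : Fin (n + 1)) :
    (dsum χ M * x) 0 j = χ * x 0 j := by
  rw [Matrix.mul_apply, Fin.sum_univ_succ, dsum_zero_zero,
    Finset.sum_eq_zero fun l _ => by rw [dsum_zero_succ, zero_mul], add_zero]

private theorem dm_succ {n : ℕ} (χ : ℂ) (M : Matrix (Fin n) (Fin n) ℂ)
    (x : Matrix (Fin (n + 1)) (Fin (n + 1)) ℂ) (i : Fin n) (j : Fin (n + 1)) :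
    (dsum χ M * x) i.succ j = ∑ l : Fin n, M i l * x l.succ j := by
  rw [Matrix.mul_apply, Fin.sum_univ_succ, dsum_succ_zero, zero_mul, zero_add]
  exact Finset.sum_congr rfl fun l _ => by rw [dsum_succ_succ]

private theorem md_zero {n : ℕ} (χ : ℂ) (M : Matrix (Fin n) (Fin n) ℂ)
    (x : Matrix (Fin (n + 1)) (Fin (n + 1)) ℂ) (i : Fin (n + 1)) :
    (x * dsum χ M) i 0 = x i 0 * χ := by
  rw [Matrix.mul_apply, Fin.sum_univ_succ, dsum_zero_zero,
    Finset.sum_eq_zero fun l _ => by rw [dsum_succ_zero, mul_zero], add_zero]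

private theorem md_succ {n : ℕ} (χ : ℂ) (M : Matrix (Fin n) (Fin n) ℂ)
    (x : Matrix (Fin (n + 1)) (Fin (n + 1)) ℂ) (i : Fin (n + 1)) (j : Fin n) :
    (x * dsum χ M) i j.succ = ∑ l : Fin n, x i l.succ * M l j := by
  rw [Matrix.mul_apply, Fin.sum_univ_succ, dsum_zero_succ, mul_zero, zero_add]
  exact Finset.sum_congr rfl fun l _ => by rw [dsum_succ_succ]

/-- The commutant of a twisted piece. -/
private theorem commutant (hk : 1 ≤ k) {S : Set (Matrix (Fin (k + 1)) (Fin (k + 1)) ℂ)}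
    (hS : Submodule.span ℂ S = ⊤) {x : Matrix (Fin (k + 1 + 1)) (Fin (k + 1 + 1)) ℂ}
    (h : ∀ s ∈ S, ∃ χ ψ : ℂ, χ ≠ 0 ∧ ψ ≠ 0 ∧ dsum χ (ψ • s) * x = x * dsum χ (ψ • s)) :
    ∃ a b : ℂ, x = dsum a (b • 1) := by
  have hk2 : 2 ≤ k + 1 := by omega
  have hcol : (fun i : Fin (k + 1) => x i.succ 0) = 0 := by
    refine col_zero hk2 hS fun s hs => ?_
    obtain ⟨χ, ψ, hχ, hψ, hc⟩ := h s hs
    refine ⟨χ / ψ, ?_⟩
    ext i
    have h1 := congrFun (congrFun hc i.succ) 0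
    rw [dm_succ, md_zero] at h1
    rw [Pi.smul_apply, smul_eq_mul, mulVec, dotProduct]
    simp only [Matrix.smul_apply, smul_eq_mul, mul_assoc] at h1
    rw [← Finset.mul_sum] at h1
    field_simp
    linear_combination h1
  have hrow : (fun j : Fin (k + 1) => x 0 j.succ) = 0 := by
    refine row_zero hk2 hS fun s hs => ?_
    obtain ⟨χ, ψ, hχ, hψ, hc⟩ := h s hs
    refine ⟨χ / ψ, ?_⟩
    ext j
    have h1 := congrFun (congrFun hc 0) j.succ
    rw [dm_zero, md_succ] at h1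
    rw [Pi.smul_apply, smul_eq_mul, vecMul, dotProduct]
    simp only [Matrix.smul_apply, smul_eq_mul, mul_left_comm _ ψ] at h1
    rw [← Finset.mul_sum] at h1
    field_simp
    linear_combination -h1
  obtain ⟨b, hb⟩ := blk_scalar hS (Y := Matrix.of fun i j : Fin (k + 1) => x i.succ j.succ) (by
    intro s hs
    obtain ⟨χ, ψ, hχ, hψ, hc⟩ := h s hs
    ext i j
    have h1 := congrFun (congrFun hc i.succ) j.succ
    rw [dm_succ, md_succ] at h1
    simp only [Matrix.smul_apply, smul_eq_mul, mul_left_comm _ ψ] at h1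
    simp only [mul_assoc] at h1
    rw [← Finset.mul_sum, ← Finset.mul_sum] at h1
    rw [Matrix.mul_apply, Matrix.mul_apply]
    simp only [Matrix.of_apply]
    exact mul_left_cancel₀ hψ h1)
  refine ⟨x 0 0, b, ?_⟩
  ext i j
  refine Fin.cases ?_ (fun i => ?_) i <;> refine Fin.cases ?_ (fun j => ?_) j
  · rw [dsum_zero_zero]
  · rw [dsum_zero_succ]
    exact congrFun hrow j
  · rw [dsum_succ_zero]
    exact congrFun hcol i
  · rw [dsum_succ_succ]
    exact congrFun (congrFun hb i) j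

/-- The projection on the first basis vector is in `A` when `A` contains the twisted piece. -/
theorem idem_mem_tw (hk : 1 ≤ k) {A : Subalgebra K (Matrix (Fin (k + 1 + 1)) (Fin (k + 1 + 1)) ℂ)}
    (hrank : Module.finrank K A = (k + 1 + 1) ^ 2)
    (hspan : Submodule.span ℂ (A : Set (Matrix (Fin (k + 1 + 1)) (Fin (k + 1 + 1)) ℂ)) = ⊤)
    {S : Set (Matrix (Fin (k + 1)) (Fin (k + 1)) ℂ)} (hS : Submodule.span ℂ S = ⊤)
    (hSA : ∀ s ∈ S, ∃ χ ψ : ℂ, χ ≠ 0 ∧ ψ ≠ 0 ∧ dsum χ (ψ • s) ∈ A) :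
    (Matrix.single 0 0 1 : Matrix (Fin (k + 1 + 1)) (Fin (k + 1 + 1)) ℂ) ∈ A := by
  obtain ⟨F, f, hf1, hFA, hFz, hl, hr, hne⟩ := exists_retract A (Nat.succ_pos _) hrank hspan
  obtain ⟨e, he⟩ : ∃ e : Matrix (Fin (k + 1 + 1)) (Fin (k + 1 + 1)) ℂ, e = dsum 1 0 := ⟨_, rfl⟩
  have he' : e = Matrix.single 0 0 1 := by
    rw [he]
    ext i j
    refine Fin.cases ?_ (fun i => ?_) i <;> refine Fin.cases ?_ (fun j => ?_) j
    · simp
    · rw [dsum_zero_succ, Matrix.single_apply_of_ne _ _ _ _ _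
        (fun h => Fin.succ_ne_zero j h.2.symm)]
    · rw [dsum_succ_zero, Matrix.single_apply_of_ne _ _ _ _ _
        (fun h => Fin.succ_ne_zero i h.1.symm)]
    · rw [dsum_succ_succ, Matrix.single_apply_of_ne _ _ _ _ _
        (fun h => Fin.succ_ne_zero i h.1.symm)]
      rfl
  -- an element which is not a scalar
  obtain ⟨z, hz⟩ : ∃ z : ℂ, ¬ ∃ b : ℂ, F (z • e) = b • 1 := by
    by_contra hcon
    push Not at hcon
    have h1 : ∀ a ∈ A, a * e = e * a := by
      intro a ha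
      by_contra h2
      obtain ⟨z, h3⟩ := hne (a * e - e * a) (sub_ne_zero.2 h2)
      apply h3
      obtain ⟨b, hb⟩ := hcon z
      have h4 : z • (a * e - e * a) = a * (z • e) - (z • e) * a := by
        rw [smul_sub, Matrix.mul_smul, Matrix.smul_mul]
      rw [h4, map_sub, hl a ha, hr a ha, hb, Matrix.mul_smul, Matrix.smul_mul, Matrix.mul_one,
        Matrix.one_mul, sub_self]
    have h2 : ∀ M : Matrix (Fin (k + 1 + 1)) (Fin (k + 1 + 1)) ℂ, M * e = e * M := by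
      intro M
      have hM : M ∈ Submodule.span ℂ (A : Set (Matrix (Fin (k + 1 + 1)) (Fin (k + 1 + 1)) ℂ)) := by
        rw [hspan]; trivial
      induction hM using Submodule.span_induction with
      | mem x hx => exact h1 x hx
      | zero => rw [Matrix.zero_mul, Matrix.mul_zero]
      | add x y _ _ hx hy => rw [Matrix.add_mul, Matrix.mul_add, hx, hy]
      | smul t x _ hx => rw [Matrix.smul_mul, Matrix.mul_smul, hx]
    have h3 := congrFun (congrFun (h2 (single 1 0 1)) 1) 0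
    rw [he', single_mul_single_same, single_mul_single_of_ne _ _ _ _ (by
      exact Fin.zero_ne_one)] at h3
    simp at h3
  obtain ⟨x, hx⟩ : ∃ x, x = F (z • e) := ⟨_, rfl⟩
  rw [← hx] at hz
  have hxA : x ∈ A := by rw [hx]; exact hFA _
  obtain ⟨α, β, hαβ⟩ := commutant hk hS (x := x) (by
    intro s hs
    obtain ⟨χ, ψ, hχ, hψ, hD⟩ := hSA s hs
    refine ⟨χ, ψ, hχ, hψ, ?_⟩
    have h1 : dsum χ (ψ • s) * (z • e) = (z • e) * dsum χ (ψ • s) := by
      rw [Matrix.mul_smul, Matrix.smul_mul, he, dsum_mul, dsum_mul, mul_one, one_mul,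
        Matrix.mul_zero, Matrix.zero_mul]
    rw [hx, ← hl _ hD, h1, hr _ hD])
  have hne' : α ≠ β := by
    rintro rfl
    apply hz
    refine ⟨α, ?_⟩
    rw [hαβ, ← (dsum_one : dsum (1 : ℂ) (1 : Matrix (Fin (k + 1)) (Fin (k + 1)) ℂ) = 1), smul_dsum, mul_one]
  -- the eigenvalues
  have hsq : x * x = (α + β) • x - (α * β) • (1 : Matrix (Fin (k + 1 + 1)) (Fin (k + 1 + 1)) ℂ) := by
    rw [hαβ, dsum_mul]
    ext i j
    rw [← (dsum_one : dsum (1 : ℂ) (1 : Matrix (Fin (k + 1)) (Fin (k + 1)) ℂ) = 1), Matrix.sub_apply, Matrix.smul_apply, Matrix.smul_apply]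
    refine Fin.cases ?_ (fun i => ?_) i <;> refine Fin.cases ?_ (fun j => ?_) j
    · simp only [dsum_zero_zero, smul_eq_mul]
      ring
    · simp only [dsum_zero_succ, smul_zero, sub_zero]
    · simp only [dsum_succ_zero, smul_zero, sub_zero]
    · simp only [dsum_succ_succ, smul_eq_mul, Matrix.smul_mul, Matrix.mul_smul, Matrix.one_mul,
        Matrix.smul_apply]
      ring
  have hF1 : ∀ a ∈ A, F a = a := by
    intro a ha
    have := hFz a ha 1
    rw [one_smul, hf1, one_smul] at this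
    exact this
  have hsq' : x * x = f (α + β) • x -
      f (α * β) • (1 : Matrix (Fin (k + 1 + 1)) (Fin (k + 1 + 1)) ℂ) := by
    have h1 := congrArg F hsq
    rw [hF1 _ (A.mul_mem hxA hxA), map_sub, hFz x hxA, hFz 1 A.one_mem] at h1
    exact h1
  have hp : α + β ∈ K := by
    have h1 : ((α + β) - (f (α + β) : ℂ)) * (α - β) = 0 := by
      have h2 := congrFun (congrFun (hsq.symm.trans hsq') 0) 0
      have h3 := congrFun (congrFun (hsq.symm.trans hsq') (Fin.succ 0)) (Fin.succ 0)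
      have e1 : ∀ (c : K) (M : Matrix (Fin (k + 1 + 1)) (Fin (k + 1 + 1)) ℂ) i j,
          (c • M) i j = (c : ℂ) * M i j := fun c M i j => rfl
      rw [hαβ] at h2 h3
      rw [← (dsum_one : dsum (1 : ℂ) (1 : Matrix (Fin (k + 1)) (Fin (k + 1)) ℂ) = 1)] at h2 h3
      simp only [Matrix.sub_apply, Matrix.smul_apply, e1, dsum_zero_zero, smul_eq_mul, mul_one,
        dsum_succ_succ, Matrix.one_apply_eq] at h2 h3
      linear_combination h2 - h3
    have h2 : (α + β) - (f (α + β) : ℂ) = 0 := (mul_eq_zero.1 h1).resolve_right (sub_ne_zero.2 hne')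
    rw [sub_eq_zero.1 h2]
    exact (f (α + β)).2
  have ht : α + (k + 1) * β ∈ K := by
    obtain ⟨d, b, c, hreg⟩ := CF.exists_reg A hrank hspan
    have h1 := hreg.trace_mem (a := x) hxA
    rw [hαβ, trace_dsum, Matrix.trace_smul, Matrix.trace_one, Fintype.card_fin, smul_eq_mul] at h1
    push_cast at h1
    rw [mul_comm β] at h1
    exact h1
  have hk0 : (k : ℂ) ≠ 0 := Nat.cast_ne_zero.2 (by omega)
  have hβ : β ∈ K := by
    have h1 : β = ((α + (k + 1) * β) - (α + β)) / k := by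
      field_simp
      ring
    rw [h1]
    exact K.div_mem (K.sub_mem ht hp) (natCast_mem K k)
  have hα : α ∈ K := by
    have h1 : α = (α + β) - β := by ring
    rw [h1]
    exact K.sub_mem hp hβ
  have hfin : (Matrix.single 0 0 1 : Matrix (Fin (k + 1 + 1)) (Fin (k + 1 + 1)) ℂ) =
      ((⟨(α - β)⁻¹, K.inv_mem (K.sub_mem hα hβ)⟩ : K)) • (x - (⟨β, hβ⟩ : K) •
        (1 : Matrix (Fin (k + 1 + 1)) (Fin (k + 1 + 1)) ℂ)) := by
    have e1 : ∀ (c : ℂ) (hc : c ∈ K) (M : Matrix (Fin (k + 1 + 1)) (Fin (k + 1 + 1)) ℂ),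
        ((⟨c, hc⟩ : K)) • M = c • M := fun c hc M => rfl
    rw [e1, e1, ← he', he, hαβ, ← (dsum_one : dsum (1 : ℂ) (1 : Matrix (Fin (k + 1)) (Fin (k + 1)) ℂ) = 1), smul_dsum, mul_one]
    ext i j
    have hne0 : α - β ≠ 0 := sub_ne_zero.2 hne'
    refine Fin.cases ?_ (fun i => ?_) i <;> refine Fin.cases ?_ (fun j => ?_) j
    · simp only [Matrix.smul_apply, Matrix.sub_apply, dsum_zero_zero, smul_eq_mul]
      field_simp
    · simp only [Matrix.smul_apply, Matrix.sub_apply, dsum_zero_succ, sub_zero, smul_zero]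
    · simp only [Matrix.smul_apply, Matrix.sub_apply, dsum_succ_zero, sub_zero, smul_zero]
    · simp only [Matrix.smul_apply, Matrix.sub_apply, dsum_succ_succ, sub_self, smul_zero,
        Matrix.zero_apply]
  rw [hfin]
  exact A.smul_mem (A.sub_mem hxA (A.smul_mem A.one_mem _)) _

/-- The standard position. -/
private theorem form_std (hk : 1 ≤ k) {Γ : Subgroup (SUGroup (k + 1))} (hA : IsArith (k + 1) Γ)
    {Λ : Subgroup (SUGroup k)} (hL : IsLattice Λ) (τ : Λ →* SUGroup (k + 1)) (hτ : τ.range ≤ Γ)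
    (hT : ∀ x : Λ, ∃ χ ψ : ℂ, (τ x).toMatrix = dsum χ (ψ • (x : SUGroup k).toMatrix)) :
    ∃ (K : Subfield ℂ) (H : Matrix (Fin (k + 2)) (Fin (k + 2)) K)
      (B : Matrix (Fin (k + 2)) (Fin (k + 2)) ℂ), IsForm (k + 1) K H B ∧
        Subgroup.Commensurable Γ (integralPoints (k + 1) K B) := by
  obtain ⟨K, A, O, hU, hO, hc⟩ := hA
  obtain ⟨Δ, hΔ⟩ : ∃ Δ, Δ = unitPoints (k + 1) O := ⟨_, rfl⟩
  rw [← hΔ] at hc
  have hfin : ((Δ.comap τ).map Λ.subtype).relIndex Λ ≠ 0 := by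
    rw [Subgroup.relIndex, Subgroup.subgroupOf, Subgroup.comap_map_eq_self_of_injective
      Λ.subtype_injective, Subgroup.index_comap]
    intro h
    exact hc.2 (Subgroup.relIndex_eq_zero_of_le_right hτ h)
  have hspan := span_top_fin hk Λ _ hL hfin
  have he := idem_mem_tw hk hU.rank hU.span hspan (by
    rintro _ ⟨γ, ⟨x, hx, rfl⟩, rfl⟩
    obtain ⟨χ, ψ, h⟩ := hT x
    have h1 : τ x ∈ Δ := hx
    rw [hΔ] at h1
    have hdet : (dsum χ (ψ • (x : SUGroup k).toMatrix)).det = 1 := by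
      rw [← h]; exact det_toMatrix _
    rw [det_dsum, Matrix.det_smul] at hdet
    refine ⟨χ, ψ, ?_, ?_, ?_⟩
    · rintro rfl
      rw [zero_mul] at hdet
      exact zero_ne_one hdet
    · rintro rfl
      rw [Fintype.card_fin, zero_pow (Nat.succ_ne_zero k), zero_mul, mul_zero] at hdet
      exact zero_ne_one hdet
    · have h2 : dsum χ (ψ • (x : SUGroup k).toMatrix) ∈ A := by
        rw [← h]
        exact hO.sub _ h1.1
      exact h2)
  obtain ⟨B, hB, hAB, hw⟩ := exists_KBasis A hU.rank hU.span (c := 1) one_ne_zero (by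
    rw [one_smul]; exact he)
  obtain ⟨H, hH⟩ := form_of_KBasis (by omega) hU hB hAB hw
  rw [hΔ] at hc
  exact ⟨K, H, B, hH, hc.trans (commensurable_matOrder hU.cm.1 hU.rank hO hB hAB)⟩

theorem commensurable_conj {m : ℕ} {Γ Δ : Subgroup (SUGroup m)} (u : SUGroup m)
    (h : Subgroup.Commensurable Γ Δ) :
    Subgroup.Commensurable (GX.cj u Γ) (GX.cj u Δ) := by
  have key : ∀ {P Q : Subgroup (SUGroup m)}, P.relIndex Q ≠ 0 →
      (GX.cj u P).relIndex (GX.cj u Q) ≠ 0 := by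
    intro P Q hPQ
    have h1 : GX.cj u Q = Q.map (MulAut.conj u⁻¹).toMonoidHom := by
      ext x
      rw [GX.mem_cj, Subgroup.mem_map]
      constructor
      · intro hx
        refine ⟨_, hx, ?_⟩
        show u⁻¹ * (u * x * u⁻¹) * (u⁻¹)⁻¹ = x
        group
      · rintro ⟨y, hy, rfl⟩
        show u * (u⁻¹ * y * (u⁻¹)⁻¹) * u⁻¹ ∈ Q
        have : u * (u⁻¹ * y * (u⁻¹)⁻¹) * u⁻¹ = y := by group
        rw [this]
        exact hy
    rw [h1]
    show (P.comap (MulAut.conj u).toMonoidHom).relIndex _ ≠ 0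
    rw [Subgroup.relIndex_comap, Subgroup.map_map]
    have h2 : (MulAut.conj u).toMonoidHom.comp (MulAut.conj u⁻¹).toMonoidHom =
        MonoidHom.id (SUGroup m) := by
      ext1 x
      show u * (u⁻¹ * x * (u⁻¹)⁻¹) * u⁻¹ = x
      group
    rw [h2, Subgroup.map_id]
    exact hPQ
  exact ⟨key h.1, key h.2⟩

theorem cj_integralPoints {m : ℕ} (B : Matrix (Fin (m + 1)) (Fin (m + 1)) ℂ) (u : SUGroup m) :
    GX.cj u⁻¹ (integralPoints m K B) = integralPoints m K (u.toMatrix * B) := by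
  ext x
  rw [GX.mem_cj]
  have h1 : ∀ y : SUGroup m, EntriesIn (integers K) B (u⁻¹ * y * (u⁻¹)⁻¹).toMatrix ↔
      EntriesIn (integers K) (u.toMatrix * B) y.toMatrix := by
    intro y
    have h2 := entriesIn_conj (R := integers K) u B (u⁻¹ * y * (u⁻¹)⁻¹).toMatrix
    have h3 : u.toMatrix * (u⁻¹ * y * (u⁻¹)⁻¹).toMatrix * u⁻¹.toMatrix = y.toMatrix := by
      rw [← toMatrix_mul, ← toMatrix_mul]
      congr 1
      group
    rw [h3] at h2
    exact h2.symm
  constructor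
  · rintro ⟨h2, h3⟩
    refine ⟨(h1 x).1 h2, (h1 x⁻¹).1 ?_⟩
    have : u⁻¹ * x⁻¹ * (u⁻¹)⁻¹ = (u⁻¹ * x * (u⁻¹)⁻¹)⁻¹ := by group
    rw [this]
    exact h3
  · rintro ⟨h2, h3⟩
    refine ⟨(h1 x).2 h2, ?_⟩
    have : (u⁻¹ * x * (u⁻¹)⁻¹)⁻¹ = u⁻¹ * x⁻¹ * (u⁻¹)⁻¹ := by group
    rw [this]
    exact (h1 x⁻¹).2 h3

/-- **An arithmetic lattice with a hyperplane piece comes from a hermitian form.** -/
theorem exists_form_hyp (hk : 1 ≤ k) {Γ : Subgroup (SUGroup (k + 1))} (hA : IsArith (k + 1) Γ)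
    (hH : HasHyp Γ) :
    ∃ (K : Subfield ℂ) (H : Matrix (Fin (k + 2)) (Fin (k + 2)) K)
      (B : Matrix (Fin (k + 2)) (Fin (k + 2)) ℂ), IsForm (k + 1) K H B ∧
        Subgroup.Commensurable Γ (integralPoints (k + 1) K B) := by
  obtain ⟨Λ, τ, g, hL, -, hT, hτ⟩ := hH
  obtain ⟨K, H, B, hf, hc⟩ := form_std hk (GX.isArith_cj g hA) hL
    ((MulAut.conj g⁻¹).toMonoidHom.comp τ) (by
      rintro _ ⟨x, rfl⟩
      rw [GX.mem_cj]
      have : g * ((MulAut.conj g⁻¹).toMonoidHom.comp τ) x * g⁻¹ = τ x := by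
        show g * (g⁻¹ * τ x * (g⁻¹)⁻¹) * g⁻¹ = τ x
        group
      rw [this]
      exact hτ ⟨x, rfl⟩) (by
      intro x
      obtain ⟨χ, ψ, h⟩ := hT x
      refine ⟨χ, ψ, ?_⟩
      rw [← h]
      show (g⁻¹ * τ x * (g⁻¹)⁻¹).toMatrix = _
      rw [inv_inv])
  refine ⟨K, H, g.toMatrix * B, hf.conj g, ?_⟩
  have h1 := commensurable_conj g⁻¹ hc
  have h2 : GX.cj g⁻¹ (GX.cj g Γ) = Γ := by
    ext x
    rw [GX.mem_cj, GX.mem_cj]
    have : g * (g⁻¹ * x * (g⁻¹)⁻¹) * g⁻¹ = x := by group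
    rw [this]
  rw [h2, cj_integralPoints] at h1
  exact h1

end Pool.Agent.Lib.MP_5d4057_al.PU
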