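import Pool.Agent.Lib.MP_5d4057_al.PU.Hgt

/-!
# PU: finiteness of sets of matrices with bounded denominators
-/

set_option autoImplicit false

namespace Pool.Agent.Lib.MP_5d4057_al.PU

open Matrix Filter Topology Pool.Agent.Lib.MP_5d4057_al Pool.Agent.Lib.MP_5d4057_al.Hyb
  Pool.Agent.Lib.MP_5d4057_al.HM Pool.Agent.Lib.MP_5d4057_al.HM.Kak Pool.Agent.Lib.MP_5d4057_al.NU

variable {j m : ℕ}

/-- The entries of the elements of `SU(H, O_K)` are bounded at the other places. -/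
theorem bdd_place {K : Subfield ℂ} {H : Matrix (Fin (m + 1)) (Fin (m + 1)) K} {B : Mat (m + 1)}
    (hf : IsForm m K H B) : ∃ C : ℝ, ∀ γ ∈ integralPoints m K B, ∀ τ : K →+* ℂ,
    (∃ x : K, τ x ≠ x) → (∃ x : K, τ x ≠ (starRingEnd ℂ) (x : ℂ)) → ∀ i k : Fin (m + 1),
      ∀ x : K, (x : ℂ) = (B⁻¹ * γ.toMatrix * B) i k → ‖τ x‖ ≤ C := by
  have hK : NumberField K := hf.cm.1
  have hτ : ∀ τ : K →+* ℂ, ∃ E : ℝ, (∃ x : K, τ x ≠ x) →
      (∃ x : K, τ x ≠ (starRingEnd ℂ) (x : ℂ)) → ∀ γ ∈ integralPoints m K B,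
      ∀ i k : Fin (m + 1), ∀ x : K, (x : ℂ) = (B⁻¹ * γ.toMatrix * B) i k → ‖τ x‖ ≤ E := by
    intro τ
    rcases hf.definite τ with h | h | h
    · exact ⟨0, fun ⟨x, hx⟩ => absurd (h x) hx⟩
    · exact ⟨0, fun _ ⟨x, hx⟩ => absurd (h x) hx⟩
    · obtain ⟨E, hE⟩ := entries_bound' (H.map τ) h
      refine ⟨E, fun _ _ γ hγ i k x hx => ?_⟩
      obtain ⟨G, hG1, -, hG3⟩ := Hyb.exists_rat hf γ fun i k => (hγ.1 i k).1
      have h1 : x = G i k := by
        apply Subtype.val_injective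
        have h2 := congrFun (congrFun hG1 i) k
        rw [Matrix.map_apply] at h2
        exact hx.trans h2.symm
      rw [h1]
      exact hE (G.map τ) (hG3 τ) i k
  choose E hE using hτ
  refine ⟨∑ τ, |E τ|, fun γ hγ τ h1 h2 i k x hx => (hE τ h1 h2 γ hγ i k x hx).trans
    ((le_abs_self _).trans ?_)⟩
  exact Finset.single_le_sum (f := fun τ => |E τ|) (fun τ _ => abs_nonneg _) (Finset.mem_univ τ)

theorem finite_mat {K : Subfield ℂ} {H : Matrix (Fin (m + 1)) (Fin (m + 1)) K} {B : Mat (m + 1)}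
    (hf : IsForm m K H B) {N : ℕ} (hN : 0 < N) {S : Set (Mat (m + 1))}
    (hint : ∀ X ∈ S, ∀ i k, (N : ℂ) * (B⁻¹ * X * B) i k ∈ integers K) {C : ℝ}
    (hb : ∀ X ∈ S, ∀ i k, ‖(B⁻¹ * X * B) i k‖ ≤ C)
    (hτ : ∀ X ∈ S, ∀ τ : K →+* ℂ, (∃ x : K, τ x ≠ x) →
      (∃ x : K, τ x ≠ (starRingEnd ℂ) (x : ℂ)) → ∀ i k : Fin (m + 1), ∀ x : K,
        (x : ℂ) = (B⁻¹ * X * B) i k → ‖τ x‖ ≤ C) : S.Finite := by
  have hK : NumberField K := hf.cm.1
  have hBu : IsUnit B.det := isUnit_iff_ne_zero.2 hf.det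
  have hB1 : B * B⁻¹ = 1 := Matrix.mul_nonsing_inv B hBu
  have hNC : (N : ℂ) ≠ 0 := by exact_mod_cast hN.ne'
  have hfin : ({x : K | IsIntegral ℤ x ∧ ∀ φ : K →+* ℂ, ‖φ x‖ ≤ N * C}).Finite :=
    NumberField.Embeddings.finite_of_norm_le K ℂ _
  obtain ⟨T, hT⟩ : ∃ T : Set ℂ, T = (fun x : K => (x : ℂ)) '' {x : K | IsIntegral ℤ x ∧
    ∀ φ : K →+* ℂ, ‖φ x‖ ≤ N * C} := ⟨_, rfl⟩
  have hTf : T.Finite := by rw [hT]; exact hfin.image _
  have hpi : (Set.univ.pi fun _ : Fin (m + 1) => Set.univ.pi fun _ : Fin (m + 1) => T).Finite :=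
    Set.Finite.pi fun _ => Set.Finite.pi fun _ => hTf
  refine Set.Finite.of_finite_image (f := fun Q : Mat (m + 1) => fun i j =>
    (N : ℂ) * (B⁻¹ * Q * B) i j) (hpi.subset ?_) ?_
  · rintro _ ⟨Q, hQ, rfl⟩
    rw [Set.mem_univ_pi]
    intro i
    rw [Set.mem_univ_pi]
    intro k
    have h1 := hint Q hQ i k
    have hQK : (B⁻¹ * Q * B) i k ∈ K := by
      have h2 : (B⁻¹ * Q * B) i k = (N : ℂ)⁻¹ * ((N : ℂ) * (B⁻¹ * Q * B) i k) := by
        rw [← mul_assoc, inv_mul_cancel₀ hNC, one_mul]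
      rw [h2]
      exact K.mul_mem (K.inv_mem (natCast_mem K N)) h1.1
    obtain ⟨x, hx⟩ : ∃ x : K, (x : ℂ) = (B⁻¹ * Q * B) i k := ⟨⟨_, hQK⟩, rfl⟩
    rw [hT]
    refine ⟨(N : K) * x, ⟨?_, ?_⟩, ?_⟩
    · have h2 : IsIntegral ℤ ((N : ℂ) * (B⁻¹ * Q * B) i k) := h1.2
      rw [← hx] at h2
      have h3 : IsIntegral ℤ (algebraMap K ℂ ((N : K) * x)) := by
        convert h2 using 1
        rw [map_mul, map_natCast]
        rfl
      exact (isIntegral_algebraMap_iff (algebraMap K ℂ).injective).1 h3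
    · intro φ
      rw [map_mul, map_natCast, norm_mul, Complex.norm_natCast]
      refine mul_le_mul_of_nonneg_left ?_ (Nat.cast_nonneg _)
      by_cases h2 : ∃ x : K, φ x ≠ x
      · by_cases h3 : ∃ x : K, φ x ≠ (starRingEnd ℂ) (x : ℂ)
        · exact hτ Q hQ φ h2 h3 i k x hx
        · push Not at h3
          rw [h3, RCLike.norm_conj, hx]
          exact hb Q hQ i k
      · push Not at h2
        rw [h2, hx]
        exact hb Q hQ i k
    · show (((N : K) * x : K) : ℂ) = (N : ℂ) * (B⁻¹ * Q * B) i k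
      rw [← hx]
      push_cast
      rfl
  · intro Q _ R _ hQR
    have h1 : B⁻¹ * Q * B = B⁻¹ * R * B := by
      ext i j
      have := congrFun (congrFun hQR i) j
      exact mul_left_cancel₀ hNC this
    calc Q = B * (B⁻¹ * Q * B) * B⁻¹ := by
          calc Q = B * B⁻¹ * Q * (B * B⁻¹) := by rw [hB1, Matrix.one_mul, Matrix.mul_one]
            _ = _ := by simp only [Matrix.mul_assoc]
      _ = B * (B⁻¹ * R * B) * B⁻¹ := by rw [h1]
      _ = R := by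
          calc B * (B⁻¹ * R * B) * B⁻¹ = B * B⁻¹ * R * (B * B⁻¹) := by
                simp only [Matrix.mul_assoc]
            _ = R := by rw [hB1, Matrix.one_mul, Matrix.mul_one]

/-- Entries of `B⁻¹ X B` are bounded if those of `X` are. -/
theorem conj_bdd (B : Mat (m + 1)) (C : ℝ) : ∃ C' : ℝ, ∀ X : Mat (m + 1),
    (∀ i k, ‖X i k‖ ≤ C) → ∀ i k, ‖(B⁻¹ * X * B) i k‖ ≤ C' := by
  refine ⟨∑ i, ∑ k, |∑ l, (∑ p, ‖B⁻¹ i p‖ * C) * ‖B l k‖|, fun X hX i k => ?_⟩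
  have h1 : ‖(B⁻¹ * X * B) i k‖ ≤ ∑ l, (∑ p, ‖B⁻¹ i p‖ * C) * ‖B l k‖ := by
    rw [Matrix.mul_apply]
    refine (norm_sum_le _ _).trans (Finset.sum_le_sum fun l _ => ?_)
    rw [norm_mul]
    refine mul_le_mul_of_nonneg_right ?_ (norm_nonneg _)
    rw [Matrix.mul_apply]
    refine (norm_sum_le _ _).trans (Finset.sum_le_sum fun p _ => ?_)
    rw [norm_mul]
    exact mul_le_mul_of_nonneg_left (hX _ _) (norm_nonneg _)
  refine h1.trans ((le_abs_self _).trans ?_)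
  refine le_trans ?_ (Finset.single_le_sum
    (f := fun i => ∑ k, |∑ l, (∑ p, ‖B⁻¹ i p‖ * C) * ‖B l k‖|)
    (fun i _ => Finset.sum_nonneg fun k _ => abs_nonneg _) (Finset.mem_univ i))
  exact Finset.single_le_sum (f := fun k => |∑ l, (∑ p, ‖B⁻¹ i p‖ * C) * ‖B l k‖|)
    (fun k _ => abs_nonneg _) (Finset.mem_univ k)

/-- The coordinates of a vector orthogonal to a negative vector are bounded by its length. -/
theorem perp_bdd {u : Vec m} (hu : u ∈ Cone m) : ∃ C : ℝ, 0 ≤ C ∧ ∀ x : Vec m, herm u x = 0 →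
    ∀ i, ‖x i‖ ≤ C * Real.sqrt (q x) := by
  obtain ⟨c, hc, h1⟩ := sec_spec hu
  obtain ⟨g, hg⟩ : ∃ g, g = sec m u := ⟨_, rfl⟩
  rw [← hg] at h1
  refine ⟨∑ i, ∑ k, ‖g.toMatrix i k‖, Finset.sum_nonneg fun i _ => Finset.sum_nonneg
    fun k _ => norm_nonneg _, fun x hx i => ?_⟩
  obtain ⟨y, hy⟩ : ∃ y, y = act g⁻¹ x := ⟨_, rfl⟩
  have hxy : x = act g y := by rw [hy, ← act_mul, mul_inv_cancel, act_one]
  have h2 : herm (base m) y = 0 := by
    have h3 : herm (c • act g (base m)) (act g y) = 0 := by rw [← h1, ← hxy, hx]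
    rw [herm_smul_left, herm_act] at h3
    exact (mul_eq_zero.1 h3).resolve_left (star_ne_zero.2 hc)
  have h3 : y (Fin.last m) = 0 := by
    rw [herm_eq] at h2
    simpa [base] using h2
  have h4 : q x = ∑ i : Fin m, ‖y i.castSucc‖ ^ 2 := by
    rw [hxy, q_act, q_eq, h3, norm_zero]
    ring
  have h5 : ∀ k, ‖y k‖ ≤ Real.sqrt (q x) := by
    intro k
    refine Fin.lastCases ?_ (fun k => ?_) k
    · rw [h3, norm_zero]
      exact Real.sqrt_nonneg _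
    · apply Real.le_sqrt_of_sq_le
      rw [h4]
      exact Finset.single_le_sum (f := fun i : Fin m => ‖y i.castSucc‖ ^ 2)
        (fun i _ => sq_nonneg _) (Finset.mem_univ k)
  have h6 : x i = ∑ k, g.toMatrix i k * y k := by
    conv_lhs => rw [hxy]
    rfl
  rw [h6, Finset.sum_mul]
  refine (norm_sum_le _ _).trans ?_
  refine le_trans ?_ (Finset.single_le_sum
    (f := fun i => (∑ k, ‖g.toMatrix i k‖) * Real.sqrt (q x))
    (fun i _ => mul_nonneg (Finset.sum_nonneg fun k _ => norm_nonneg _) (Real.sqrt_nonneg _))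
    (Finset.mem_univ i))
  rw [Finset.sum_mul]
  refine Finset.sum_le_sum fun k _ => ?_
  rw [norm_mul]
  exact mul_le_mul_of_nonneg_left (h5 k) (norm_nonneg _)

end Pool.Agent.Lib.MP_5d4057_al.PU
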