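import Pool.Agent.Lib.MP_5d4057_al.PU.Emb
import Pool.Agent.Lib.MP_5d4057_al.PU.FinC

/-!
# PU: the stabiliser of a good plane is cocompact
-/

set_option autoImplicit false

namespace Pool.Agent.Lib.MP_5d4057_al.PU

open Matrix Filter Topology Pool.Agent.Lib.MP_5d4057_al Pool.Agent.Lib.MP_5d4057_al.Hyb
  Pool.Agent.Lib.MP_5d4057_al.HM Pool.Agent.Lib.MP_5d4057_al.HM.Kak Pool.Agent.Lib.MP_5d4057_al.NU

open scoped ComplexOrder MatrixOrder Matrix.Norms.L2Operator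

variable {j m : ℕ}

/-- `γ ↦ (1 - P) γ` has finitely many values on the stabiliser (bounded denominators, definite at all places). -/
theorem finite_perp {K : Subfield ℂ} {H : Matrix (Fin (m + 1)) (Fin (m + 1)) K} {B : Mat (m + 1)}
    (hf : IsForm m K H B) {u w : Vec m} (h : Pl K B u w) :
    {X : Mat (m + 1) | ∃ γ ∈ integralPoints m K B, γ.toMatrix * pr u w = pr u w * γ.toMatrix ∧
      X = (1 - pr u w) * γ.toMatrix}.Finite := by
  have hBu : IsUnit B.det := isUnit_iff_ne_zero.2 hf.det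
  have hB1 : B * B⁻¹ = 1 := Matrix.mul_nonsing_inv B hBu
  have hB2 : B⁻¹ * B = 1 := Matrix.nonsing_inv_mul B hBu
  obtain ⟨P, hP⟩ : ∃ P, P = pr u w := ⟨_, rfl⟩
  rw [← hP]
  have hPK : EntriesIn K B P := by rw [hP]; exact h.rat hf
  have hPP : P * P = P := by rw [hP]; exact pr_mul_self h.hu h.hw h.orth
  have hQK : ∀ i k, (B⁻¹ * (1 - P) * B) i k ∈ K := by
    intro i k
    have h1 : B⁻¹ * (1 - P) * B = 1 - B⁻¹ * P * B := by
      rw [Matrix.mul_sub, Matrix.sub_mul, Matrix.mul_one, hB2]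
    rw [h1, Matrix.sub_apply]
    refine K.sub_mem ?_ (hPK i k)
    rw [Matrix.one_apply]
    split_ifs
    · exact K.one_mem
    · exact K.zero_mem
  obtain ⟨N, hN, hden⟩ := exists_denom hf.cm.1
    (fun x : Fin (m + 1) × Fin (m + 1) => (⟨(B⁻¹ * (1 - P) * B) x.1 x.2, hQK x.1 x.2⟩ : K))
  obtain ⟨C₁, hC₁⟩ := bdd_place hf
  have hK : NumberField K := hf.cm.1
  -- bound of the entries at the first place
  obtain ⟨C₂, hC₂0, hC₂⟩ := perp_bdd (u := u) h.neg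
  obtain ⟨C₃, hC₃⟩ : ∃ C₃ : ℝ, C₃ = ∑ k, C₂ * Real.sqrt (q ((1 - P) *ᵥ Pi.single k 1)) :=
    ⟨_, rfl⟩
  obtain ⟨C₄, hC₄⟩ := conj_bdd B C₃
  obtain ⟨C₅, hC₅⟩ : ∃ C₅ : ℝ, C₅ = ∑ τ : K →+* ℂ, ∑ i, ∑ l,
    ‖τ ⟨(B⁻¹ * (1 - P) * B) i l, hQK i l⟩‖ * |C₁| := ⟨_, rfl⟩
  refine finite_mat hf hN (C := max C₄ C₅) ?_ ?_ ?_
  · rintro X ⟨γ, hγ, -, rfl⟩ i k
    have h1 : (N : ℂ) * (B⁻¹ * ((1 - P) * γ.toMatrix) * B) i k =
        ∑ l, ((N : ℂ) * (B⁻¹ * (1 - P) * B) i l) * (B⁻¹ * γ.toMatrix * B) l k := by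
      rw [inv_mul_conj_mul, Matrix.mul_apply, Finset.mul_sum]
      refine Finset.sum_congr rfl fun l _ => ?_
      ring
    rw [h1]
    exact Subring.sum_mem _ fun l _ => Subring.mul_mem _ (hden (i, l)) (hγ.1 l k)
  · rintro X ⟨γ, hγ, hc, rfl⟩ i k
    refine (hC₄ _ (fun i k => ?_) i k).trans (le_max_left _ _)
    have hc' : (1 - P) * γ.toMatrix = γ.toMatrix * (1 - P) := by
      rw [Matrix.sub_mul, Matrix.mul_sub, Matrix.one_mul, Matrix.mul_one, hc]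
    have e1 : ((1 - P) * γ.toMatrix) i k =
        (act γ ((1 - P) *ᵥ Pi.single k 1)) i := by
      rw [act, mulVec_mulVec, ← hc']
      simp [Matrix.mulVec_single]
    have e2 : herm u (act γ ((1 - P) *ᵥ Pi.single k 1)) = 0 := by
      have e3 : act γ ((1 - P) *ᵥ Pi.single k 1) =
          (1 - P) *ᵥ (γ.toMatrix *ᵥ Pi.single k 1) := by
        rw [act, mulVec_mulVec, mulVec_mulVec, hc']
      have e4 : (P *ᵥ u : Vec m) = u := by rw [hP]; exact pr_left h.hu h.orth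
      rw [e3, sub_mulVec, one_mulVec]
      generalize (γ.toMatrix *ᵥ Pi.single k 1 : Vec m) = y
      have e5 : herm u (P *ᵥ y) = herm u y := by
        rw [hP, ← herm_pr, ← hP, e4]
      rw [sub_eq_add_neg, herm_add_right, ← neg_one_smul ℂ, herm_smul_right, e5]
      ring
    rw [e1]
    refine (hC₂ _ e2 i).trans ?_
    rw [q_act, hC₃]
    exact Finset.single_le_sum
      (f := fun k => C₂ * Real.sqrt (q ((1 - P) *ᵥ Pi.single k 1)))
      (fun k _ => mul_nonneg hC₂0 (Real.sqrt_nonneg _)) (Finset.mem_univ k)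
  · rintro X ⟨γ, hγ, -, rfl⟩ τ h1 h2 i k x hx
    refine le_trans ?_ (le_max_right _ _)
    have hγK : ∀ l, (B⁻¹ * γ.toMatrix * B) l k ∈ K := fun l => (hγ.1 l k).1
    have e1 : x = ∑ l, (⟨(B⁻¹ * (1 - P) * B) i l, hQK i l⟩ : K) *
        ⟨(B⁻¹ * γ.toMatrix * B) l k, hγK l⟩ := by
      apply Subtype.val_injective
      show (x : ℂ) = ((∑ l, (⟨(B⁻¹ * (1 - P) * B) i l, hQK i l⟩ : K) *
        ⟨(B⁻¹ * γ.toMatrix * B) l k, hγK l⟩ : K) : ℂ)
      rw [hx, inv_mul_conj_mul, Matrix.mul_apply]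
      push_cast
      rfl
    rw [e1, map_sum]
    refine (norm_sum_le _ _).trans ?_
    rw [hC₅]
    refine le_trans ?_ (Finset.single_le_sum (f := fun τ : K →+* ℂ => ∑ i, ∑ l,
      ‖τ ⟨(B⁻¹ * (1 - P) * B) i l, hQK i l⟩‖ * |C₁|) (fun τ _ => Finset.sum_nonneg fun i _ =>
        Finset.sum_nonneg fun l _ => by positivity) (Finset.mem_univ τ))
    refine le_trans ?_ (Finset.single_le_sum (f := fun i => ∑ l,
      ‖τ ⟨(B⁻¹ * (1 - P) * B) i l, hQK i l⟩‖ * |C₁|) (fun i _ =>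
        Finset.sum_nonneg fun l _ => by positivity) (Finset.mem_univ i))
    refine Finset.sum_le_sum fun l _ => ?_
    rw [map_mul, norm_mul]
    refine mul_le_mul_of_nonneg_left ?_ (norm_nonneg _)
    exact (hC₁ γ hγ τ h1 h2 l k _ rfl).trans (le_abs_self _)

/-- The left inverse of `inc2`. -/
noncomputable def prj2 (j : ℕ) : Vec (j + 1) →L[ℂ] Vec 1 :=
  LinearMap.toContinuousLinearMap
    { toFun := fun v => ![v (Fin.castSucc (Fin.last j)), v (Fin.last (j + 1))]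
      map_add' := fun v w => by
        ext i
        fin_cases i <;> rfl
      map_smul' := fun c v => by
        ext i
        fin_cases i <;> rfl }

theorem inc2_apply (v : Vec 1) : inc2 j v (Fin.castSucc (Fin.last j)) = v 0 ∧
    inc2 j v (Fin.last (j + 1)) = v 1 := by
  induction j with
  | zero => exact ⟨rfl, rfl⟩
  | succ j ih =>
    have h1 : inc2 (j + 1) v = inc (j + 1) (inc2 j v) := rfl
    rw [h1]
    constructor
    · have : (Fin.castSucc (Fin.last (j + 1)) : Fin (j + 3)) = (Fin.castSucc (Fin.last j)).succ := by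
        ext
        simp
      rw [this, inc_succ]
      exact ih.1
    · have : (Fin.last (j + 1 + 1) : Fin (j + 3)) = (Fin.last (j + 1)).succ := by
        ext
        simp
      rw [this, inc_succ]
      exact ih.2

theorem prj2_inc2 (v : Vec 1) : prj2 j (inc2 j v) = v := by
  have h := inc2_apply (j := j) v
  show ![inc2 j v (Fin.castSucc (Fin.last j)), inc2 j v (Fin.last (j + 1))] = v
  rw [h.1, h.2]
  ext i
  fin_cases i <;> rfl

/-- Subgroups of finite index of the stabiliser: the elements trivial on the complement act cocompactly. -/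
theorem coc_triv {K : Subfield ℂ} {H : Matrix (Fin (m + 1)) (Fin (m + 1)) K}
    {B : Mat (m + 1)} (hf : IsForm m K H B) {Γ : Subgroup (SUGroup m)}
    (hΓ : Γ ≤ integralPoints m K B) {u w : Vec m} (h : Pl K B u w) {F : Set (SUGroup m)}
    (hF : IsCompact F)
    (hc : ∀ v ∈ Cone m, pr u w *ᵥ v = v → ∃ γ ∈ Γ, ∃ g ∈ F, ∃ c : ℂ, c ≠ 0 ∧
      act γ v = c • act g (base m)) :
    ∃ D : Set (Vec m), IsCompact D ∧ D ⊆ Cone m ∧ (∀ x ∈ D, pr u w *ᵥ x = x) ∧
      ∀ v ∈ Cone m, pr u w *ᵥ v = v → ∃ γ ∈ Γ, γ.toMatrix * pr u w = pr u w * γ.toMatrix ∧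
        (1 - pr u w) * γ.toMatrix = 1 - pr u w ∧ ∃ c : ℂ, c ≠ 0 ∧ c • act γ v ∈ D := by
  obtain ⟨P, hP⟩ : ∃ P, P = pr u w := ⟨_, rfl⟩
  have hPP : P * P = P := by rw [hP]; exact pr_mul_self h.hu h.hw h.orth
  obtain ⟨D, hD, hDC, hDP, hcov⟩ := coc_plane hf hΓ (pr_mul_self h.hu h.hw h.orth)
    (pr_self (u := u) (w := w)) (h.rat hf) hF hc
  rw [← hP]
  have hfin := finite_perp hf h
  rw [← hP] at hfin
  obtain ⟨S, hS⟩ : ∃ S : Set (Mat (m + 1)), S = {X | ∃ γ ∈ Γ,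
    γ.toMatrix * P = P * γ.toMatrix ∧ X = (1 - P) * γ.toMatrix} := ⟨_, rfl⟩
  have hSf : S.Finite := by
    rw [hS]
    refine hfin.subset ?_
    rintro X ⟨γ, hγ, h1, h2⟩
    exact ⟨γ, hΓ hγ, h1, h2⟩
  have hch : ∀ X : Mat (m + 1), ∃ γ : SUGroup m, X ∈ S → γ ∈ Γ ∧
      γ.toMatrix * P = P * γ.toMatrix ∧ X = (1 - P) * γ.toMatrix := by
    intro X
    by_cases hX : X ∈ S
    · rw [hS] at hX
      obtain ⟨γ, hγ⟩ := hX
      exact ⟨γ, fun _ => hγ⟩
    · exact ⟨1, fun h => absurd h hX⟩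
  choose δ hδ using hch
  have hcomm : ∀ γ : SUGroup m, γ.toMatrix * P = P * γ.toMatrix →
      (γ⁻¹).toMatrix * P = P * (γ⁻¹).toMatrix := by
    intro γ hγ
    have e1 := toMatrix_mul_inv γ
    have e2 := toMatrix_inv_mul γ
    calc (γ⁻¹).toMatrix * P = (γ⁻¹).toMatrix * (P * γ.toMatrix) * (γ⁻¹).toMatrix := by
          rw [Matrix.mul_assoc, Matrix.mul_assoc, e1, Matrix.mul_one]
      _ = (γ⁻¹).toMatrix * γ.toMatrix * P * (γ⁻¹).toMatrix := by
          rw [← hγ]; simp only [Matrix.mul_assoc]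
      _ = _ := by rw [e2, Matrix.one_mul]
  refine ⟨⋃ X ∈ S, (fun x => act (δ X)⁻¹ x) '' D, ?_, ?_, ?_, ?_⟩
  · refine hSf.isCompact_biUnion fun X _ => hD.image ?_
    exact (actC (δ X)⁻¹).continuous
  · intro x hx
    simp only [Set.mem_iUnion] at hx
    obtain ⟨X, _, y, hy, rfl⟩ := hx
    exact act_mem _ (hDC hy)
  · intro x hx
    simp only [Set.mem_iUnion] at hx
    obtain ⟨X, hX, y, hy, rfl⟩ := hx
    have h1 := hcomm _ (hδ X hX).2.1
    have h2 := hDP y hy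
    rw [← hP] at h2
    show P *ᵥ ((δ X)⁻¹.toMatrix *ᵥ y) = (δ X)⁻¹.toMatrix *ᵥ y
    rw [mulVec_mulVec, ← h1, ← mulVec_mulVec, h2]
  · intro v hv hPv
    rw [← hP] at hcov
    obtain ⟨γ, hγ, h1, c, hc0, h2⟩ := hcov v hv hPv
    obtain ⟨X, hX⟩ : ∃ X, X = (1 - P) * γ.toMatrix := ⟨_, rfl⟩
    have hXS : X ∈ S := by
      rw [hS]
      exact ⟨γ, hγ, h1, hX⟩
    obtain ⟨h3, h4, h5⟩ := hδ X hXS
    refine ⟨(δ X)⁻¹ * γ, Γ.mul_mem (Γ.inv_mem h3) hγ, ?_, ?_, c, hc0, ?_⟩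
    · rw [toMatrix_mul, Matrix.mul_assoc, h1, ← Matrix.mul_assoc, hcomm _ h4, Matrix.mul_assoc]
    · have e2 := toMatrix_inv_mul (δ X)
      have e1 := toMatrix_mul_inv (δ X)
      have h6 : (1 - P) * (δ X)⁻¹.toMatrix = (δ X)⁻¹.toMatrix * (1 - P) := by
        rw [Matrix.sub_mul, Matrix.mul_sub, Matrix.one_mul, Matrix.mul_one, hcomm _ h4]
      have h7 : (1 - P) * (δ X).toMatrix = (δ X).toMatrix * (1 - P) := by
        rw [Matrix.sub_mul, Matrix.mul_sub, Matrix.one_mul, Matrix.mul_one, h4]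
      calc (1 - P) * ((δ X)⁻¹ * γ).toMatrix = (1 - P) * (δ X)⁻¹.toMatrix * γ.toMatrix := by
            rw [toMatrix_mul, Matrix.mul_assoc]
        _ = (δ X)⁻¹.toMatrix * ((1 - P) * γ.toMatrix) := by rw [h6, Matrix.mul_assoc]
        _ = (δ X)⁻¹.toMatrix * ((1 - P) * (δ X).toMatrix) := by rw [← hX, ← h5]
        _ = (δ X)⁻¹.toMatrix * (δ X).toMatrix * (1 - P) := by rw [h7, Matrix.mul_assoc]
        _ = 1 - P := by rw [e2, Matrix.one_mul]
    · simp only [Set.mem_iUnion]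
      refine ⟨X, hXS, c • act γ v, h2, ?_⟩
      show act (δ X)⁻¹ (c • act γ v) = c • act ((δ X)⁻¹ * γ) v
      rw [act_smul, act_mul]

section frame

variable {u w : Vec (j + 1)} {g : SUGroup (j + 1)} {a b : ℂ}

/-- The points of the plane. -/
theorem frm_apply (h1 : act g (inc2 j (Pi.single 1 1)) = a • u)
    (h2 : act g (inc2 j (Pi.single 0 1)) = b • w) (v : Vec 1) :
    act g (inc2 j v) = (v 1 * a) • u + (v 0 * b) • w := by
  have e1 : v = v 1 • (Pi.single 1 1 : Vec 1) + v 0 • (Pi.single 0 1 : Vec 1) := by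
    ext i
    fin_cases i <;> simp
  conv_lhs => rw [e1]
  rw [map_add, map_smul, map_smul, act_add, act_smul, act_smul, h1, h2, smul_smul, smul_smul]

theorem frm_surj (ha : a ≠ 0) (hb : b ≠ 0) (h1 : act g (inc2 j (Pi.single 1 1)) = a • u)
    (h2 : act g (inc2 j (Pi.single 0 1)) = b • w) (c d : ℂ) :
    ∃ v : Vec 1, c • u + d • w = act g (inc2 j v) := by
  refine ⟨![d * b⁻¹, c * a⁻¹], ?_⟩
  rw [frm_apply h1 h2]
  simp [ha, hb]

end frame

/-- The elements of the stabiliser of a good plane which are trivial on the complement act cocompactly. -/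
theorem cov_emb2 {K : Subfield ℂ} {H : Matrix (Fin (j + 2)) (Fin (j + 2)) K} {B : Mat (j + 2)}
    (hj : 1 ≤ j) (hf : IsForm (j + 1) K H B) {Γ : Subgroup (SUGroup (j + 1))}
    (hΓ : Γ ≤ integralPoints (j + 1) K B) {χ : SUGroup (j + 1) → ℝ} (hL : Lat Γ χ) (hT : TF Γ)
    (hTor : Tor Γ) {u w : Vec (j + 1)} (h : Pl K B u w) {g : SUGroup (j + 1)} {a b : ℂ}
    (ha : a ≠ 0) (hb : b ≠ 0) (h1 : act g (inc2 j (Pi.single 1 1)) = a • u)
    (h2 : act g (inc2 j (Pi.single 0 1)) = b • w) :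
    ∃ D : Set (Vec (j + 1)), IsCompact D ∧ D ⊆ Cone (j + 1) ∧
      (∀ x ∈ D, ∃ c d : ℂ, x = c • u + d • w) ∧
      ∀ x ∈ Cone (j + 1), (∃ c d : ℂ, x = c • u + d • w) →
        ∃ y : SUGroup 1, emb2 g y ∈ Γ ∧ ∃ c : ℂ, c ≠ 0 ∧ c • act (emb2 g y) x ∈ D := by
  have hd := hL.disc
  have hpr : ∀ v : Vec 1, pr u w *ᵥ act g (inc2 j v) = act g (inc2 j v) := by
    intro v
    rw [pr_eq_iff h.hu h.hw h.orth]
    exact ⟨_, _, frm_apply h1 h2 v⟩
  have hpr' : ∀ x : Vec (j + 1), pr u w *ᵥ x = x → ∃ v : Vec 1, x = act g (inc2 j v) := by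
    intro x hx
    obtain ⟨c, d, hcd⟩ := (pr_eq_iff h.hu h.hw h.orth).1 hx
    rw [hcd]
    exact frm_surj ha hb h1 h2 c d
  -- the height
  obtain ⟨c₀, hc₀⟩ := hty_le hf hΓ hd h
  obtain ⟨R, hR⟩ := hty_cpt (by omega) hL hT hTor c₀
  obtain ⟨D, hD, hDC, hDP, hcov⟩ := coc_triv hf hΓ h (isCompact_ball R) (by
    intro v hv hPv
    obtain ⟨c, hc, e⟩ := sec_spec hv
    obtain ⟨x, hx⟩ : ∃ x, x = sec (j + 1) v := ⟨_, rfl⟩
    rw [← hx] at e
    have e1 : pr u w *ᵥ act x (base (j + 1)) = act x (base (j + 1)) := by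
      rw [e, mulVec_smul] at hPv
      exact smul_right_injective _ hc hPv
    obtain ⟨γ, hγ, hch⟩ := hR x (hc₀ x e1)
    refine ⟨γ, hγ, γ * x, hch, c, hc, ?_⟩
    rw [e, act_smul, act_mul])
  refine ⟨D, hD, hDC, fun x hx => (pr_eq_iff h.hu h.hw h.orth).1 (hDP x hx), fun x hx hxp => ?_⟩
  obtain ⟨γ, hγ, e1, e2, c, hc, e3⟩ := hcov x hx ((pr_eq_iff h.hu h.hw h.orth).2 hxp)
  obtain ⟨y, hy⟩ : ∃ y : SUGroup 1, emb2 g y = γ := by
    refine exists_emb2 (fun v => ?_) fun v hv => ?_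
    · refine hpr' _ ?_
      have e4 := hpr v
      show pr u w *ᵥ (γ.toMatrix *ᵥ act g (inc2 j v)) = γ.toMatrix *ᵥ act g (inc2 j v)
      rw [mulVec_mulVec, ← e1, ← mulVec_mulVec, e4]
    · have e4 : pr u w *ᵥ v = 0 := by
        have e5 := hv (Pi.single 1 1)
        have e6 := hv (Pi.single 0 1)
        rw [h1, herm_smul_left] at e5
        rw [h2, herm_smul_left] at e6
        rw [pr_mulVec, (mul_eq_zero.1 e5).resolve_left (star_ne_zero.2 ha),
          (mul_eq_zero.1 e6).resolve_left (star_ne_zero.2 hb), mul_zero, mul_zero, zero_smul,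
          zero_smul, add_zero]
      have e5 : pr u w *ᵥ (γ.toMatrix *ᵥ v) = 0 := by
        rw [mulVec_mulVec, ← e1, ← mulVec_mulVec, e4, mulVec_zero]
      have e6 : (1 - pr u w) *ᵥ (γ.toMatrix *ᵥ v) = (1 - pr u w) *ᵥ v := by
        rw [mulVec_mulVec, e2]
      rw [sub_mulVec, sub_mulVec, one_mulVec, one_mulVec, e5, e4, sub_zero, sub_zero] at e6
      exact e6
  exact ⟨y, by rw [hy]; exact hγ, c, hc, by rw [hy]; exact e3⟩

/-- The stabiliser of a good plane is cocompact, as a subgroup of `SUGroup 1`. -/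
theorem coc_emb2 {K : Subfield ℂ} {H : Matrix (Fin (j + 2)) (Fin (j + 2)) K} {B : Mat (j + 2)}
    (hj : 1 ≤ j) (hf : IsForm (j + 1) K H B) {Γ : Subgroup (SUGroup (j + 1))}
    (hΓ : Γ ≤ integralPoints (j + 1) K B) {χ : SUGroup (j + 1) → ℝ} (hL : Lat Γ χ) (hT : TF Γ)
    (hTor : Tor Γ) {u w : Vec (j + 1)} (h : Pl K B u w) {g : SUGroup (j + 1)} {a b : ℂ}
    (ha : a ≠ 0) (hb : b ≠ 0) (h1 : act g (inc2 j (Pi.single 1 1)) = a • u)
    (h2 : act g (inc2 j (Pi.single 0 1)) = b • w) : Coc (Γ.comap (emb2 g)) := by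
  have hd := hL.disc
  obtain ⟨D, hD, hDC, hDP, hcov⟩ := cov_emb2 hj hf hΓ hL hT hTor h ha hb h1 h2
  -- the bound
  have hD'' : IsCompact ((fun x => prj2 j (act g⁻¹ x)) '' D) :=
    hD.image ((prj2 j).continuous.comp (actC g⁻¹).continuous)
  have hsub : ((fun x => prj2 j (act g⁻¹ x)) '' D) ⊆ Cone 1 := by
    rintro _ ⟨x, hx, rfl⟩
    obtain ⟨c, d, hcd⟩ := hDP x hx
    obtain ⟨v, hv⟩ := frm_surj ha hb h1 h2 c d
    rw [← hcd] at hv
    subst hv
    show prj2 j (act g⁻¹ (act g (inc2 j v))) ∈ Cone 1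
    rw [← act_mul, inv_mul_cancel, act_one, prj2_inc2]
    have h3 : q (act g (inc2 j v)) < 0 := hDC hx
    rw [q_act, q_inc2] at h3
    exact h3
  obtain ⟨M, hM⟩ := (hD''.image_of_continuousOn (Ax.continuousOn_W.mono hsub)).bddAbove
  refine ⟨?_, {x : SUGroup 1 | ch x ≤ max M 1}, isCompact_ball _, fun x => ?_⟩
  · have h3 : Continuous (fun y : Γ.comap (emb2 g) => (⟨emb2 g y, y.2⟩ : Γ)) :=
      Continuous.subtype_mk ((continuous_emb2 g).comp continuous_subtype_val) _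
    refine DiscreteTopology.of_continuous_injective h3 fun y y' hyy => ?_
    exact Subtype.ext (emb2_injective g (congrArg Subtype.val hyy))
  · have h3 : act g (inc2 j (act x (base 1))) ∈ Cone (j + 1) := by
      show q _ < 0
      rw [q_act, q_inc2]
      exact orbit_mem x
    obtain ⟨y, hy, c, hc, e3⟩ := hcov _ h3 ⟨_, _, frm_apply h1 h2 _⟩
    refine ⟨y, hy, ?_⟩
    rw [act_emb2, ← act_mul] at e3
    have e4 : c • act (y * x) (base 1) ∈ (fun x => prj2 j (act g⁻¹ x)) '' D := by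
      refine ⟨_, e3, ?_⟩
      show prj2 j (act g⁻¹ (c • act g (inc2 j (act (y * x) (base 1))))) = _
      rw [act_smul, map_smul, ← act_mul, inv_mul_cancel, act_one, prj2_inc2]
    have e5 : W (c • act (y * x) (base 1)) ≤ M := hM ⟨_, e4, rfl⟩
    rw [Ax.W_smul hc, W_orbit] at e5
    show ch (y * x) ≤ max M 1
    have e6 := one_le_ch (y * x)
    have e7 : ch (y * x) ≤ ch (y * x) ^ 2 := by nlinarith
    exact (e7.trans e5).trans (le_max_left _ _)

end Pool.Agent.Lib.MP_5d4057_al.PU
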