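import Pool.Agent.Lib.MP_5d4057_al.CI.Defs
import Mathlib.Analysis.Complex.HasPrimitives
import Mathlib.Analysis.Complex.AbsMax

/-!
# PU (d): pluriharmonic functions which are constant on many discs through one point
-/

set_option autoImplicit false

namespace Pool.Agent.Lib.MP_5d4057_al.PU

open Matrix Filter Topology Metric Pool.Agent.Lib.MP_5d4057_al Pool.Agent.Lib.MP_5d4057_al.Hyb
  Pool.Agent.Lib.MP_5d4057_al.HM Pool.Agent.Lib.MP_5d4057_al.RC Pool.Agent.Lib.MP_5d4057_al.CI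

variable {m : ℕ}

private theorem cn_decomp (z : ℂ) (w : Vec m) :
    z • w = (z.re : ℝ) • w + (z.im : ℝ) • (Complex.I • w) := by
  conv_lhs => rw [← Complex.re_add_im z]
  rw [add_smul, mul_smul]
  rfl

private theorem cn_pz_smul {f : Vec m → ℂ} {v w : Vec m} (z : ℂ) :
    pz f v (z • w) = z * pz f v w := by
  rw [pz, pz, smul_smul, mul_comm Complex.I z, ← smul_smul, cn_decomp z w,
    cn_decomp z (Complex.I • w), smul_smul Complex.I Complex.I, Complex.I_mul_I, neg_one_smul]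
  simp only [map_add, map_smul, map_neg, smul_neg]
  conv_rhs => rw [← Complex.re_add_im z]
  simp only [smul_eq_mul, Complex.real_smul]
  linear_combination ((1 / 2 : ℂ) * (z.im : ℂ) * fderiv ℝ f v (Complex.I • w)) * Complex.I_mul_I

/-- The line `z ↦ v + z w`. -/
private theorem cn_line (v w : Vec m) (z : ℂ) :
    HasFDerivAt (𝕜 := ℝ) (fun z : ℂ => v + z • w)
      (((ContinuousLinearMap.id ℂ ℂ).smulRight w).restrictScalars ℝ) z := by
  have h1 : HasFDerivAt (𝕜 := ℂ) (fun z : ℂ => v + z • w)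
      ((ContinuousLinearMap.id ℂ ℂ).smulRight w) z :=
    ((hasFDerivAt_id z).smul_const w).const_add v
  exact h1.restrictScalars ℝ

/-- On a disc a pluriharmonic function is the real part of a holomorphic function. -/
theorem exists_holo {u : Vec m → ℝ} (hu : PH u) {v w : Vec m} {r : ℝ}
    (hr : ∀ z : ℂ, ‖z‖ < r → v + z • w ∈ Cone m) :
    ∃ F : ℂ → ℂ, DifferentiableOn ℂ F (ball 0 r) ∧
      ∀ z ∈ ball (0 : ℂ) r, (F z).re = u (v + z • w) := by
  by_cases hr0 : r ≤ 0
  · refine ⟨fun _ => 0, ?_, ?_⟩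
    · exact differentiableOn_const _
    · intro z hz
      rw [ball_eq_empty.2 hr0] at hz
      exact absurd hz (Set.notMem_empty z)
  push Not at hr0
  obtain ⟨g, hg⟩ : ∃ g : ℂ → ℂ, g = fun z => 2 * pz (cx u) (v + z • w) w := ⟨_, rfl⟩
  have hcu : ∀ z : ℂ, ‖z‖ < r → ContDiffAt ℝ 2 u (v + z • w) := fun z hz =>
    hu.cd.contDiffAt (mem_nhds_cone (hr z hz))
  have hgd : DifferentiableOn ℂ g (ball 0 r) := by
    intro z hz
    have hz' : ‖z‖ < r := by simpa using hz
    have h1 : DifferentiableAt ℝ (fun v' => pz (cx u) v' w) (v + z • w) :=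
      (hasFDerivAt_pz (cd_cx (hcu z hz')) w).differentiableAt
    obtain ⟨L, hL⟩ : ∃ L, L = fderiv ℝ (fun v' => pz (cx u) v' w) (v + z • w) := ⟨_, rfl⟩
    have h2 : L (Complex.I • w) = Complex.I * L w := by
      have h3 := hu.ph _ (hr z hz') w w
      rw [pb, ← hL] at h3
      have h4 : L w + Complex.I • L (Complex.I • w) = 0 := by
        rcases smul_eq_zero.1 h3 with h5 | h5
        · norm_num at h5
        · exact h5
      rw [smul_eq_mul] at h4
      linear_combination (-Complex.I) * h4 + L (Complex.I • w) * Complex.I_mul_I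
    have h3 : HasFDerivAt (𝕜 := ℝ) g
        ((2 : ℂ) • (L.comp (((ContinuousLinearMap.id ℂ ℂ).smulRight w).restrictScalars ℝ))) z := by
      rw [hg]
      have h4 : HasFDerivAt (𝕜 := ℝ) (fun z : ℂ => pz (cx u) (v + z • w) w)
          (L.comp (((ContinuousLinearMap.id ℂ ℂ).smulRight w).restrictScalars ℝ)) z := by
        rw [hL]
        exact HasFDerivAt.comp (g := fun v' => pz (cx u) v' w) z h1.hasFDerivAt (cn_line v w z)
      exact h4.const_mul 2
    have h4 : HasDerivAt g (2 * L w) z := by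
      rw [hasDerivAt_iff_hasFDerivAt]
      refine hasFDerivAt_of_restrictScalars ℝ h3 ?_
      have h5 : ∀ ζ : ℂ, L (ζ • w) = ζ * L w := by
        intro ζ
        rw [cn_decomp ζ w, map_add, map_smul, map_smul, h2, Complex.real_smul, Complex.real_smul]
        conv_rhs => rw [← Complex.re_add_im ζ]
        ring
      ext ζ
      simp [h5]
      ring
    exact h4.differentiableAt.differentiableWithinAt
  obtain ⟨F, hF⟩ := (hgd.isExactOn_ball).with_val_at 0 ((u v : ℝ) : ℂ)
  have hF0 : F 0 = u v := hF.1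
  have hF1 : ∀ z ∈ ball (0 : ℂ) r, HasDerivAt F (g z) z := hF.2
  refine ⟨F, fun z hz => (hF1 z hz).differentiableAt.differentiableWithinAt, ?_⟩
  have hd : ∀ z ∈ ball (0 : ℂ) r,
      HasFDerivAt (𝕜 := ℝ) (fun z => (F z).re - u (v + z • w)) (0 : ℂ →L[ℝ] ℝ) z := by
    intro z hz
    have hz' : ‖z‖ < r := by simpa using hz
    have h1 : HasFDerivAt (𝕜 := ℝ) (fun z => (F z).re)
        (Complex.reCLM.comp ((ContinuousLinearMap.toSpanSingleton ℂ (g z)).restrictScalars ℝ)) z :=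
      Complex.reCLM.hasFDerivAt.comp z ((hF1 z hz).hasFDerivAt.restrictScalars ℝ)
    have hdu : DifferentiableAt ℝ u (v + z • w) := (hcu z hz').differentiableAt (by norm_num)
    have h2 : HasFDerivAt (𝕜 := ℝ) (fun z : ℂ => u (v + z • w))
        ((fderiv ℝ u (v + z • w)).comp
          (((ContinuousLinearMap.id ℂ ℂ).smulRight w).restrictScalars ℝ)) z :=
      HasFDerivAt.comp z hdu.hasFDerivAt (cn_line v w z)
    refine (h1.sub h2).congr_fderiv ?_
    have h3 : ∀ ζ : ℂ, fderiv ℝ u (v + z • w) (ζ • w) = (ζ * g z).re := by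
      intro ζ
      have h4 := (pz_cx hdu (ζ • w)).one
      rw [fderiv_cx hdu, cn_pz_smul] at h4
      have h5 : ((fderiv ℝ u (v + z • w) (ζ • w) : ℝ) : ℂ) =
          ζ * pz (cx u) (v + z • w) w + star (ζ * pz (cx u) (v + z • w) w) := h4
      have h6 := congrArg Complex.re h5
      rw [Complex.ofReal_re, Complex.add_re, Complex.star_def, Complex.conj_re] at h6
      rw [h6, hg]
      have h7 : ζ * (2 * pz (cx u) (v + z • w) w) = (2 : ℝ) * (ζ * pz (cx u) (v + z • w) w) := by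
        push_cast
        ring
      rw [h7, Complex.re_ofReal_mul]
      ring
    ext ζ
    have h4 := h3 ζ
    simp [h4]
  have hc : ∀ z ∈ ball (0 : ℂ) r, (F z).re - u (v + z • w) = (F 0).re - u (v + (0 : ℂ) • w) := by
    intro z hz
    have h0 : (0 : ℂ) ∈ ball (0 : ℂ) r := mem_ball_self hr0
    exact (isOpen_ball).is_const_of_fderiv_eq_zero (𝕜 := ℝ)
      (convex_ball (0 : ℂ) r).isPreconnected
      (fun z hz => (hd z hz).differentiableAt.differentiableWithinAt)
      (fun z hz => (hd z hz).fderiv) hz h0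
  intro z hz
  have h1 := hc z hz
  rw [hF0, Complex.ofReal_re, zero_smul, add_zero, sub_self] at h1
  linarith

/-- The maximum principle. -/
theorem const_line {u : Vec m → ℝ} (hu : PH u) {v w : Vec m} {r : ℝ}
    (hr : ∀ z : ℂ, ‖z‖ < r → v + z • w ∈ Cone m) {z₀ : ℂ} (hz₀ : ‖z₀‖ < r)
    (hmax : ∀ z : ℂ, ‖z‖ < r → u (v + z • w) ≤ u (v + z₀ • w)) {z : ℂ} (hz : ‖z‖ < r) :
    u (v + z • w) = u v := by
  obtain ⟨F, hF, h1⟩ := exists_holo hu hr
  have hr0 : 0 < r := (norm_nonneg _).trans_lt hz₀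
  have h2 : DifferentiableOn ℂ (fun z => Complex.exp (F z)) (ball 0 r) := hF.cexp
  have h3 : IsMaxOn (norm ∘ fun z => Complex.exp (F z)) (ball 0 r) z₀ := by
    intro y hy
    show ‖Complex.exp (F y)‖ ≤ ‖Complex.exp (F z₀)‖
    rw [Complex.norm_exp, Complex.norm_exp, h1 y hy, h1 z₀ (by simpa using hz₀)]
    exact Real.exp_le_exp.2 (hmax y (by simpa using hy))
  have h4 := Complex.eqOn_of_isPreconnected_of_isMaxOn_norm
    (convex_ball (0 : ℂ) r).isPreconnected isOpen_ball h2 (by simpa using hz₀) h3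
  have h5 : ∀ y : ℂ, ‖y‖ < r → u (v + y • w) = u (v + z₀ • w) := by
    intro y hy
    have h6 := congrArg norm (h4 (by simpa using hy : y ∈ ball (0 : ℂ) r))
    simp only [Function.const_apply] at h6
    rw [Complex.norm_exp, Complex.norm_exp, h1 y (by simpa using hy),
      h1 z₀ (by simpa using hz₀)] at h6
    exact Real.exp_injective h6
  rw [h5 z hz, ← h5 0 (by simpa using hr0), zero_smul, add_zero]

/-- A pluriharmonic function is constant on the disc of the plane of `v`, `w` if its values there are its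
values on a compact subset. -/
theorem const_plane {u : Vec m → ℝ} (hu : PH u) {v w : Vec m} (hv : v ∈ Cone m)
    (hvw : herm v w = 0) {D : Set (Vec m)} (hD : IsCompact D) (hDC : D ⊆ Cone m)
    (hDP : ∀ x ∈ D, ∃ a b : ℂ, x = a • v + b • w)
    (hcov : ∀ x ∈ Cone m, (∃ a b : ℂ, x = a • v + b • w) → ∃ y ∈ D, u x = u y)
    {z : ℂ} (hz : v + z • w ∈ Cone m) : u (v + z • w) = u v := by
  by_cases hw : w = 0
  · rw [hw, smul_zero, add_zero]
  have hqw : 0 < q w := q_pos_of_orth hv hvw hw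
  have hqv : q v < 0 := hv
  have hq : ∀ z : ℂ, q (v + z • w) = q v + ‖z‖ ^ 2 * q w := by
    intro z
    rw [q_add_smul, hvw, mul_zero, Complex.zero_re]
    ring
  obtain ⟨r, hr⟩ : ∃ r : ℝ, r = Real.sqrt (-q v / q w) := ⟨_, rfl⟩
  have hr0 : 0 < r := by
    rw [hr]
    exact Real.sqrt_pos.2 (div_pos (neg_pos.2 hqv) hqw)
  have hr2 : r ^ 2 * q w = -q v := by
    rw [hr, Real.sq_sqrt (div_nonneg (neg_nonneg.2 hqv.le) hqw.le)]
    field_simp
  have hmem : ∀ z : ℂ, v + z • w ∈ Cone m ↔ ‖z‖ < r := by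
    intro z
    show q (v + z • w) < 0 ↔ _
    rw [hq]
    constructor
    · intro h
      by_contra hcon
      push Not at hcon
      have h1 : r ^ 2 ≤ ‖z‖ ^ 2 := pow_le_pow_left₀ hr0.le hcon 2
      nlinarith [mul_le_mul_of_nonneg_right h1 hqw.le]
    · intro h
      have h1 : ‖z‖ ^ 2 < r ^ 2 := pow_lt_pow_left₀ h (norm_nonneg z) two_ne_zero
      nlinarith [mul_lt_mul_of_pos_right h1 hqw]
  obtain ⟨y₁, hy₁, -⟩ := hcov v hv ⟨1, 0, by simp⟩
  obtain ⟨y₀, hy₀, hmax⟩ := hD.exists_isMaxOn ⟨y₁, hy₁⟩ (hu.cd.continuousOn.mono hDC)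
  obtain ⟨a, b, hab⟩ := hDP y₀ hy₀
  have ha : a ≠ 0 := by
    rintro rfl
    have h1 : q y₀ < 0 := hDC hy₀
    rw [hab, zero_smul, zero_add, q_smul] at h1
    nlinarith [mul_nonneg (sq_nonneg ‖b‖) hqw.le]
  have hy : y₀ = a • (v + (b / a) • w) := by
    rw [hab, smul_add, smul_smul, mul_div_cancel₀ _ ha]
  have hC0 : v + (b / a) • w ∈ Cone m := by
    have h1 : q y₀ < 0 := hDC hy₀
    rw [hy, q_smul] at h1
    have h2 : 0 < ‖a‖ ^ 2 := by positivity
    show q _ < 0
    by_contra hcon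
    push Not at hcon
    nlinarith [mul_nonneg h2.le hcon]
  have huy : u y₀ = u (v + (b / a) • w) := by
    rw [hy]
    exact hu.hom a ha _ hC0
  refine const_line hu (fun z hz => (hmem z).2 hz) ((hmem _).1 hC0) ?_ ((hmem z).1 hz)
  intro z' hz'
  have h1 := (hmem z').2 hz'
  obtain ⟨y, hy, h2⟩ := hcov _ h1 ⟨1, z', by rw [one_smul]⟩
  rw [h2, ← huy]
  exact hmax hy

/-- **Density of directions at one point**: a pluriharmonic function which is constant on the discs
of a dense set of directions at one point is constant. -/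
theorem const_of_dense {u : Vec m → ℝ} (hu : PH u) {v : Vec m} (hv : v ∈ Cone m) {S : Set (Vec m)}
    (hS : ∀ w : Vec m, herm v w = 0 → w ∈ closure {x : Vec m | ∃ c : ℂ, ∃ s ∈ S, x = c • s})
    (hc : ∀ s ∈ S, ∀ z : ℂ, v + z • s ∈ Cone m → u (v + z • s) = u v) {x : Vec m}
    (hx : x ∈ Cone m) : u x = u v := by
  have hqv : q v < 0 := hv
  have hqv' : (q v : ℂ) ≠ 0 := by exact_mod_cast hqv.ne
  -- first the vectors `v + w`
  have key : ∀ w : Vec m, herm v w = 0 → v + w ∈ Cone m → u (v + w) = u v := by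
    intro w hw hvw
    by_contra hne
    have h1 : {x : Vec m | v + x ∈ Cone m ∧ u (v + x) ≠ u v} ∈ 𝓝 w := by
      have h2 : ContinuousAt (fun x : Vec m => v + x) w := by fun_prop
      have h3 : ContinuousAt u (v + w) := (hu.cd.contDiffAt (mem_nhds_cone hvw)).continuousAt
      have h4 : ContinuousAt (fun x : Vec m => u (v + x)) w :=
        ContinuousAt.comp (g := u) h3 h2
      exact Filter.inter_mem (h2.preimage_mem_nhds (mem_nhds_cone hvw)) (h4.eventually_ne hne)
    obtain ⟨y, ⟨h2, h3⟩, c, s, hs, rfl⟩ := mem_closure_iff_nhds.1 (hS w hw) _ h1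
    exact h3 (hc s hs c h2)
  obtain ⟨a, ha⟩ : ∃ a : ℂ, a = herm v x / q v := ⟨_, rfl⟩
  have hax : herm v (x - a • v) = 0 := by
    rw [sub_eq_add_neg, ← neg_smul, herm_add_right, herm_smul_right, herm_self, ha]
    field_simp
    ring
  have ha0 : a ≠ 0 := by
    rintro rfl
    have h1 : herm v x = 0 := by
      have h2 := ha.symm
      rcases div_eq_zero_iff.1 h2 with h3 | h3
      · exact h3
      · exact absurd h3 hqv'
    have h2 := q_nonneg_of_orth hv h1
    have h3 : q x < 0 := hx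
    linarith
  have hx1 : x = a • (v + a⁻¹ • (x - a • v)) := by
    rw [smul_add, smul_smul, mul_inv_cancel₀ ha0, one_smul]
    abel
  have hC : v + a⁻¹ • (x - a • v) ∈ Cone m := by
    have h1 : q x < 0 := hx
    rw [hx1, q_smul] at h1
    have h2 : 0 < ‖a‖ ^ 2 := by positivity
    show q _ < 0
    by_contra hcon
    push Not at hcon
    nlinarith [mul_nonneg h2.le hcon]
  rw [hx1, hu.hom a ha0 _ hC]
  exact key _ (by rw [herm_smul_right, hax, mul_zero]) hC

/-- **There is a disc on which the homomorphism is not trivial.** `Γ` acts through `κ` on the values of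
`u`, `P s` are subgroups which act cocompactly on the disc of the plane of `v` and `s`. -/
theorem exists_dir {Γ : Subgroup (SUGroup m)} {κ : Γ → ℝ} {u : Vec m → ℝ} (hu : PH u)
    (hκ : ∀ γ : Γ, ∀ x ∈ Cone m, u (act (γ : SUGroup m) x) = u x + κ γ) (hne : ∃ γ, κ γ ≠ 0)
    {v : Vec m} (hv : v ∈ Cone m) {S : Set (Vec m)} (hSv : ∀ s ∈ S, herm v s = 0)
    (hS : ∀ w : Vec m, herm v w = 0 → w ∈ closure {x : Vec m | ∃ c : ℂ, ∃ s ∈ S, x = c • s})
    (P : Vec m → Γ → Prop)
    (hc : ∀ s ∈ S, ∃ D : Set (Vec m), IsCompact D ∧ D ⊆ Cone m ∧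
      (∀ x ∈ D, ∃ a b : ℂ, x = a • v + b • s) ∧
      ∀ x ∈ Cone m, (∃ a b : ℂ, x = a • v + b • s) →
        ∃ γ : Γ, P s γ ∧ ∃ c : ℂ, c ≠ 0 ∧ c • act (γ : SUGroup m) x ∈ D) :
    ∃ s ∈ S, ∃ γ : Γ, P s γ ∧ κ γ ≠ 0 := by
  by_contra hcon
  push Not at hcon
  have h1 : ∀ s ∈ S, ∀ z : ℂ, v + z • s ∈ Cone m → u (v + z • s) = u v := by
    intro s hs z hz
    obtain ⟨D, hD, hDC, hDP, hcov⟩ := hc s hs
    refine const_plane hu hv (hSv s hs) hD hDC hDP ?_ hz
    intro x hx hab
    obtain ⟨γ, hγ, c, hc0, hD'⟩ := hcov x hx hab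
    refine ⟨_, hD', ?_⟩
    have h2 : act (γ : SUGroup m) x ∈ Cone m := by
      show q _ < 0
      rw [q_act]
      exact hx
    rw [hu.hom c hc0 _ h2, hκ γ x hx, hcon s hs γ hγ, add_zero]
  obtain ⟨γ, hγ⟩ := hne
  apply hγ
  have h2 : act (γ : SUGroup m) v ∈ Cone m := by
    show q _ < 0
    rw [q_act]
    exact hv
  have h3 := const_of_dense hu hv hS h1 h2
  have h4 := hκ γ v hv
  linarith

end Pool.Agent.Lib.MP_5d4057_al.PU
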