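import Pool.Agent.Lib.MP_5d4057_al.PU.FinB
import Pool.Agent.Lib.MP_5d4057_al.Hyb.Sig
import Pool.Agent.Lib.MP_5d4057_al.Hyb.Uni
import Pool.Agent.Lib.MP_5d4057_al.Hyb.Rk
import Pool.Agent.Lib.MP_5d4057_al.NU.CuspL

/-!
# PU: an anisotropic rational plane stays in the cocompact part of an arithmetic lattice
-/

set_option autoImplicit false

namespace Pool.Agent.Lib.MP_5d4057_al.PU

open Matrix Pool.Agent.Lib.MP_5d4057_al Pool.Agent.Lib.MP_5d4057_al.Hyb
  Pool.Agent.Lib.MP_5d4057_al.HM Pool.Agent.Lib.MP_5d4057_al.NU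

variable {m : ℕ}

/-- The nonzero numbers `trace (P (w - 1))`, `w` integral, are bounded from below. -/
theorem trace_lower {K : Subfield ℂ} {H : Matrix (Fin (m + 1)) (Fin (m + 1)) K}
    {B : Mat (m + 1)} (hf : IsForm m K H B) {P : Mat (m + 1)} (hPK : EntriesIn K B P) :
    ∃ c : ℝ, 0 < c ∧ ∀ w ∈ integralPoints m K B, (P * (w.toMatrix - 1)).trace ≠ 0 →
      c ≤ ‖(P * (w.toMatrix - 1)).trace‖ := by
  have hK : NumberField K := hf.cm.1
  have hBu : IsUnit B.det := isUnit_iff_ne_zero.2 hf.det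
  have hB1 : B * B⁻¹ = 1 := Matrix.mul_nonsing_inv B hBu
  obtain ⟨N, hN, hden⟩ := exists_denom hK
    (fun x : Fin (m + 1) × Fin (m + 1) => (⟨(B⁻¹ * P * B) x.1 x.2, hPK x.1 x.2⟩ : K))
  have hNC : (N : ℂ) ≠ 0 := by exact_mod_cast hN.ne'
  obtain ⟨P₁, hP₁⟩ : ∃ P₁ : Matrix (Fin (m + 1)) (Fin (m + 1)) K,
      ∀ i j, (P₁ i j : ℂ) = (B⁻¹ * P * B) i j :=
    ⟨fun i j => ⟨(B⁻¹ * P * B) i j, hPK i j⟩, fun i j => rfl⟩
  -- bounds at the definite places
  have hτ : ∀ τ : K →+* ℂ, ∃ E : ℝ, 0 ≤ E ∧ ∀ G : Matrix (Fin (m + 1)) (Fin (m + 1)) K,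
      (∀ σ : K →+* ℂ, (G.map σ)ᴴ * H.map σ * G.map σ = H.map σ) →
      ‖(N : ℂ) * ((P₁ * (G - 1)).trace : K)‖ ≤ 1 →
        ‖τ ((N : K) * (P₁ * (G - 1)).trace)‖ ≤ E := by
    intro τ
    rcases hf.definite τ with h | h | h
    · refine ⟨1, zero_le_one, fun G _ h1 => ?_⟩
      rw [h]
      push_cast
      exact h1
    · refine ⟨1, zero_le_one, fun G _ h1 => ?_⟩
      rw [h, RCLike.norm_conj]
      push_cast
      exact h1
    · obtain ⟨E, hE⟩ := entries_bound' (H.map τ) h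
      refine ⟨N * ∑ i, ∑ j, ‖τ (P₁ i j)‖ * (|E| + 1), by positivity, fun G hG _ => ?_⟩
      have h2 := hE (G.map τ) (hG τ)
      rw [map_mul, map_natCast, norm_mul, Complex.norm_natCast]
      refine mul_le_mul_of_nonneg_left ?_ (Nat.cast_nonneg _)
      rw [trace, map_sum]
      refine (norm_sum_le _ _).trans (Finset.sum_le_sum fun i _ => ?_)
      rw [diag_apply, Matrix.mul_apply, map_sum]
      refine (norm_sum_le _ _).trans (Finset.sum_le_sum fun j _ => ?_)
      rw [map_mul, norm_mul]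
      refine mul_le_mul_of_nonneg_left ?_ (norm_nonneg _)
      rw [Matrix.sub_apply, map_sub]
      refine (norm_sub_le _ _).trans (add_le_add ?_ ?_)
      · exact (h2 j i).trans (le_abs_self _)
      · rw [Matrix.one_apply]
        split_ifs
        · rw [map_one, norm_one]
        · rw [map_zero, norm_zero]
          exact zero_le_one
  choose E hE0 hE using hτ
  have hfin : ({x : K | IsIntegral ℤ x ∧ ∀ φ : K →+* ℂ, ‖φ x‖ ≤ ∑ τ, E τ}).Finite :=
    NumberField.Embeddings.finite_of_norm_le K ℂ _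
  obtain ⟨S, hS⟩ : ∃ S : Set ℂ, S = ((fun x : K => (x : ℂ)) '' {x : K | IsIntegral ℤ x ∧
    ∀ φ : K →+* ℂ, ‖φ x‖ ≤ ∑ τ, E τ}) \ {0} := ⟨_, rfl⟩
  have hSf : S.Finite := by rw [hS]; exact (hfin.image _).sdiff
  obtain ⟨ε, hε, hε'⟩ := Metric.isOpen_iff.1 hSf.isClosed.isOpen_compl 0
    (by rw [hS]; exact fun h => h.2 rfl)
  refine ⟨min 1 ε / N, by positivity, fun w hw hne => ?_⟩
  have hNR : (0 : ℝ) < N := by exact_mod_cast hN
  rw [div_le_iff₀ hNR]
  obtain ⟨t, ht⟩ : ∃ t, t = (P * (w.toMatrix - 1)).trace := ⟨_, rfl⟩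
  rw [← ht] at hne ⊢
  have hnorm : ‖(N : ℂ) * t‖ = ‖t‖ * N := by
    rw [norm_mul, Complex.norm_natCast, mul_comm]
  rw [← hnorm]
  by_contra hlt
  rw [not_le] at hlt
  have h1 : ‖(N : ℂ) * t‖ < 1 := hlt.trans_le (min_le_left _ _)
  have h2 : ‖(N : ℂ) * t‖ < ε := hlt.trans_le (min_le_right _ _)
  have hwK : EntriesIn K B w.toMatrix := fun i j => (hw.1 i j).1
  obtain ⟨G, hG1, -, hG3⟩ := exists_rat hf w hwK
  have htG : t = ((P₁ * (G - 1)).trace : K) := by
    have h3 : (P₁.map (fun x : K => (x : ℂ))) = B⁻¹ * P * B := by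
      ext i j
      exact hP₁ i j
    have h4 : (((P₁ * (G - 1)).trace : K) : ℂ) =
        ((P₁ * (G - 1)).map K.subtype).trace := by
      rw [trace, trace]
      exact map_sum K.subtype _ _
    rw [h4, Matrix.map_mul, Matrix.map_sub K.subtype (fun a b => map_sub _ a b)]
    have h5 : (1 : Matrix (Fin (m + 1)) (Fin (m + 1)) K).map K.subtype = 1 :=
      Matrix.map_one _ (map_zero _) (map_one _)
    rw [h5]
    change t = (P₁.map (fun x : K => (x : ℂ)) * (G.map (fun x : K => (x : ℂ)) - 1)).trace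
    rw [h3, hG1, ht]
    have h6 : B⁻¹ * P * B * (B⁻¹ * w.toMatrix * B - 1) = B⁻¹ * (P * (w.toMatrix - 1)) * B := by
      calc B⁻¹ * P * B * (B⁻¹ * w.toMatrix * B - 1)
          = B⁻¹ * P * (B * B⁻¹) * w.toMatrix * B - B⁻¹ * P * B := by
            rw [Matrix.mul_sub, Matrix.mul_one]; simp only [Matrix.mul_assoc]
        _ = B⁻¹ * (P * (w.toMatrix - 1)) * B := by
            rw [hB1, Matrix.mul_one, Matrix.mul_sub, Matrix.mul_one, Matrix.mul_sub,
              Matrix.sub_mul]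
            simp only [Matrix.mul_assoc]
    have h7 : ∀ X : Mat (m + 1), (B⁻¹ * X * B).trace = X.trace := fun X => by
      rw [trace_mul_comm, ← Matrix.mul_assoc, hB1, Matrix.one_mul]
    rw [h6, h7]
  have hmem : (N : ℂ) * t ∈ S := by
    rw [hS]
    refine ⟨⟨(N : K) * (P₁ * (G - 1)).trace, ⟨?_, ?_⟩, ?_⟩, ?_⟩
    · -- integrality
      have h3 : ∀ i j, IsIntegral ℤ ((N : K) * P₁ i j) := by
        intro i j
        have h4 : IsIntegral ℤ ((N : ℂ) * (B⁻¹ * P * B) i j) := (hden (i, j)).2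
        rw [← hP₁] at h4
        have h5 : IsIntegral ℤ (algebraMap K ℂ ((N : K) * P₁ i j)) := by
          convert h4 using 1
          rw [map_mul, map_natCast]
          rfl
        exact (isIntegral_algebraMap_iff (algebraMap K ℂ).injective).1 h5
      have h4 : ∀ i j, IsIntegral ℤ ((G - 1) i j) := by
        intro i j
        have h5 : IsIntegral ℤ (algebraMap K ℂ (G i j)) := by
          have h6 : IsIntegral ℤ ((B⁻¹ * w.toMatrix * B) i j) := (hw.1 i j).2
          have h7 : algebraMap K ℂ (G i j) = (B⁻¹ * w.toMatrix * B) i j := by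
            have := congrFun (congrFun hG1 i) j
            rwa [Matrix.map_apply] at this
          rw [h7]
          exact h6
        have h6 := (isIntegral_algebraMap_iff (algebraMap K ℂ).injective).1 h5
        rw [Matrix.sub_apply]
        refine h6.sub ?_
        rw [Matrix.one_apply]
        split_ifs
        · exact isIntegral_one
        · exact isIntegral_zero
      rw [trace, Finset.mul_sum]
      refine IsIntegral.sum _ fun i _ => ?_
      rw [diag_apply, Matrix.mul_apply, Finset.mul_sum]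
      refine IsIntegral.sum _ fun j _ => ?_
      rw [← mul_assoc]
      exact (h3 i j).mul (h4 j i)
    · intro φ
      refine (hE φ G hG3 ?_).trans ?_
      · rw [← htG]
        exact h1.le
      · exact Finset.single_le_sum (fun τ _ => hE0 τ) (Finset.mem_univ φ)
    · rw [htG]
      push_cast
      rfl
    · intro h0
      exact mul_ne_zero hNC hne h0
  refine hε' ?_ hmem
  rw [Metric.mem_ball, dist_zero_right]
  exact h2

/-- The orthogonal projection is symmetric for the form. -/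
theorem herm_proj {P : Mat (m + 1)} (hPJ : Pᴴ * J m = J m * P) (v w : Vec m) :
    herm (P *ᵥ v) w = herm v (P *ᵥ w) := by
  rw [herm, herm, star_mulVec, ← dotProduct_mulVec, mulVec_mulVec, mulVec_mulVec, hPJ]

/-- The height is bounded on an anisotropic rational plane. -/
theorem hty_plane {K : Subfield ℂ} {H : Matrix (Fin (m + 1)) (Fin (m + 1)) K}
    {B : Mat (m + 1)} (hf : IsForm m K H B) {Γ : Subgroup (SUGroup m)}
    (hΓ : (integralPoints m K B).relIndex Γ ≠ 0) {P : Mat (m + 1)} (hP : P * P = P)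
    (hPJ : Pᴴ * J m = J m * P) (hPK : EntriesIn K B P)
    (hpos : ∀ v : Vec m, P *ᵥ v = 0 → v ≠ 0 → 0 < q v)
    (hani : ∀ x : Fin (m + 1) → K, P *ᵥ (B *ᵥ fun i => (x i : ℂ)) = B *ᵥ (fun i => (x i : ℂ)) →
      q (B *ᵥ fun i => (x i : ℂ)) = 0 → x = 0) :
    ∃ R : ℝ, ∀ v ∈ Cone m, P *ᵥ v = v → hty Γ v ≤ R := by
  obtain ⟨c, hc, hlow⟩ := trace_lower hf hPK
  obtain ⟨d, hd⟩ : ∃ d, d = (integralPoints m K B).relIndex Γ := ⟨_, rfl⟩
  have hBu : IsUnit B.det := isUnit_iff_ne_zero.2 hf.det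
  have hB1 : B * B⁻¹ = 1 := Matrix.mul_nonsing_inv B hBu
  refine ⟨max 1 (d / c), fun v hv hPv => max_le_max le_rfl ?_⟩
  refine Real.sSup_le ?_ (by positivity)
  rintro r ⟨γ, hγ, ξ, κ, htv, rfl⟩
  -- a power of `γ` is integral
  obtain ⟨k, hk0, hkd, hk⟩ : ∃ k : ℕ, 0 < k ∧ k ≤ d ∧ γ ^ k ∈ integralPoints m K B := by
    obtain ⟨k, hk0, hkd, hk⟩ := Subgroup.exists_pow_mem_of_relIndex_ne_zero hΓ hγ
    exact ⟨k, hk0, by rw [hd]; exact hkd, hk.1⟩
  have hξ := htv.1
  have hκ := htv.2.1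
  obtain ⟨p, hp⟩ : ∃ p : Vec m, p = NU.pe ξ := ⟨_, rfl⟩
  have hqp : q p = 0 := by rw [hp, q_pe, hξ, sub_self]
  have hhp : herm p p = 0 := by rw [herm_self, hqp, Complex.ofReal_zero]
  have hpow : (γ ^ k).toMatrix = 1 + (((k : ℝ) * κ : ℝ) * Complex.I : ℂ) • rk m p p := by
    have hrk : rk m p p * rk m p p = 0 := by
      rw [rk_mul]
      have : hm m p p = 0 := hhp
      rw [this, zero_smul]
    have h1 : γ.toMatrix = 1 + ((κ : ℂ) * Complex.I) • rk m p p := by
      rw [hp]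
      exact htv.2.2
    clear hk hkd hk0
    induction k with
    | zero => simp [toMatrix_one]
    | succ k ih =>
      rw [pow_succ, toMatrix_mul, ih, h1, add_mul, one_mul, mul_add, mul_one, smul_mul_smul_comm,
        hrk, smul_zero, add_zero, add_assoc, ← add_smul]
      congr 2
      push_cast
      ring
  -- the trace
  have htr : (P * ((γ ^ k).toMatrix - 1)).trace =
      (((k : ℝ) * κ : ℝ) * Complex.I : ℂ) * (q (P *ᵥ p) : ℂ) := by
    rw [hpow, add_sub_cancel_left, Matrix.mul_smul, trace_smul, smul_eq_mul]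
    congr 1
    rw [rk, mul_vecMulVec, ← rk, trace_rk]
    show herm p (P *ᵥ p) = _
    rw [← herm_self, herm_proj hPJ, mulVec_mulVec, hP]
  have hq1 : q (P *ᵥ p) ≤ 0 ∧ (q (P *ᵥ p) = 0 → P *ᵥ p = p) := by
    have h1 : P *ᵥ (p - P *ᵥ p) = 0 := by
      rw [mulVec_sub, mulVec_mulVec, hP, sub_self]
    have h2 : q (p - P *ᵥ p) = - q (P *ᵥ p) := by
      have h3 : (q (p - P *ᵥ p) : ℂ) = -(q (P *ᵥ p) : ℂ) := by
        have h4 : herm (P *ᵥ p) p = herm (P *ᵥ p) (P *ᵥ p) := by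
          rw [herm_proj hPJ (P := P) p p, herm_proj hPJ p (P *ᵥ p), mulVec_mulVec, hP]
        have h5 : herm p (P *ᵥ p) = herm (P *ᵥ p) (P *ᵥ p) := by
          rw [herm_proj hPJ p (P *ᵥ p), mulVec_mulVec, hP]
        rw [← herm_self, ← herm_self, sub_eq_add_neg, ← neg_one_smul ℂ (P *ᵥ p), herm_add_right,
          herm_add_left, herm_add_left, herm_smul_left, herm_smul_right, herm_smul_right,
          herm_smul_left, h4, h5, hhp]
        simp
      exact_mod_cast h3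
    constructor
    · by_cases h3 : p - P *ᵥ p = 0
      · rw [← sub_eq_zero.1 h3, hqp]
      · have := hpos _ h1 h3
        linarith
    · intro h3
      by_contra h4
      have h5 : p - P *ᵥ p ≠ 0 := fun h => h4 (sub_eq_zero.1 h).symm
      have := hpos _ h1 h5
      rw [h2, h3, neg_zero] at this
      exact lt_irrefl _ this
  have hkR : (0 : ℝ) < k := by exact_mod_cast hk0
  have hkκ : ((k : ℝ) * κ : ℝ) ≠ 0 := mul_ne_zero hkR.ne' hκ
  have hcoef : (((k : ℝ) * κ : ℝ) * Complex.I : ℂ) ≠ 0 :=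
    mul_ne_zero (by exact_mod_cast hkκ) Complex.I_ne_zero
  have hp0 : p ≠ 0 := by
    intro h
    have h2 : (NU.pe ξ) (Fin.last m) = 0 := by rw [← hp, h]; rfl
    rw [NU.pe, Pi.add_apply, Kak.vec_last, Kak.base_last, zero_add] at h2
    exact one_ne_zero h2
  -- the plane is anisotropic
  have hqneg : q (P *ᵥ p) < 0 := by
    refine lt_of_le_of_ne hq1.1 fun h0 => ?_
    have hPp := hq1.2 h0
    -- the matrix `B⁻¹ (γ^k - 1) B` has entries in `K`
    have hent : ∀ i j, (B⁻¹ *ᵥ p) i * (((k : ℝ) * κ : ℝ) * Complex.I : ℂ) *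
        ((star p ᵥ* J m) ᵥ* B) j ∈ K := by
      intro i j
      have h1 : B⁻¹ * (γ ^ k).toMatrix * B = 1 + (((k : ℝ) * κ : ℝ) * Complex.I : ℂ) •
          vecMulVec (B⁻¹ *ᵥ p) ((star p ᵥ* J m) ᵥ* B) := by
        rw [hpow, Matrix.mul_add, Matrix.add_mul, Matrix.mul_one,
          Matrix.nonsing_inv_mul B hBu, Matrix.mul_smul, Matrix.smul_mul, rk, mul_vecMulVec,
          vecMulVec_mul]
      have h2 : (B⁻¹ * (γ ^ k).toMatrix * B) i j ∈ K := (hk.1 i j).1
      rw [h1, Matrix.add_apply, Matrix.smul_apply, vecMulVec_apply, smul_eq_mul] at h2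
      have h3 : (1 : Matrix (Fin (m + 1)) (Fin (m + 1)) ℂ) i j ∈ K := by
        rw [Matrix.one_apply]
        split_ifs
        · exact K.one_mem
        · exact K.zero_mem
      have h4 := K.sub_mem h2 h3
      rw [add_sub_cancel_left] at h4
      convert h4 using 1
      ring
    -- a nonzero coordinate of the row
    obtain ⟨j, hj⟩ : ∃ j, ((star p ᵥ* J m) ᵥ* B) j ≠ 0 := by
      by_contra hall
      push Not at hall
      have h1 : (star p ᵥ* J m) ᵥ* B = 0 := by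
        ext j
        exact hall j
      have h2 : star p ᵥ* J m = 0 := by
        have h3 := congrArg (fun x => x ᵥ* B⁻¹) h1
        simp only [vecMul_vecMul, zero_vecMul] at h3
        rw [Matrix.mul_assoc, hB1, Matrix.mul_one] at h3
        exact h3
      have h3 : (star p ᵥ* J m) ᵥ* J m = 0 := by rw [h2, zero_vecMul]
      rw [vecMul_vecMul, J_mul_J, vecMul_one] at h3
      exact hp0 (star_eq_zero.1 h3)
    obtain ⟨a, ha⟩ : ∃ a : ℂ, a = (((k : ℝ) * κ : ℝ) * Complex.I : ℂ) *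
        ((star p ᵥ* J m) ᵥ* B) j := ⟨_, rfl⟩
    have ha0 : a ≠ 0 := by rw [ha]; exact mul_ne_zero hcoef hj
    obtain ⟨x, hx⟩ : ∃ x : Fin (m + 1) → K, ∀ i, (x i : ℂ) = (B⁻¹ *ᵥ p) i * a := by
      refine ⟨fun i => ⟨(B⁻¹ *ᵥ p) i * a, ?_⟩, fun i => rfl⟩
      have h1 := hent i j
      rw [mul_assoc, ← ha] at h1
      exact h1
    have hBx : (B *ᵥ fun i => (x i : ℂ)) = a • p := by
      have h1 : (fun i => (x i : ℂ)) = a • (B⁻¹ *ᵥ p) := by
        ext i
        rw [hx, Pi.smul_apply, smul_eq_mul, mul_comm]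
      rw [h1, mulVec_smul, mulVec_mulVec, hB1, one_mulVec]
    have hx0 : x = 0 := by
      refine hani x ?_ ?_
      · rw [hBx, mulVec_smul, hPp]
      · have h1 : (q (a • p) : ℂ) = 0 := by
          rw [← herm_self, herm_smul_left, herm_smul_right, hhp, mul_zero, mul_zero]
        rw [hBx]
        exact_mod_cast h1
    have h1 : a • p = 0 := by
      rw [← hBx, hx0]
      have : (fun i => (((0 : Fin (m + 1) → K) i : K) : ℂ)) = 0 := by
        ext i
        simp
      rw [this, mulVec_zero]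
    rcases smul_eq_zero.1 h1 with h2 | h2
    · exact ha0 h2
    · exact hp0 h2
  -- the lower bound
  have htne : (P * ((γ ^ k).toMatrix - 1)).trace ≠ 0 := by
    rw [htr]
    exact mul_ne_zero hcoef (by exact_mod_cast hqneg.ne)
  have h1 := hlow _ hk htne
  rw [htr, norm_mul, norm_mul, Complex.norm_I, mul_one, Complex.norm_real, Complex.norm_real,
    Real.norm_eq_abs, Real.norm_eq_abs, abs_mul, abs_of_pos hkR, abs_of_neg hqneg] at h1
  have h2 : q v * q (P *ᵥ p) ≤ ‖herm v p‖ ^ 2 := by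
    have h3 := q_mul_q_le hv (show P *ᵥ p ∈ Cone m from hqneg)
    rw [← herm_proj hPJ v p, hPv] at h3
    exact h3
  have hqv : q v < 0 := hv
  have hκ0 : 0 < |κ| := abs_pos.2 hκ
  have hvp : 0 < ‖herm v p‖ ^ 2 := lt_of_lt_of_le (mul_pos_of_neg_of_neg hqv hqneg) h2
  have hkd' : (k : ℝ) ≤ d := by exact_mod_cast hkd
  rw [yp, ← hp, div_div, div_le_div_iff₀ (by positivity) hc]
  have h3 : -q v * c ≤ -q v * (k * |κ| * -q (P *ᵥ p)) :=
    mul_le_mul_of_nonneg_left h1 (by linarith)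
  calc -q v * c ≤ -q v * (k * |κ| * -q (P *ᵥ p)) := h3
    _ = k * |κ| * (q v * q (P *ᵥ p)) := by ring
    _ ≤ d * |κ| * ‖herm v p‖ ^ 2 := by
        refine mul_le_mul ?_ h2 (mul_pos_of_neg_of_neg hqv hqneg).le (by positivity)
        exact mul_le_mul_of_nonneg_right hkd' hκ0.le
    _ = d * (‖herm v p‖ ^ 2 * |κ|) := by ring

/-- The stabiliser of an anisotropic rational plane acts cocompactly on it (torsion free arithmetic
lattices, uniform or not). -/
theorem coc_aniso (hm : 2 ≤ m) {K : Subfield ℂ} {H : Matrix (Fin (m + 1)) (Fin (m + 1)) K}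
    {B : Mat (m + 1)} (hf : IsForm m K H B) {Γ : Subgroup (SUGroup m)} {χ : SUGroup m → ℝ}
    (hL : Lat Γ χ) (hT : TF Γ) (hTor : Tor Γ)
    (hΓ : (integralPoints m K B).relIndex Γ ≠ 0) {P : Mat (m + 1)} (hP : P * P = P)
    (hPJ : Pᴴ * J m = J m * P) (hPK : EntriesIn K B P)
    (hpos : ∀ v : Vec m, P *ᵥ v = 0 → v ≠ 0 → 0 < q v)
    (hani : ∀ x : Fin (m + 1) → K, P *ᵥ (B *ᵥ fun i => (x i : ℂ)) = B *ᵥ (fun i => (x i : ℂ)) →
      q (B *ᵥ fun i => (x i : ℂ)) = 0 → x = 0) :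
    ∃ D : Set (Vec m), IsCompact D ∧ D ⊆ Cone m ∧ (∀ x ∈ D, P *ᵥ x = x) ∧
      ∀ v ∈ Cone m, P *ᵥ v = v → ∃ γ ∈ Γ, γ ∈ integralPoints m K B ∧
        γ.toMatrix * P = P * γ.toMatrix ∧ ∃ c : ℂ, c ≠ 0 ∧ c • act γ v ∈ D := by
  obtain ⟨R, hR⟩ := hty_plane hf hΓ hP hPJ hPK hpos hani
  have hht := ht_hty hm hL hT hTor
  obtain ⟨F, hF, hF'⟩ := hht.cpt R
  refine coc_plane_comm hf hΓ hP hPJ hPK hF fun v hv hPv => ?_
  have hv' := hv
  obtain ⟨g, c, hc, rfl⟩ := exists_act_eq hv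
  have h1 : hty Γ (act g (base m)) ≤ R := by
    rw [← hht.hom c hc _ (orbit_mem g)]
    exact hR _ hv' hPv
  obtain ⟨γ, hγ, hγg⟩ := hF' g h1
  refine ⟨γ, hγ, γ * g, hγg, c, hc, ?_⟩
  rw [act_smul, act_mul]

end Pool.Agent.Lib.MP_5d4057_al.PU
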