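import Pool.Agent.Lib.MP_5d4057_al.NU.ThmL
import Pool.Agent.Lib.MP_5d4057_al.HM.AppEmb
import Pool.Agent.Lib.MP_5d4057_al.HM.CocSub

/-!
# PU: existence of the plane U, definitions

`inc2 j : Vec 1 → Vec (j+1)` is the inclusion of the last two coordinates, `ext2 j : SUGroup 1 →* SUGroup (j+1)` the
corresponding block embedding (identity on the orthogonal complement), `emb2 g = g (ext2 _) g⁻¹`.
-/

set_option autoImplicit false

namespace Pool.Agent.Lib.MP_5d4057_al.PU

open Matrix Filter Topology Pool.Agent.Lib.MP_5d4057_al Pool.Agent.Lib.MP_5d4057_al.Hyb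
  Pool.Agent.Lib.MP_5d4057_al.HM Pool.Agent.Lib.MP_5d4057_al.HM.Kak Pool.Agent.Lib.MP_5d4057_al.NU

open scoped ComplexOrder MatrixOrder Matrix.Norms.L2Operator

variable {j m : ℕ}

/-- The inclusion of the last two coordinates. -/
noncomputable def inc2 : (j : ℕ) → Vec 1 →L[ℂ] Vec (j + 1)
  | 0 => ContinuousLinearMap.id ℂ _
  | j + 1 => (inc (j + 1)).comp (inc2 j)

/-- The block embedding. -/
noncomputable def ext2 : (j : ℕ) → SUGroup 1 →* SUGroup (j + 1)
  | 0 => MonoidHom.id _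
  | j + 1 => (extend (j + 1)).comp (ext2 j)

/-- The embedding belonging to the plane `g (inc2 (Vec 1))`. -/
noncomputable def emb2 (g : SUGroup (j + 1)) : SUGroup 1 →* SUGroup (j + 1) :=
  (MulAut.conj g).toMonoidHom.comp (ext2 j)

theorem emb2_apply (g : SUGroup (j + 1)) (y : SUGroup 1) : emb2 g y = g * ext2 j y * g⁻¹ := rfl

/-- A `K`-rational anisotropic plane of signature `(1,1)`, with an orthogonal basis `u`, `w` of rational vectors. -/
structure Pl (K : Subfield ℂ) (B : Mat (m + 1)) (u w : Vec m) : Prop where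
  ratu : ∀ i, (B⁻¹ *ᵥ u) i ∈ K
  ratw : ∀ i, (B⁻¹ *ᵥ w) i ∈ K
  neg : q u < 0
  pos : 0 < q w
  orth : herm u w = 0
  aniso : ∀ a ∈ K, ∀ b ∈ K, q (a • u + b • w) = 0 → a = 0 ∧ b = 0

end Pool.Agent.Lib.MP_5d4057_al.PU
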