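import Pool.Agent.Lib.MP_5d4057_al.PU.Defs
import Pool.Agent.Lib.MP_5d4057_al.NU.CuspA

/-!
# PU: the block embedding and frames (linear algebra)
-/

set_option autoImplicit false

namespace Pool.Agent.Lib.MP_5d4057_al.PU

open Matrix Filter Topology Pool.Agent.Lib.MP_5d4057_al Pool.Agent.Lib.MP_5d4057_al.Hyb
  Pool.Agent.Lib.MP_5d4057_al.HM Pool.Agent.Lib.MP_5d4057_al.HM.Kak Pool.Agent.Lib.MP_5d4057_al.NU

open scoped ComplexOrder MatrixOrder Matrix.Norms.L2Operator

variable {j m : ℕ}

theorem herm_inc2 (v w : Vec 1) : herm (inc2 j v) (inc2 j w) = herm v w := by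
  induction j with
  | zero => rfl
  | succ j ih =>
    show herm (inc (j + 1) (inc2 j v)) (inc (j + 1) (inc2 j w)) = herm v w
    rw [herm_inc, ih]

theorem q_inc2 (v : Vec 1) : q (inc2 j v) = q v := by
  rw [q, q, herm_inc2]

theorem inc2_base : inc2 j (base 1) = base (j + 1) := by
  induction j with
  | zero => rfl
  | succ j ih =>
    show inc (j + 1) (inc2 j (base 1)) = base (j + 2)
    rw [ih, inc_base]

theorem act_ext2 (y : SUGroup 1) (v : Vec 1) : act (ext2 j y) (inc2 j v) = inc2 j (act y v) := by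
  induction j with
  | zero => rfl
  | succ j ih =>
    show act (extend (j + 1) (ext2 j y)) (inc (j + 1) (inc2 j v)) = inc (j + 1) (inc2 j (act y v))
    rw [act_extend, ih]

/-- Every vector is `(v 0, tail)`. -/
private theorem cons_eta (v : Vec (j + 1)) : v = Fin.cons (v 0) (fun i => v i.succ) := by
  ext i
  refine Fin.cases rfl (fun i => rfl) i

private theorem herm_inc_left (w : Vec j) (v : Vec (j + 1)) :
    herm (inc j w) v = herm w (fun i => v i.succ) := by
  conv_lhs => rw [cons_eta v]
  rw [herm, J_succ, dsum_mulVec_cons, star_inc, cons_dot_cons, zero_mul, zero_add]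
  rfl

private theorem act_extend_cons (y : SUGroup j) (v : Vec (j + 1)) :
    act (extend j y) v = Fin.cons (v 0) (act y (fun i => v i.succ)) := by
  conv_lhs => rw [cons_eta v]
  rw [act, extend_toMatrix, dsum_mulVec_cons, one_mul]
  rfl

private theorem inc_inj {v w : Vec j} (h : inc j v = inc j w) : v = w := by
  ext i
  have h1 := congrFun h i.succ
  rwa [inc_succ, inc_succ] at h1

/-- `ext2` is the identity on the orthogonal complement of the plane. -/
theorem act_ext2_perp (y : SUGroup 1) {v : Vec (j + 1)} (hv : ∀ w, herm (inc2 j w) v = 0) :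
    act (ext2 j y) v = v := by
  induction j with
  | zero =>
    have hv0 : v = 0 := by
      have hb : herm (base 1) v = 0 := hv (base 1)
      by_contra hne
      have h1 := q_pos_of_orth (base_mem 1) hb hne
      have h2 : herm v v = 0 := hv v
      rw [q, h2] at h1
      exact lt_irrefl _ h1
    rw [hv0]
    exact mulVec_zero _
  | succ j ih =>
    show act (extend (j + 1) (ext2 j y)) v = v
    rw [act_extend_cons, ih (v := fun i => v i.succ) ?_, ← cons_eta]
    intro w
    have h1 := hv w
    rw [← herm_inc_left]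
    exact h1

theorem continuous_ext2 : Continuous (ext2 j) := by
  induction j with
  | zero => exact continuous_id
  | succ j ih => exact (continuous_extend (j + 1)).comp ih

theorem continuous_emb2 (g : SUGroup (j + 1)) : Continuous (emb2 g) := by
  have := continuous_ext2 (j := j)
  exact (continuous_const.mul this).mul continuous_const

theorem ext2_injective : Function.Injective (ext2 j) := by
  induction j with
  | zero => exact Function.injective_id
  | succ j ih => exact (extend_injective (j + 1)).comp ih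

theorem emb2_injective (g : SUGroup (j + 1)) : Function.Injective (emb2 g) := by
  intro x y h
  exact ext2_injective ((MulAut.conj g).injective h)

theorem ch_ext2 (y : SUGroup 1) : ch (ext2 j y) = ch y := by
  induction j with
  | zero => rfl
  | succ j ih =>
    rw [← ih]
    show ‖(extend (j + 1) (ext2 j y)).toMatrix (Fin.last (j + 2)) (Fin.last (j + 2))‖ = _
    rw [extend_toMatrix, ← Fin.succ_last, dsum_succ_succ, ch]

theorem act_emb2 (g : SUGroup (j + 1)) (y : SUGroup 1) (v : Vec 1) :
    act (emb2 g y) (act g (inc2 j v)) = act g (inc2 j (act y v)) := by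
  rw [emb2_apply, ← act_mul, inv_mul_cancel_right, act_mul, act_ext2]

/-- An element fixing the first basis vector is in the image of `extend`. -/
private theorem exists_extend {x : SUGroup (j + 1)}
    (hx : act x (Pi.single 0 1) = Pi.single 0 1) : ∃ y : SUGroup j, extend j y = x := by
  have he : ∀ v : Vec (j + 1), herm (Pi.single 0 1) v = v 0 := by
    intro v
    rw [herm, J_succ, cons_eta v, dsum_mulVec_cons, ← Pi.single_star, star_one, single_dotProduct,
      one_mul, one_mul]
    rfl
  have hcol : ∀ (A : Mat (j + 2)) (i k : Fin (j + 2)),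
      (A *ᵥ (Pi.single k 1 : Vec (j + 1))) i = A i k := by
    intro A i k
    rw [mulVec_single_one]
    rfl
  have h0 : ∀ v : Vec (j + 1), act x v 0 = v 0 := by
    intro v
    rw [← he (act x v)]
    conv_lhs => rw [← hx]
    rw [herm_act, he]
  obtain ⟨A, hA⟩ : ∃ A : Mat (j + 1), A = x.toMatrix.submatrix Fin.succ Fin.succ := ⟨_, rfl⟩
  have hxA : x.toMatrix = dsum 1 A := by
    ext i k
    rw [← hcol x.toMatrix i k]
    refine Fin.cases ?_ (fun k => ?_) k
    · have h1 : x.toMatrix *ᵥ (Pi.single 0 1 : Vec (j + 1)) = Pi.single 0 1 := hx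
      rw [h1]
      refine Fin.cases ?_ (fun i => ?_) i
      · rw [Pi.single_eq_same, dsum_zero_zero]
      · rw [Pi.single_eq_of_ne (Fin.succ_ne_zero i), dsum_succ_zero]
    · refine Fin.cases ?_ (fun i => ?_) i
      · have h1 := h0 (Pi.single k.succ 1)
        rw [act] at h1
        rw [h1, Pi.single_eq_of_ne (Fin.succ_ne_zero k).symm, dsum_zero_succ]
      · rw [dsum_succ_succ, hA, hcol]
        rfl
  have hdet : A.det = 1 := by
    have h1 : x.toMatrix.det = 1 := det_toMatrix x
    rwa [hxA, det_dsum, one_mul] at h1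
  have hpres : Aᴴ * J j * A = J j := by
    have h1 : x.toMatrixᴴ * J (j + 1) * x.toMatrix = J (j + 1) := x.2
    rw [hxA, dsum_conjTranspose, J_succ, dsum_mul, dsum_mul] at h1
    ext i k
    have h2 := congrFun (congrFun h1 i.succ) k.succ
    rwa [dsum_succ_succ, dsum_succ_succ] at h2
  refine ⟨ofMatrix A hdet hpres, toMatrix_injective ?_⟩
  rw [extend_toMatrix, toMatrix_ofMatrix, hxA]

private theorem exists_ext2 {x : SUGroup (j + 1)}
    (h1 : ∀ v : Vec 1, ∃ v' : Vec 1, act x (inc2 j v) = inc2 j v')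
    (h2 : ∀ v : Vec (j + 1), (∀ w, herm (inc2 j w) v = 0) → act x v = v) :
    ∃ y : SUGroup 1, ext2 j y = x := by
  induction j with
  | zero => exact ⟨x, rfl⟩
  | succ j ih =>
    have hx : act x (Pi.single 0 1) = Pi.single 0 1 := by
      apply h2
      intro w
      show herm (inc (j + 1) (inc2 j w)) (Pi.single 0 1) = 0
      rw [herm_inc_left]
      have h3 : (fun i : Fin (j + 1 + 1) => (Pi.single 0 1 : Vec (j + 2)) i.succ) = 0 := by
        ext i
        rw [Pi.single_eq_of_ne (Fin.succ_ne_zero i)]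
        rfl
      rw [h3, herm, mulVec_zero, dotProduct_zero]
    obtain ⟨z, hz⟩ := exists_extend hx
    obtain ⟨y, hy⟩ := ih (x := z) (by
      intro v
      obtain ⟨v', hv'⟩ := h1 v
      refine ⟨v', inc_inj ?_⟩
      rw [← act_extend, hz]
      exact hv') (by
      intro v hv
      apply inc_inj
      rw [← act_extend, hz]
      apply h2
      intro w
      show herm (inc (j + 1) (inc2 j w)) (inc (j + 1) v) = 0
      rw [herm_inc, hv])
    refine ⟨y, ?_⟩
    rw [← hz, ← hy]
    rfl

/-- An element which preserves the plane and is the identity on the orthogonal complement is in the image of `emb2`.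
(`g⁻¹ x g` preserves the coordinate plane and is `1` on the other coordinates; by recursion on `j`.) -/
theorem exists_emb2 {g x : SUGroup (j + 1)}
    (h1 : ∀ v : Vec 1, ∃ v' : Vec 1, act x (act g (inc2 j v)) = act g (inc2 j v'))
    (h2 : ∀ v : Vec (j + 1), (∀ w, herm (act g (inc2 j w)) v = 0) → act x v = v) :
    ∃ y : SUGroup 1, emb2 g y = x := by
  obtain ⟨y, hy⟩ := exists_ext2 (x := g⁻¹ * x * g) (by
    intro v
    obtain ⟨v', hv'⟩ := h1 v
    refine ⟨v', ?_⟩
    rw [act_mul, act_mul, hv', ← act_mul, inv_mul_cancel, act_one]) (by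
    intro v hv
    have h3 : act x (act g v) = act g v := by
      apply h2
      intro w
      rw [herm_act, hv]
    rw [act_mul, act_mul, h3, ← act_mul, inv_mul_cancel, act_one])
  refine ⟨y, ?_⟩
  rw [emb2_apply, hy]
  group

/-! Frames. -/

/-- Complex reflections, corrected by a scalar. -/
private theorem exists_crefl (d : Vec m) (c : ℂ) (h : c + star c + c * star c * (q d : ℂ) = 0) :
    ∃ (g : SUGroup m) (μ : ℂ), ‖μ‖ = 1 ∧ ∀ v, act g v = μ • (v + (c * herm d v) • d) := by
  obtain ⟨A, hA⟩ : ∃ A : Mat (m + 1), A = 1 + c • rk m d d := ⟨_, rfl⟩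
  have hAv : ∀ v, A *ᵥ v = v + (c * herm d v) • d := by
    intro v
    rw [hA, add_mulVec, one_mulVec, smul_mulVec, rk_mulVec, smul_smul]
    rfl
  have hherm : ∀ v w, herm (A *ᵥ v) (A *ᵥ w) = herm v w := by
    intro v w
    rw [hAv, hAv, herm_add_left, herm_add_right, herm_add_right, herm_smul_left, herm_smul_left,
      herm_smul_right, herm_smul_right, herm_self, star_mul', ← herm_comm]
    linear_combination (herm v d * herm d w) * h
  have hdet : A.det = 1 + c * (q d : ℂ) := by
    have h1 : A = 1 + (Matrix.of fun i (_ : Unit) => d i) *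
        (Matrix.of fun (_ : Unit) j => c * (star d ᵥ* J m) j) := by
      rw [hA]
      ext i j
      simp only [rk, Matrix.add_apply, Matrix.smul_apply, Matrix.mul_apply,
        vecMulVec_apply, Matrix.of_apply, Finset.univ_unique, Finset.sum_singleton, smul_eq_mul]
      ring
    have h2 : (star d ᵥ* J m) ⬝ᵥ d = (q d : ℂ) := by
      rw [← dotProduct_mulVec, ← herm_self, herm]
    rw [h1, det_one_add_mul_comm, det_unique]
    simp only [Matrix.add_apply, Matrix.one_apply_eq, Matrix.mul_apply, Matrix.of_apply, mul_assoc,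
      ← Finset.mul_sum]
    rw [dotProduct] at h2
    rw [h2]
  obtain ⟨l, hl⟩ : ∃ l : ℂ, l = 1 + c * (q d : ℂ) := ⟨_, rfl⟩
  have hl1 : star l * l = 1 := by
    rw [hl, star_add, star_one, star_mul']
    have h3 : star (q d : ℂ) = (q d : ℂ) := Complex.conj_ofReal _
    rw [h3]
    linear_combination (q d : ℂ) * h
  have hl2 : ‖l‖ = 1 := by
    have h4 : ‖star l * l‖ = 1 := by rw [hl1, norm_one]
    rw [norm_mul, norm_star] at h4
    nlinarith [norm_nonneg l]
  have hl0 : l ≠ 0 := by
    intro h5
    rw [h5, norm_zero] at hl2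
    exact zero_ne_one hl2
  obtain ⟨μ, hμ⟩ : ∃ μ : ℂ, μ ^ (m + 1) = l⁻¹ := IsAlgClosed.exists_pow_nat_eq _ (Nat.succ_pos m)
  have hμ1 : ‖μ‖ = 1 := by
    have h1 := congrArg norm hμ
    rw [norm_pow, norm_inv, hl2, inv_one] at h1
    exact (pow_eq_one_iff_of_nonneg (norm_nonneg μ) (Nat.succ_ne_zero m)).1 h1
  have hμμ : star μ * μ = 1 := by
    rw [RCLike.star_def, Complex.conj_mul', hμ1]; simp
  have hdet' : (μ • A).det = 1 := by
    rw [det_smul, hdet, Fintype.card_fin, hμ, ← hl, inv_mul_cancel₀ hl0]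
  have hpres : (μ • A)ᴴ * J m * (μ • A) = J m := by
    apply pres_of_herm
    intro v w
    rw [smul_mulVec, smul_mulVec, herm_smul_left, herm_smul_right, hherm, ← mul_assoc,
      hμμ, one_mul]
  refine ⟨ofMatrix (μ • A) hdet' hpres, μ, hμ1, fun v => ?_⟩
  rw [act, toMatrix_ofMatrix, smul_mulVec, hAv]

/-- The stabiliser of the base point acts transitively on the isotropic lines. -/
private theorem exists_rot {ξ η : Fin m → ℂ} (hξ : nq ξ = 1) (hη : nq η = 1) :
    ∃ (k : SUGroup m) (μ : ℂ), ‖μ‖ = 1 ∧ act k (base m) = μ • base m ∧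
      act k (NU.pe ξ) = μ • NU.pe η := by
  by_cases hne : ξ = η
  · exact ⟨1, 1, norm_one, by rw [act_one, one_smul], by rw [act_one, one_smul, hne]⟩
  · obtain ⟨z, hz⟩ : ∃ z : ℂ, z = herm (NU.pe η) (NU.pe ξ) := ⟨_, rfl⟩
    have hz0 : z ≠ 0 := by
      rw [hz]
      exact herm_pe_ne hη hξ (Ne.symm hne)
    have hzs : star z ≠ 0 := star_ne_zero.2 hz0
    have e1 : herm (NU.pe ξ) (NU.pe ξ) = 0 := by
      rw [herm_self, q_pe, hξ, sub_self, Complex.ofReal_zero]
    have e2 : herm (NU.pe η) (NU.pe η) = 0 := by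
      rw [herm_self, q_pe, hη, sub_self, Complex.ofReal_zero]
    have e3 : herm (NU.pe ξ) (NU.pe η) = star z := by rw [hz, ← herm_comm]
    have hde : NU.pe ξ - NU.pe η = NU.pe ξ + (-1 : ℂ) • NU.pe η := by module
    have hdp : herm (NU.pe ξ - NU.pe η) (NU.pe ξ) = -z := by
      rw [hde, herm_add_left, herm_smul_left, e1, ← hz]
      simp
    have hqd : (q (NU.pe ξ - NU.pe η) : ℂ) = -(z + star z) := by
      rw [← herm_self]
      conv_lhs => rw [hde, herm_add_left, herm_add_right, herm_add_right, herm_smul_left,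
        herm_smul_left, herm_smul_right, herm_smul_right, e1, e2, e3, ← hz]
      simp
    have hdb : herm (NU.pe ξ - NU.pe η) (base m) = 0 := by
      have h1 := herm_base_pe ξ
      have h2 := herm_base_pe η
      rw [herm_comm, hde, herm_add_right, herm_smul_right, h1, h2]
      simp
    obtain ⟨g, μ, hμ, hg⟩ := exists_crefl (NU.pe ξ - NU.pe η) z⁻¹ (by
      rw [hqd, star_inv₀]
      field_simp
      ring)
    refine ⟨g, μ, hμ, ?_, ?_⟩
    · rw [hg, hdb, mul_zero, zero_smul, add_zero]
    · rw [hg, hdp, mul_neg, inv_mul_cancel₀ hz0]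
      congr 1
      module

private theorem inc2_single : inc2 j (Pi.single 0 1) = vec (Pi.single (Fin.last j) 1) := by
  induction j with
  | zero =>
    ext i
    refine Fin.lastCases ?_ (fun i => ?_) i
    · rw [vec_last]
      rfl
    · rw [vec_castSucc, Subsingleton.elim i 0]
      rfl
  | succ j ih =>
    show inc (j + 1) (inc2 j (Pi.single 0 1)) = _
    rw [ih]
    ext i
    refine Fin.lastCases ?_ (fun i => ?_) i
    · rw [vec_last, ← Fin.succ_last, inc_succ, vec_last]
    · rw [vec_castSucc]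
      refine Fin.cases ?_ (fun i => ?_) i
      · rw [Fin.castSucc_zero, inc_zero, Pi.single_eq_of_ne (Fin.last_pos).ne]
      · rw [← Fin.succ_castSucc, inc_succ, vec_castSucc, ← Fin.succ_last, Pi.single_apply,
          Pi.single_apply]
        simp only [Fin.succ_inj]

/-- Every orthogonal pair is the image of the standard one up to scalars. -/
theorem exists_frm {u w : Vec (j + 1)} (hu : q u < 0) (hw : 0 < q w) (ho : herm u w = 0) :
    ∃ (g : SUGroup (j + 1)) (a b : ℂ), a ≠ 0 ∧ b ≠ 0 ∧
      act g (inc2 j (Pi.single 1 1)) = a • u ∧ act g (inc2 j (Pi.single 0 1)) = b • w := by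
  obtain ⟨g, c, hc, hg⟩ := exists_act_eq (show u ∈ Cone (j + 1) from hu)
  obtain ⟨w1, hw1⟩ : ∃ w1, w1 = act g⁻¹ w := ⟨_, rfl⟩
  have hw2 : w = act g w1 := by rw [hw1, ← act_mul, mul_inv_cancel, act_one]
  have hb : herm (base (j + 1)) w1 = 0 := by
    rw [hg, hw2, herm_smul_left, herm_act] at ho
    exact (mul_eq_zero.1 ho).resolve_left (star_ne_zero.2 hc)
  obtain ⟨p, hp⟩ : ∃ p : Fin (j + 1) → ℂ, p = fun i => w1 i.castSucc := ⟨_, rfl⟩
  have hwp : w1 = vec p := by
    ext i
    refine Fin.lastCases ?_ (fun i => ?_) i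
    · rw [vec_last]
      have h1 : herm (base (j + 1)) w1 = -w1 (Fin.last (j + 1)) := by
        rw [herm_eq]
        simp [base_castSucc, base_last]
      rw [h1] at hb
      exact neg_eq_zero.1 hb
    · rw [vec_castSucc, hp]
  have hnq : nq p = q w := by
    rw [hw2, q_act, hwp, q_eq, nq, vec_last, norm_zero]
    simp [vec_castSucc]
  obtain ⟨s, hs⟩ : ∃ s : ℝ, s = Real.sqrt (nq p) := ⟨_, rfl⟩
  have hs0 : 0 < s := by
    rw [hs, hnq]
    exact Real.sqrt_pos.2 hw
  have hs2 : s ^ 2 = nq p := by
    rw [hs, Real.sq_sqrt (nq_nonneg p)]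
  have hη : nq ((s : ℂ)⁻¹ • p) = 1 := by
    rw [nq]
    simp only [Pi.smul_apply, smul_eq_mul, norm_mul, norm_inv, Complex.norm_real, mul_pow]
    rw [← Finset.mul_sum, ← nq, ← hs2, Real.norm_eq_abs, abs_of_pos hs0, inv_pow,
      inv_mul_cancel₀ (pow_pos hs0 2).ne']
  have hξ : nq (Pi.single (Fin.last j) 1 : Fin (j + 1) → ℂ) = 1 := by
    rw [nq, Finset.sum_eq_single (Fin.last j)]
    · rw [Pi.single_eq_same, norm_one, one_pow]
    · intro i _ hi
      rw [Pi.single_eq_of_ne hi, norm_zero]
      norm_num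
    · intro h
      exact absurd (Finset.mem_univ _) h
  obtain ⟨k, μ, hμ, hk1, hk2⟩ := exists_rot hξ hη
  have hμ0 : μ ≠ 0 := by
    intro h
    rw [h, norm_zero] at hμ
    exact zero_ne_one hμ
  have hk3 : act k (vec (Pi.single (Fin.last j) 1)) = (μ * (s : ℂ)⁻¹) • vec p := by
    have h1 : act k (vec (Pi.single (Fin.last j) 1)) + act k (base (j + 1)) =
        μ • (vec ((s : ℂ)⁻¹ • p) + base (j + 1)) := by
      rw [← act_add]
      exact hk2
    rw [hk1, smul_add] at h1
    have h2 : vec ((s : ℂ)⁻¹ • p) = (s : ℂ)⁻¹ • vec p := by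
      ext i
      refine Fin.lastCases ?_ (fun i => ?_) i
      · rw [Pi.smul_apply, vec_last, vec_last, smul_zero]
      · rw [Pi.smul_apply, vec_castSucc, vec_castSucc, Pi.smul_apply]
    rw [← smul_smul, ← h2]
    exact add_right_cancel h1
  refine ⟨g * k, μ * c⁻¹, μ * (s : ℂ)⁻¹, mul_ne_zero hμ0 (inv_ne_zero hc), mul_ne_zero hμ0
    (inv_ne_zero (Complex.ofReal_ne_zero.2 hs0.ne')), ?_, ?_⟩
  · have h1 : inc2 j (Pi.single 1 1) = base (j + 1) := inc2_base
    rw [h1, act_mul, hk1, act_smul, hg, smul_smul, mul_assoc, inv_mul_cancel₀ hc, mul_one]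
  · rw [inc2_single, act_mul, hk3, act_smul, ← hwp, ← hw2]

end Pool.Agent.Lib.MP_5d4057_al.PU
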