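import Pool.Agent.Lib.MP_5d4057_al.Hyb.Denom
import Pool.Agent.Lib.MP_5d4057_al.HM.Defs

/-!
# PU: finitely many planes meet a compact set
-/

set_option autoImplicit false

namespace Pool.Agent.Lib.MP_5d4057_al.PU

open Matrix Pool.Agent.Lib.MP_5d4057_al Pool.Agent.Lib.MP_5d4057_al.Hyb
  Pool.Agent.Lib.MP_5d4057_al.HM

open scoped ComplexOrder MatrixOrder Matrix.Norms.L2Operator

variable {m : ℕ}

/-- The entries of a Hermitian idempotent have norm at most `1`. -/
theorem norm_le_one_of_idem {N : ℕ} {R : Matrix (Fin N) (Fin N) ℂ} (hR : R * R = R)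
    (hs : Rᴴ = R) (i j : Fin N) : ‖R i j‖ ≤ 1 := by
  have h1 : R i i = ((∑ k, ‖R i k‖ ^ 2 : ℝ) : ℂ) := by
    conv_lhs => rw [← hR, Matrix.mul_apply]
    push_cast
    refine Finset.sum_congr rfl fun k _ => ?_
    have h2 : R k i = (starRingEnd ℂ) (R i k) := by
      conv_lhs => rw [← hs]
      rfl
    rw [h2, Complex.mul_conj, Complex.normSq_eq_norm_sq]
    push_cast
    rfl
  have h2 : ‖R i i‖ = ∑ k, ‖R i k‖ ^ 2 := by
    rw [h1, Complex.norm_real, Real.norm_of_nonneg (Finset.sum_nonneg fun k _ => sq_nonneg _)]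
  have h3 : ∀ k, ‖R i k‖ ^ 2 ≤ ‖R i i‖ := fun k => by
    rw [h2]
    exact Finset.single_le_sum (f := fun k => ‖R i k‖ ^ 2) (fun k _ => sq_nonneg _)
      (Finset.mem_univ k)
  have h4 : ‖R i i‖ ≤ 1 := by
    have h5 := h3 i
    by_contra h6
    rw [not_le] at h6
    nlinarith [norm_nonneg (R i i)]
  have h5 := (h3 j).trans h4
  nlinarith [norm_nonneg (R i j)]

/-- The bound for the entries of an idempotent which is selfadjoint for the form `Lᴴ L`;
`L'` is the inverse of `L`. -/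
noncomputable def bd {N : ℕ} (L L' : Matrix (Fin N) (Fin N) ℂ) : ℝ :=
  (∑ i, ∑ p, ‖L' i p‖) * ∑ q, ∑ j, ‖L q j‖

theorem norm_le_bd {N : ℕ} {L L' R : Matrix (Fin N) (Fin N) ℂ} (h1 : L' * L = 1)
    (hR : R * R = R) (hs : Rᴴ * (Lᴴ * L) = Lᴴ * L * R) (i j : Fin N) : ‖R i j‖ ≤ bd L L' := by
  have h2 : L * L' = 1 := mul_eq_one_comm.1 h1
  obtain ⟨S, hS⟩ : ∃ S, S = L * R * L' := ⟨_, rfl⟩
  have h3 : S * S = S := by
    calc S * S = L * R * (L' * L) * R * L' := by rw [hS]; simp only [Matrix.mul_assoc]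
      _ = L * (R * R) * L' := by rw [h1]; simp only [Matrix.mul_assoc, Matrix.one_mul]
      _ = S := by rw [hR, hS]
  have h4 : Sᴴ = S := by
    have h5 : L'ᴴ * Lᴴ = 1 := by rw [← conjTranspose_mul, h2, conjTranspose_one]
    calc Sᴴ = L'ᴴ * Rᴴ * (Lᴴ * (L * L')) := by
          rw [hS, h2, Matrix.mul_one, conjTranspose_mul, conjTranspose_mul]
          simp only [Matrix.mul_assoc]
      _ = L'ᴴ * (Rᴴ * (Lᴴ * L)) * L' := by simp only [Matrix.mul_assoc]
      _ = L'ᴴ * Lᴴ * (L * R * L') := by rw [hs]; simp only [Matrix.mul_assoc]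
      _ = S := by rw [h5, Matrix.one_mul, hS]
  have h5 : R = L' * S * L := by
    calc R = L' * L * R * (L' * L) := by rw [h1, Matrix.one_mul, Matrix.mul_one]
      _ = L' * S * L := by rw [hS]; simp only [Matrix.mul_assoc]
  have h6 := norm_le_one_of_idem h3 h4
  have h7 : ‖R i j‖ ≤ ∑ k, (∑ l, ‖L' i l‖) * ‖L k j‖ := by
    rw [h5, Matrix.mul_apply]
    refine (norm_sum_le _ _).trans (Finset.sum_le_sum fun k _ => ?_)
    rw [norm_mul]
    refine mul_le_mul_of_nonneg_right ?_ (norm_nonneg _)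
    rw [Matrix.mul_apply]
    refine (norm_sum_le _ _).trans (Finset.sum_le_sum fun l _ => ?_)
    rw [norm_mul]
    exact mul_le_of_le_one_right (norm_nonneg _) (h6 _ _)
  refine h7.trans ?_
  rw [← Finset.mul_sum, bd]
  refine mul_le_mul ?_ ?_ (Finset.sum_nonneg fun k _ => norm_nonneg _)
    (Finset.sum_nonneg fun k _ => Finset.sum_nonneg fun l _ => norm_nonneg _)
  · exact Finset.single_le_sum (f := fun i => ∑ p, ‖L' i p‖)
      (fun i _ => Finset.sum_nonneg fun l _ => norm_nonneg _) (Finset.mem_univ i)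
  · refine Finset.sum_le_sum fun k _ => ?_
    exact Finset.single_le_sum (f := fun j => ‖L k j‖) (fun j _ => norm_nonneg _)
      (Finset.mem_univ j)

/-- Idempotents which are selfadjoint for a definite form are bounded. -/
theorem exists_bd_posDef {N : ℕ} {M : Matrix (Fin N) (Fin N) ℂ} (hM : M.PosDef ∨ (-M).PosDef) :
    ∃ C : ℝ, ∀ R : Matrix (Fin N) (Fin N) ℂ, R * R = R → Rᴴ * M = M * R → ∀ i j, ‖R i j‖ ≤ C := by
  have key : ∀ M : Matrix (Fin N) (Fin N) ℂ, M.PosDef → ∃ C : ℝ,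
      ∀ R : Matrix (Fin N) (Fin N) ℂ, R * R = R → Rᴴ * M = M * R → ∀ i j, ‖R i j‖ ≤ C := by
    intro M hM
    obtain ⟨L, hL⟩ := CStarAlgebra.nonneg_iff_eq_star_mul_self.1 hM.posSemidef.nonneg
    rw [star_eq_conjTranspose] at hL
    have hdet : L.det ≠ 0 := by
      intro h0
      have h1 : M.det = 0 := by rw [hL, det_mul, h0, mul_zero]
      have h2 := hM.det_pos
      rw [h1] at h2
      exact lt_irrefl _ h2
    refine ⟨bd L L⁻¹, fun R hR hs i j => norm_le_bd ?_ hR ?_ i j⟩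
    · exact Matrix.nonsing_inv_mul L (isUnit_iff_ne_zero.2 hdet)
    · rw [← hL]
      exact hs
  rcases hM with hM | hM
  · exact key M hM
  · obtain ⟨C, hC⟩ := key (-M) hM
    refine ⟨C, fun R hR hs => hC R hR ?_⟩
    rw [Matrix.mul_neg, Matrix.neg_mul, hs]

/-- Projections of a compact family of planes are bounded. -/
theorem exists_bd_cpt {F : Set (SUGroup m)} (hF : IsCompact F) :
    ∃ C : ℝ, ∀ R : Mat (m + 1), R * R = R → Rᴴ * J m = J m * R →
      (∃ g ∈ F, R *ᵥ act g (base m) = act g (base m)) → ∀ i j, ‖R i j‖ ≤ C := by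
  have hcont : Continuous fun g : SUGroup m => bd (g⁻¹).toMatrix g.toMatrix := by
    have h1 := continuous_toMatrix m
    have h2 : Continuous fun g : SUGroup m => (g⁻¹).toMatrix := h1.comp continuous_inv
    unfold bd
    refine Continuous.mul ?_ ?_
    · exact continuous_finsetSum _ fun i _ => continuous_finsetSum _ fun j _ =>
        (h1.matrix_elem i j).norm
    · exact continuous_finsetSum _ fun i _ => continuous_finsetSum _ fun j _ =>
        (h2.matrix_elem i j).norm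
  obtain ⟨C, hC⟩ := (hF.image hcont).bddAbove
  refine ⟨C, fun R hR hs hg i j => ?_⟩
  obtain ⟨g, hgF, hg⟩ := hg
  refine (norm_le_bd (L := (g⁻¹).toMatrix) (L' := g.toMatrix) (toMatrix_mul_inv g) hR ?_ i j).trans
    (hC ⟨g, hgF, rfl⟩)
  -- `S = g⁻¹ R g` fixes the base point and is selfadjoint for `J`, hence Hermitian
  obtain ⟨S, hS⟩ : ∃ S, S = (g⁻¹).toMatrix * R * g.toMatrix := ⟨_, rfl⟩
  have e1 := toMatrix_mul_inv g
  have e2 := toMatrix_inv_mul g
  have hp := pres g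
  have hJg : g.toMatrixᴴ * J m = J m * (g⁻¹).toMatrix := by
    calc g.toMatrixᴴ * J m = g.toMatrixᴴ * J m * (g.toMatrix * (g⁻¹).toMatrix) := by
          rw [e1, Matrix.mul_one]
      _ = g.toMatrixᴴ * J m * g.toMatrix * (g⁻¹).toMatrix := by simp only [Matrix.mul_assoc]
      _ = _ := by rw [hp]
  have hJg' : (g⁻¹).toMatrixᴴ * J m = J m * g.toMatrix := by
    have hp' := pres g⁻¹
    calc (g⁻¹).toMatrixᴴ * J m = (g⁻¹).toMatrixᴴ * J m * ((g⁻¹).toMatrix * g.toMatrix) := by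
          rw [e2, Matrix.mul_one]
      _ = (g⁻¹).toMatrixᴴ * J m * (g⁻¹).toMatrix * g.toMatrix := by simp only [Matrix.mul_assoc]
      _ = _ := by rw [hp']
  have hSJ : Sᴴ * J m = J m * S := by
    calc Sᴴ * J m = g.toMatrixᴴ * (Rᴴ * ((g⁻¹).toMatrixᴴ * J m)) := by
          rw [hS, conjTranspose_mul, conjTranspose_mul]
          simp only [Matrix.mul_assoc]
      _ = g.toMatrixᴴ * J m * (R * g.toMatrix) := by
          rw [hJg', ← Matrix.mul_assoc Rᴴ, hs]
          simp only [Matrix.mul_assoc]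
      _ = J m * S := by
          rw [hJg, hS]
          simp only [Matrix.mul_assoc]
  have hSb : S *ᵥ base m = base m := by
    have h1 : S *ᵥ base m = (g⁻¹).toMatrix *ᵥ (R *ᵥ act g (base m)) := by
      rw [hS, act, mulVec_mulVec, mulVec_mulVec]
    rw [h1, hg, act, mulVec_mulVec, e2, one_mulVec]
  have hcol : ∀ i, S i (Fin.last m) = if i = Fin.last m then 1 else 0 := by
    intro i
    have h1 := congrFun hSb i
    rw [base, mulVec_single_one] at h1
    have h2 : S i (Fin.last m) = (Pi.single (Fin.last m) (1 : ℂ) : Fin (m + 1) → ℂ) i := h1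
    rw [h2, Pi.single_apply]
  have hent : ∀ i j, (starRingEnd ℂ) (S j i) * (J m) j j = (J m) i i * S i j := by
    intro i j
    have h1 := congrFun (congrFun hSJ i) j
    rw [J, Matrix.mul_diagonal, Matrix.diagonal_mul] at h1
    rw [J, Matrix.diagonal_apply_eq, Matrix.diagonal_apply_eq]
    exact h1
  have hJn : J m (Fin.last m) (Fin.last m) = -1 := by
    rw [J, Matrix.diagonal_apply_eq, if_pos rfl]
  have hJi : ∀ i, i ≠ Fin.last m → J m i i = 1 := fun i hi => by
    rw [J, Matrix.diagonal_apply_eq, if_neg hi]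
  have hSS : Sᴴ = S := by
    ext i j
    show (starRingEnd ℂ) (S j i) = S i j
    by_cases hi : i = Fin.last m
    · by_cases hj : j = Fin.last m
      · rw [hi, hj, hcol, if_pos rfl, map_one]
      · have h1 := hent i j
        rw [hi, hJn, hJi j hj, hcol, if_neg hj, map_zero, zero_mul] at h1
        have h2 : S (Fin.last m) j = 0 := by
          have : -S (Fin.last m) j = 0 := by rw [← neg_one_mul]; exact h1.symm
          exact neg_eq_zero.1 this
        rw [hi, hcol, if_neg hj, map_zero, h2]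
    · by_cases hj : j = Fin.last m
      · have h1 := hent i j
        rw [hj, hJn, hJi i hi, hcol, if_neg hi, mul_zero] at h1
        rw [hj, hcol, if_neg hi]
        have h2 : (starRingEnd ℂ) (S (Fin.last m) i) * -1 = 0 := h1
        simpa using h2
      · have h1 := hent i j
        rw [hJi i hi, hJi j hj, mul_one, one_mul] at h1
        exact h1
  have hR' : R = g.toMatrix * S * (g⁻¹).toMatrix := by
    calc R = g.toMatrix * (g⁻¹).toMatrix * R * (g.toMatrix * (g⁻¹).toMatrix) := by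
          rw [e1, Matrix.one_mul, Matrix.mul_one]
      _ = _ := by rw [hS]; simp only [Matrix.mul_assoc]
  have e3 : g.toMatrixᴴ * (g⁻¹).toMatrixᴴ = 1 := by
    rw [← conjTranspose_mul, e2, conjTranspose_one]
  calc Rᴴ * ((g⁻¹).toMatrixᴴ * (g⁻¹).toMatrix)
      = (g⁻¹).toMatrixᴴ * Sᴴ * (g.toMatrixᴴ * (g⁻¹).toMatrixᴴ) * (g⁻¹).toMatrix := by
        rw [hR', conjTranspose_mul, conjTranspose_mul]
        simp only [Matrix.mul_assoc]
    _ = (g⁻¹).toMatrixᴴ * S * (g⁻¹).toMatrix := by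
        rw [e3, hSS, Matrix.mul_one]
    _ = (g⁻¹).toMatrixᴴ * ((g⁻¹).toMatrix * g.toMatrix) * S * (g⁻¹).toMatrix := by
        rw [e2, Matrix.mul_one]
    _ = (g⁻¹).toMatrixᴴ * (g⁻¹).toMatrix * R := by
        rw [hR']
        simp only [Matrix.mul_assoc]

/-- The matrix over `K` of an endomorphism which is selfadjoint for `J`, and the bound for its
conjugates at the definite places. -/
theorem exists_bd_place {K : Subfield ℂ} {H : Matrix (Fin (m + 1)) (Fin (m + 1)) K}
    {B : Mat (m + 1)} (hf : IsForm m K H B) {F : Set (SUGroup m)} (hF : IsCompact F)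
    (τ : K →+* ℂ) : ∃ C : ℝ, ∀ R : Mat (m + 1), R * R = R → Rᴴ * J m = J m * R →
      (∃ g ∈ F, R *ᵥ act g (base m) = act g (base m)) →
      ∀ G : Matrix (Fin (m + 1)) (Fin (m + 1)) K, (∀ i j, (G i j : ℂ) = (B⁻¹ * R * B) i j) →
        ∀ i j, ‖τ (G i j)‖ ≤ C := by
  have hBu : IsUnit B.det := isUnit_iff_ne_zero.2 hf.det
  have hB1 : B * B⁻¹ = 1 := Matrix.mul_nonsing_inv B hBu
  obtain ⟨C, hC⟩ := exists_bd_cpt hF
  have hid : ∀ R : Mat (m + 1), R * R = R → Rᴴ * J m = J m * R →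
      (∃ g ∈ F, R *ᵥ act g (base m) = act g (base m)) → ∀ i j,
      ‖(B⁻¹ * R * B) i j‖ ≤ ∑ k, (∑ l, ‖B⁻¹ i l‖ * C) * ‖B k j‖ := by
    intro R h1 h2 h3 i j
    have h4 := hC R h1 h2 h3
    rw [Matrix.mul_apply]
    refine (norm_sum_le _ _).trans (Finset.sum_le_sum fun k _ => ?_)
    rw [norm_mul]
    refine mul_le_mul_of_nonneg_right ?_ (norm_nonneg _)
    rw [Matrix.mul_apply]
    refine (norm_sum_le _ _).trans (Finset.sum_le_sum fun l _ => ?_)
    rw [norm_mul]
    exact mul_le_mul_of_nonneg_left (h4 _ _) (norm_nonneg _)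
  have hid' : ∃ C : ℝ, ∀ R : Mat (m + 1), R * R = R → Rᴴ * J m = J m * R →
      (∃ g ∈ F, R *ᵥ act g (base m) = act g (base m)) → ∀ i j,
      ‖(B⁻¹ * R * B) i j‖ ≤ C := by
    refine ⟨∑ i, ∑ j, |∑ k, (∑ l, ‖B⁻¹ i l‖ * C) * ‖B k j‖|, fun R h1 h2 h3 i j => ?_⟩
    refine (hid R h1 h2 h3 i j).trans ((le_abs_self _).trans ?_)
    refine le_trans ?_ (Finset.single_le_sum
      (f := fun i => ∑ j, |∑ k, (∑ l, ‖B⁻¹ i l‖ * C) * ‖B k j‖|)
      (fun i _ => Finset.sum_nonneg fun j _ => abs_nonneg _) (Finset.mem_univ i))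
    exact Finset.single_le_sum (f := fun j => |∑ k, (∑ l, ‖B⁻¹ i l‖ * C) * ‖B k j‖|)
      (fun j _ => abs_nonneg _) (Finset.mem_univ j)
  obtain ⟨C', hC'⟩ := hid'
  have hdef : ((H.map τ).PosDef ∨ (-(H.map τ)).PosDef) → ∃ C : ℝ, ∀ R : Mat (m + 1),
      R * R = R → Rᴴ * J m = J m * R →
      (∃ g ∈ F, R *ᵥ act g (base m) = act g (base m)) →
      ∀ G : Matrix (Fin (m + 1)) (Fin (m + 1)) K, (∀ i j, (G i j : ℂ) = (B⁻¹ * R * B) i j) →
        ∀ i j, ‖τ (G i j)‖ ≤ C := by
    intro hd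
    obtain ⟨E, hE⟩ := exists_bd_posDef hd
    refine ⟨E, fun R h1 h2 _ G hG i j => ?_⟩
    have hGm : G.map (fun x : K => (x : ℂ)) = B⁻¹ * R * B := by
      ext i j
      exact hG i j
    have hinj : Function.Injective (fun x : K => (x : ℂ)) := Subtype.val_injective
    -- `G` is idempotent
    have hGG : G * G = G := by
      have h3 : (G * G).map K.subtype = G.map K.subtype := by
        rw [Matrix.map_mul]
        show G.map (fun x : K => (x : ℂ)) * G.map (fun x : K => (x : ℂ)) =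
          G.map (fun x : K => (x : ℂ))
        rw [hGm]
        calc B⁻¹ * R * B * (B⁻¹ * R * B) = B⁻¹ * R * (B * B⁻¹) * R * B := by
              simp only [Matrix.mul_assoc]
          _ = B⁻¹ * (R * R) * B := by rw [hB1]; simp only [Matrix.mul_assoc, Matrix.one_mul]
          _ = _ := by rw [h1]
      ext i j
      have h4 := congrFun (congrFun h3 i) j
      exact h4
    have hGτ : G.map τ * G.map τ = G.map τ := by
      rw [← Matrix.map_mul, hGG]
    -- `G` is selfadjoint for `H`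
    obtain ⟨hNF, -, hst, hcj⟩ := hf.cm
    have hsel : ∀ i j, ∑ k, (starRingEnd ℂ) (G k i : ℂ) * (H k j : ℂ) =
        ∑ k, (H i k : ℂ) * (G k j : ℂ) := by
      intro i j
      have h3 : (B⁻¹ * R * B)ᴴ * H.map (fun x : K => (x : ℂ)) =
          H.map (fun x : K => (x : ℂ)) * (B⁻¹ * R * B) := by
        have h5 : (B⁻¹)ᴴ * Bᴴ = 1 := by rw [← conjTranspose_mul, hB1, conjTranspose_one]
        have h6 : Bᴴ * (B⁻¹)ᴴ = 1 := by
          rw [← conjTranspose_mul, Matrix.nonsing_inv_mul B hBu, conjTranspose_one]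
        rw [← hf.form, conjTranspose_mul, conjTranspose_mul]
        calc Bᴴ * (Rᴴ * B⁻¹ᴴ) * (Bᴴ * J m * B) = Bᴴ * Rᴴ * (B⁻¹ᴴ * Bᴴ) * J m * B := by
              simp only [Matrix.mul_assoc]
          _ = Bᴴ * (Rᴴ * J m) * B := by
              rw [h5, Matrix.mul_one]
              simp only [Matrix.mul_assoc]
          _ = Bᴴ * J m * (B * B⁻¹) * R * B := by
              rw [h2, hB1, Matrix.mul_one]
              simp only [Matrix.mul_assoc]
          _ = _ := by simp only [Matrix.mul_assoc]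
      rw [← hGm] at h3
      have h4 := congrFun (congrFun h3 i) j
      rw [Matrix.mul_apply, Matrix.mul_apply] at h4
      exact h4
    have hselτ : (G.map τ)ᴴ * H.map τ = H.map τ * G.map τ := by
      ext i j
      rw [Matrix.mul_apply, Matrix.mul_apply]
      have h3 : ∀ k, (G.map τ)ᴴ i k = τ ⟨(starRingEnd ℂ) (G k i : ℂ), hst _ (G k i).2⟩ := by
        intro k
        rw [hcj τ (G k i) ⟨(starRingEnd ℂ) (G k i : ℂ), hst _ (G k i).2⟩ rfl]
        rfl
      simp only [h3, Matrix.map_apply]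
      simp only [← map_mul, ← map_sum]
      congr 1
      apply hinj
      show ((∑ k, (⟨(starRingEnd ℂ) (G k i : ℂ), hst _ (G k i).2⟩ : K) * H k j : K) : ℂ) =
        ((∑ k, H i k * G k j : K) : ℂ)
      push_cast
      exact hsel i j
    exact hE (G.map τ) hGτ hselτ i j
  rcases hf.definite τ with h | h | h | h
  · refine ⟨C', fun R h1 h2 h3 G hG i j => ?_⟩
    rw [h, hG]
    exact hC' R h1 h2 h3 i j
  · refine ⟨C', fun R h1 h2 h3 G hG i j => ?_⟩
    rw [h, RCLike.norm_conj, hG]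
    exact hC' R h1 h2 h3 i j
  · exact hdef (Or.inl h)
  · exact hdef (Or.inr h)

/-- Only finitely many planes in the orbit of a rational plane meet a compact set. -/
theorem finite_proj {K : Subfield ℂ} {H : Matrix (Fin (m + 1)) (Fin (m + 1)) K}
    {B : Mat (m + 1)} (hf : IsForm m K H B) {Γ : Subgroup (SUGroup m)}
    (hΓ : Γ ≤ integralPoints m K B) {P : Mat (m + 1)} (hP : P * P = P)
    (hPJ : Pᴴ * J m = J m * P) (hPK : EntriesIn K B P) {F : Set (SUGroup m)}
    (hF : IsCompact F) :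
    {Q : Mat (m + 1) | ∃ γ ∈ Γ, Q = γ.toMatrix * P * (γ⁻¹).toMatrix ∧
      ∃ g ∈ F, Q *ᵥ act g (base m) = act g (base m)}.Finite := by
  have hK : NumberField K := hf.cm.1
  have hBu : IsUnit B.det := isUnit_iff_ne_zero.2 hf.det
  have hB1 : B * B⁻¹ = 1 := Matrix.mul_nonsing_inv B hBu
  obtain ⟨N, hN, hden⟩ := exists_denom hK
    (fun x : Fin (m + 1) × Fin (m + 1) => (⟨(B⁻¹ * P * B) x.1 x.2, hPK x.1 x.2⟩ : K))
  have hNC : (N : ℂ) ≠ 0 := by exact_mod_cast hN.ne'
  have hex := exists_bd_place hf hF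
  choose E hE using hex
  have hfin : ({x : K | IsIntegral ℤ x ∧ ∀ φ : K →+* ℂ, ‖φ x‖ ≤ N * ∑ τ, |E τ|}).Finite :=
    NumberField.Embeddings.finite_of_norm_le K ℂ _
  obtain ⟨S, hS⟩ : ∃ S : Set ℂ, S = (fun x : K => (x : ℂ)) '' {x : K | IsIntegral ℤ x ∧
    ∀ φ : K →+* ℂ, ‖φ x‖ ≤ N * ∑ τ, |E τ|} := ⟨_, rfl⟩
  have hSf : S.Finite := by rw [hS]; exact hfin.image _
  have hpi : (Set.univ.pi fun _ : Fin (m + 1) => Set.univ.pi fun _ : Fin (m + 1) => S).Finite :=
    Set.Finite.pi fun _ => Set.Finite.pi fun _ => hSf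
  refine Set.Finite.of_finite_image (f := fun Q : Mat (m + 1) => fun i j =>
    (N : ℂ) * (B⁻¹ * Q * B) i j) (hpi.subset ?_) ?_
  · rintro _ ⟨Q, ⟨γ, hγ, hQ, hg⟩, rfl⟩
    rw [Set.mem_univ_pi]
    intro i
    rw [Set.mem_univ_pi]
    intro j
    have e1 := toMatrix_mul_inv γ
    have e2 := toMatrix_inv_mul γ
    have hγ' := hΓ hγ
    have hconj : B⁻¹ * Q * B = (B⁻¹ * γ.toMatrix * B) * (B⁻¹ * P * B) *
        (B⁻¹ * (γ⁻¹).toMatrix * B) := by
      rw [hQ, inv_mul_conj_mul, inv_mul_conj_mul]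
    -- integrality
    have hint : ∀ i j, (N : ℂ) * (B⁻¹ * Q * B) i j ∈ integers K := by
      intro i j
      have hsum : (N : ℂ) * (B⁻¹ * Q * B) i j =
          ∑ l, (∑ p, (B⁻¹ * γ.toMatrix * B) i p * ((N : ℂ) * (B⁻¹ * P * B) p l)) *
            (B⁻¹ * (γ⁻¹).toMatrix * B) l j := by
        rw [hconj, Matrix.mul_apply, Finset.mul_sum]
        refine Finset.sum_congr rfl fun l _ => ?_
        rw [Matrix.mul_apply, Finset.sum_mul, Finset.sum_mul, Finset.mul_sum]
        refine Finset.sum_congr rfl fun p _ => ?_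
        ring
      rw [hsum]
      refine Subring.sum_mem _ fun l _ => Subring.mul_mem _
        (Subring.sum_mem _ fun p _ => Subring.mul_mem _ (hγ'.1 i p) (hden (p, l))) (hγ'.2 l j)
    -- idempotent, selfadjoint
    have hQQ : Q * Q = Q := by
      calc Q * Q = γ.toMatrix * P * ((γ⁻¹).toMatrix * γ.toMatrix) * P * (γ⁻¹).toMatrix := by
            rw [hQ]; simp only [Matrix.mul_assoc]
        _ = γ.toMatrix * (P * P) * (γ⁻¹).toMatrix := by
            rw [e2, Matrix.mul_one]; simp only [Matrix.mul_assoc]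
        _ = Q := by rw [hP, hQ]
    have hJγ : γ.toMatrixᴴ * J m = J m * (γ⁻¹).toMatrix := by
      calc γ.toMatrixᴴ * J m = γ.toMatrixᴴ * J m * (γ.toMatrix * (γ⁻¹).toMatrix) := by
            rw [e1, Matrix.mul_one]
        _ = γ.toMatrixᴴ * J m * γ.toMatrix * (γ⁻¹).toMatrix := by simp only [Matrix.mul_assoc]
        _ = _ := by rw [pres γ]
    have hJγ' : (γ⁻¹).toMatrixᴴ * J m = J m * γ.toMatrix := by
      calc (γ⁻¹).toMatrixᴴ * J m = (γ⁻¹).toMatrixᴴ * J m * ((γ⁻¹).toMatrix * γ.toMatrix) := by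
            rw [e2, Matrix.mul_one]
        _ = (γ⁻¹).toMatrixᴴ * J m * (γ⁻¹).toMatrix * γ.toMatrix := by
            simp only [Matrix.mul_assoc]
        _ = _ := by rw [pres γ⁻¹]
    have hQJ : Qᴴ * J m = J m * Q := by
      calc Qᴴ * J m = (γ⁻¹).toMatrixᴴ * (Pᴴ * (γ.toMatrixᴴ * J m)) := by
            rw [hQ, conjTranspose_mul, conjTranspose_mul]
            simp only [Matrix.mul_assoc]
        _ = (γ⁻¹).toMatrixᴴ * J m * (P * (γ⁻¹).toMatrix) := by
            rw [hJγ, ← Matrix.mul_assoc Pᴴ, hPJ]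
            simp only [Matrix.mul_assoc]
        _ = J m * Q := by
            rw [hJγ', hQ]
            simp only [Matrix.mul_assoc]
    have hQK : ∀ i j, (B⁻¹ * Q * B) i j ∈ K := by
      intro i j
      have h1 : (N : ℂ) * (B⁻¹ * Q * B) i j ∈ K := (hint i j).1
      have h2 : (B⁻¹ * Q * B) i j = (N : ℂ)⁻¹ * ((N : ℂ) * (B⁻¹ * Q * B) i j) := by
        rw [← mul_assoc, inv_mul_cancel₀ hNC, one_mul]
      rw [h2]
      exact K.mul_mem (K.inv_mem (natCast_mem K N)) h1
    obtain ⟨G, hG⟩ : ∃ G : Matrix (Fin (m + 1)) (Fin (m + 1)) K,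
        ∀ i j, (G i j : ℂ) = (B⁻¹ * Q * B) i j :=
      ⟨fun i j => ⟨(B⁻¹ * Q * B) i j, hQK i j⟩, fun i j => rfl⟩
    rw [hS]
    refine ⟨(N : K) * G i j, ⟨?_, ?_⟩, ?_⟩
    · have h1 : IsIntegral ℤ ((N : ℂ) * (B⁻¹ * Q * B) i j) := (hint i j).2
      rw [← hG] at h1
      have h2 : IsIntegral ℤ (algebraMap K ℂ ((N : K) * G i j)) := by
        convert h1 using 1
        rw [map_mul, map_natCast]
        rfl
      exact (isIntegral_algebraMap_iff (algebraMap K ℂ).injective).1 h2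
    · intro φ
      rw [map_mul, map_natCast, norm_mul, Complex.norm_natCast]
      refine mul_le_mul_of_nonneg_left ?_ (Nat.cast_nonneg _)
      refine (hE φ Q hQQ hQJ hg G hG i j).trans ((le_abs_self _).trans ?_)
      exact Finset.single_le_sum (f := fun τ => |E τ|) (fun τ _ => abs_nonneg _)
        (Finset.mem_univ φ)
    · show (((N : K) * G i j : K) : ℂ) = (N : ℂ) * (B⁻¹ * Q * B) i j
      rw [← hG]
      push_cast
      rfl
  · intro Q _ R _ hQR
    have h1 : B⁻¹ * Q * B = B⁻¹ * R * B := by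
      ext i j
      have := congrFun (congrFun hQR i) j
      exact mul_left_cancel₀ hNC this
    calc Q = B * (B⁻¹ * Q * B) * B⁻¹ := by
          calc Q = B * B⁻¹ * Q * (B * B⁻¹) := by rw [hB1, Matrix.one_mul, Matrix.mul_one]
            _ = _ := by simp only [Matrix.mul_assoc]
      _ = B * (B⁻¹ * R * B) * B⁻¹ := by rw [h1]
      _ = R := by
          calc B * (B⁻¹ * R * B) * B⁻¹ = B * B⁻¹ * R * (B * B⁻¹) := by
                simp only [Matrix.mul_assoc]
            _ = R := by rw [hB1, Matrix.one_mul, Matrix.mul_one]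

end Pool.Agent.Lib.MP_5d4057_al.PU
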