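import Pool.Agent.Lib.MP_5d4057_al.PU.Fin
import Pool.Agent.Lib.MP_5d4057_al.HM.Basic

/-!
# PU: the stabiliser of a rational plane acts cocompactly
-/

set_option autoImplicit false

namespace Pool.Agent.Lib.MP_5d4057_al.PU

open Matrix Pool.Agent.Lib.MP_5d4057_al Pool.Agent.Lib.MP_5d4057_al.Hyb
  Pool.Agent.Lib.MP_5d4057_al.HM

variable {m : ℕ}

/-- If the negative vectors of the rational plane `P` are in the cocompact part of `Γ`, then the
stabiliser of the plane acts cocompactly on it. -/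
theorem coc_plane {K : Subfield ℂ} {H : Matrix (Fin (m + 1)) (Fin (m + 1)) K}
    {B : Mat (m + 1)} (hf : IsForm m K H B) {Γ : Subgroup (SUGroup m)}
    (hΓ : Γ ≤ integralPoints m K B) {P : Mat (m + 1)} (hP : P * P = P)
    (hPJ : Pᴴ * J m = J m * P) (hPK : EntriesIn K B P) {F : Set (SUGroup m)}
    (hF : IsCompact F)
    (hc : ∀ v ∈ Cone m, P *ᵥ v = v → ∃ γ ∈ Γ, ∃ g ∈ F, ∃ c : ℂ, c ≠ 0 ∧
      act γ v = c • act g (base m)) :
    ∃ D : Set (Vec m), IsCompact D ∧ D ⊆ Cone m ∧ (∀ x ∈ D, P *ᵥ x = x) ∧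
      ∀ v ∈ Cone m, P *ᵥ v = v → ∃ γ ∈ Γ, γ.toMatrix * P = P * γ.toMatrix ∧
        ∃ c : ℂ, c ≠ 0 ∧ c • act γ v ∈ D := by
  have hS := finite_proj hf hΓ hP hPJ hPK hF
  obtain ⟨S, hSdef⟩ : ∃ S, S = {Q : Mat (m + 1) | ∃ γ ∈ Γ, Q = γ.toMatrix * P * (γ⁻¹).toMatrix ∧
      ∃ g ∈ F, Q *ᵥ act g (base m) = act g (base m)} := ⟨_, rfl⟩
  rw [← hSdef] at hS
  have hch : ∀ Q : Mat (m + 1), ∃ γ : SUGroup m, Q ∈ S →
      γ ∈ Γ ∧ Q = γ.toMatrix * P * (γ⁻¹).toMatrix := by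
    intro Q
    by_cases hQ : Q ∈ S
    · rw [hSdef] at hQ
      obtain ⟨γ, hγ, hQ, -⟩ := hQ
      exact ⟨γ, fun _ => ⟨hγ, hQ⟩⟩
    · exact ⟨1, fun h => absurd h hQ⟩
  choose t ht using hch
  refine ⟨⋃ Q ∈ S, ((fun g : SUGroup m => act (t Q)⁻¹ (act g (base m))) '' F) ∩
    {x | P *ᵥ x = x}, ?_, ?_, ?_, ?_⟩
  · refine hS.isCompact_biUnion fun Q hQ => ?_
    refine IsCompact.inter_right (hF.image ?_) ?_
    · have h1 := continuous_toMatrix m
      exact (continuous_const.matrix_mulVec (h1.matrix_mulVec continuous_const))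
    · exact isClosed_eq (continuous_const.matrix_mulVec continuous_id) continuous_id
  · intro x hx
    simp only [Set.mem_iUnion] at hx
    obtain ⟨Q, hQ, ⟨g, hg, rfl⟩, -⟩ := hx
    exact act_mem _ (act_mem _ (base_mem m))
  · intro x hx
    simp only [Set.mem_iUnion] at hx
    obtain ⟨Q, hQ, -, h⟩ := hx
    exact h
  · intro v hv hPv
    obtain ⟨γ, hγ, g, hg, c, hc0, hcv⟩ := hc v hv hPv
    obtain ⟨Q, hQ⟩ : ∃ Q, Q = γ.toMatrix * P * (γ⁻¹).toMatrix := ⟨_, rfl⟩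
    have hgb : act g (base m) = c⁻¹ • act γ v := by
      rw [hcv, smul_smul, inv_mul_cancel₀ hc0, one_smul]
    have hQg : Q *ᵥ act g (base m) = act g (base m) := by
      rw [hgb, mulVec_smul, hQ, act, mulVec_mulVec, Matrix.mul_assoc, toMatrix_inv_mul,
        Matrix.mul_one, ← mulVec_mulVec, hPv]
    have hQS : Q ∈ S := by
      rw [hSdef]
      exact ⟨γ, hγ, hQ, g, hg, hQg⟩
    obtain ⟨ht1, ht2⟩ := ht Q hQS
    have e1 := toMatrix_mul_inv γ
    have e2 := toMatrix_inv_mul γ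
    have e3 := toMatrix_mul_inv (t Q)
    have e4 := toMatrix_inv_mul (t Q)
    have hcomm : ((t Q)⁻¹ * γ).toMatrix * P = P * ((t Q)⁻¹ * γ).toMatrix := by
      obtain ⟨s, hs⟩ : ∃ s, s = t Q := ⟨_, rfl⟩
      rw [← hs] at ht2 e3 e4
      rw [← hs, toMatrix_mul]
      have h1 : γ.toMatrix * P = Q * γ.toMatrix := by
        rw [hQ, Matrix.mul_assoc, e2, Matrix.mul_one]
      have h2 : (s⁻¹).toMatrix * Q = P * (s⁻¹).toMatrix := by
        rw [ht2, ← Matrix.mul_assoc, ← Matrix.mul_assoc, e4, Matrix.one_mul]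
      rw [Matrix.mul_assoc, h1, ← Matrix.mul_assoc, h2, Matrix.mul_assoc]
    refine ⟨(t Q)⁻¹ * γ, Γ.mul_mem (Γ.inv_mem ht1) hγ, hcomm, c⁻¹, inv_ne_zero hc0, ?_⟩
    have h1 : c⁻¹ • act ((t Q)⁻¹ * γ) v = act (t Q)⁻¹ (act g (base m)) := by
      rw [act_mul, hcv, act_smul, smul_smul, inv_mul_cancel₀ hc0, one_smul]
    simp only [Set.mem_iUnion]
    refine ⟨Q, hQS, ?_, ?_⟩
    · rw [h1]
      exact ⟨g, hg, rfl⟩
    · show P *ᵥ (c⁻¹ • act ((t Q)⁻¹ * γ) v) = c⁻¹ • act ((t Q)⁻¹ * γ) v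
      rw [mulVec_smul, act, mulVec_mulVec, ← hcomm, ← mulVec_mulVec, hPv]

/-- The same for a group which is commensurable with the integral points. -/
theorem coc_plane_comm {K : Subfield ℂ} {H : Matrix (Fin (m + 1)) (Fin (m + 1)) K}
    {B : Mat (m + 1)} (hf : IsForm m K H B) {Γ : Subgroup (SUGroup m)}
    (hΓ : (integralPoints m K B).relIndex Γ ≠ 0) {P : Mat (m + 1)} (hP : P * P = P)
    (hPJ : Pᴴ * J m = J m * P) (hPK : EntriesIn K B P) {F : Set (SUGroup m)}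
    (hF : IsCompact F)
    (hc : ∀ v ∈ Cone m, P *ᵥ v = v → ∃ γ ∈ Γ, ∃ g ∈ F, ∃ c : ℂ, c ≠ 0 ∧
      act γ v = c • act g (base m)) :
    ∃ D : Set (Vec m), IsCompact D ∧ D ⊆ Cone m ∧ (∀ x ∈ D, P *ᵥ x = x) ∧
      ∀ v ∈ Cone m, P *ᵥ v = v → ∃ γ ∈ Γ, γ ∈ integralPoints m K B ∧
        γ.toMatrix * P = P * γ.toMatrix ∧ ∃ c : ℂ, c ≠ 0 ∧ c • act γ v ∈ D := by
  have hfin : ((integralPoints m K B).subgroupOf Γ).FiniteIndex := ⟨hΓ⟩
  obtain ⟨T, hT⟩ : ∃ T : Finset Γ, ∀ γ : Γ, ∃ t ∈ T,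
      t⁻¹ * γ ∈ (integralPoints m K B).subgroupOf Γ := by
    classical
    have : Finite (Γ ⧸ (integralPoints m K B).subgroupOf Γ) := Subgroup.finite_quotient_of_finiteIndex
    have := Fintype.ofFinite (Γ ⧸ (integralPoints m K B).subgroupOf Γ)
    refine ⟨Finset.univ.image fun x : Γ ⧸ (integralPoints m K B).subgroupOf Γ => x.out,
      fun γ => ⟨(QuotientGroup.mk γ : Γ ⧸ (integralPoints m K B).subgroupOf Γ).out,
        Finset.mem_image_of_mem _ (Finset.mem_univ _), ?_⟩⟩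
    rw [← QuotientGroup.eq]
    exact QuotientGroup.out_eq' _
  have hF' : IsCompact (⋃ t ∈ T, (fun g : SUGroup m => ((t : Γ) : SUGroup m)⁻¹ * g) '' F) :=
    T.finite_toSet.isCompact_biUnion fun t _ => hF.image (continuous_const.mul continuous_id)
  have hc' : ∀ v ∈ Cone m, P *ᵥ v = v → ∃ γ ∈ Γ ⊓ integralPoints m K B,
      ∃ g ∈ (⋃ t ∈ T, (fun g : SUGroup m => ((t : Γ) : SUGroup m)⁻¹ * g) '' F),
        ∃ c : ℂ, c ≠ 0 ∧ act γ v = c • act g (base m) := by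
    intro v hv hPv
    obtain ⟨γ, hγ, g, hg, c, hc0, hcv⟩ := hc v hv hPv
    obtain ⟨t, htT, ht⟩ := hT ⟨γ, hγ⟩
    have ht' : ((t : Γ) : SUGroup m)⁻¹ * γ ∈ integralPoints m K B :=
      Subgroup.mem_subgroupOf.1 ht
    refine ⟨((t : Γ) : SUGroup m)⁻¹ * γ, ⟨Γ.mul_mem (Γ.inv_mem t.2) hγ, ht'⟩,
      ((t : Γ) : SUGroup m)⁻¹ * g, ?_, c, hc0, ?_⟩
    · simp only [Set.mem_iUnion]
      exact ⟨t, htT, g, hg, rfl⟩
    · rw [act_mul, hcv, act_smul, act_mul]
  obtain ⟨D, hD1, hD2, hD3, hD4⟩ := coc_plane hf (Γ := Γ ⊓ integralPoints m K B) inf_le_right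
    hP hPJ hPK hF' hc'
  refine ⟨D, hD1, hD2, hD3, fun v hv hPv => ?_⟩
  obtain ⟨γ, hγ, h1, h2⟩ := hD4 v hv hPv
  exact ⟨γ, hγ.1, hγ.2, h1, h2⟩

/-- The orthogonal projection onto the plane spanned by two orthogonal vectors. -/
noncomputable def pr (u w : Vec m) : Mat (m + 1) :=
  (herm u u)⁻¹ • vecMulVec u (star u ᵥ* J m) + (herm w w)⁻¹ • vecMulVec w (star w ᵥ* J m)

theorem pr_mulVec (u w v : Vec m) : pr u w *ᵥ v =
    ((herm u u)⁻¹ * herm u v) • u + ((herm w w)⁻¹ * herm w v) • w := by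
  rw [pr, add_mulVec, smul_mulVec, smul_mulVec, vecMulVec_mulVec, vecMulVec_mulVec,
    ← dotProduct_mulVec, ← dotProduct_mulVec]
  ext i
  simp only [Pi.add_apply, Pi.smul_apply, MulOpposite.smul_eq_mul_unop, MulOpposite.unop_op,
    smul_eq_mul, herm]
  ring

theorem pr_mul_self {u w : Vec m} (hu : herm u u ≠ 0) (hw : herm w w ≠ 0) (h : herm u w = 0) :
    pr u w * pr u w = pr u w := by
  have h' : herm w u = 0 := by rw [herm_comm, h, star_zero]
  apply Matrix.ext_of_mulVec_single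
  intro i
  rw [← mulVec_mulVec, pr_mulVec u w (Pi.single i 1), pr_mulVec, herm_add_right,
    herm_add_right, herm_smul_right, herm_smul_right, herm_smul_right, herm_smul_right, h, h']
  congr 2 <;> field_simp <;> ring

theorem pr_self {u w : Vec m} :
    (pr u w)ᴴ * J m = J m * pr u w := by
  have hJ : (J m)ᴴ = J m := by
    rw [J, diagonal_conjTranspose]
    congr 1
    ext i
    simp only [Pi.star_apply]
    split_ifs <;> simp
  have hst : ∀ x : Vec m, star (herm x x) = herm x x := fun x => (herm_comm x x).symm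
  have key : ∀ x : Vec m, (vecMulVec x (star x ᵥ* J m))ᴴ * J m =
      J m * vecMulVec x (star x ᵥ* J m) := by
    intro x
    rw [conjTranspose_vecMulVec, star_vecMul, hJ, star_star, vecMulVec_mul, mul_vecMulVec]
  rw [pr, conjTranspose_add, conjTranspose_smul, conjTranspose_smul, Matrix.add_mul,
    Matrix.smul_mul, Matrix.smul_mul, Matrix.mul_add, Matrix.mul_smul, Matrix.mul_smul, key, key,
    star_inv₀, star_inv₀, hst, hst]

/-- The projection onto a rational plane is rational. -/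
theorem pr_entries {K : Subfield ℂ} {H : Matrix (Fin (m + 1)) (Fin (m + 1)) K}
    {B : Mat (m + 1)} (hf : IsForm m K H B) (u w : Fin (m + 1) → K) :
    EntriesIn K B (pr (B *ᵥ fun i => (u i : ℂ)) (B *ᵥ fun i => (w i : ℂ))) := by
  have hBu : IsUnit B.det := isUnit_iff_ne_zero.2 hf.det
  have hB1 : B * B⁻¹ = 1 := Matrix.mul_nonsing_inv B hBu
  have hB2 : B⁻¹ * B = 1 := Matrix.nonsing_inv_mul B hBu
  obtain ⟨-, -, hst, -⟩ := hf.cm
  have hdot : ∀ (x : Fin (m + 1) → K) (j : Fin (m + 1)),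
      (star (fun i => (x i : ℂ)) ᵥ* H.map (fun x : K => (x : ℂ))) j ∈ K := by
    intro x j
    rw [vecMul, dotProduct]
    refine K.sum_mem fun i _ => K.mul_mem (hst _ (x i).2) (H i j).2
  have hrow : ∀ x : Fin (m + 1) → K, (star (B *ᵥ fun i => (x i : ℂ)) ᵥ* J m) ᵥ* B =
      star (fun i => (x i : ℂ)) ᵥ* H.map (fun x : K => (x : ℂ)) := by
    intro x
    rw [star_mulVec, vecMul_vecMul, vecMul_vecMul, ← hf.form, Matrix.mul_assoc]
  have hherm : ∀ x : Fin (m + 1) → K,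
      herm (B *ᵥ fun i => (x i : ℂ)) (B *ᵥ fun i => (x i : ℂ)) ∈ K := by
    intro x
    rw [herm, dotProduct_mulVec, dotProduct_mulVec, hrow, dotProduct]
    exact K.sum_mem fun i _ => K.mul_mem (hdot x i) (x i).2
  have key : ∀ x : Fin (m + 1) → K, ∀ i j,
      (B⁻¹ * vecMulVec (B *ᵥ fun i => (x i : ℂ)) (star (B *ᵥ fun i => (x i : ℂ)) ᵥ* J m) * B) i j
        ∈ K := by
    intro x i j
    rw [mul_vecMulVec, vecMulVec_mul, hrow, mulVec_mulVec, hB2, one_mulVec, vecMulVec_apply]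
    exact K.mul_mem (x i).2 (hdot x j)
  intro i j
  rw [pr, Matrix.mul_add, Matrix.add_mul, Matrix.mul_smul, Matrix.mul_smul, Matrix.smul_mul,
    Matrix.smul_mul]
  exact K.add_mem (K.mul_mem (K.inv_mem (hherm u)) (key u i j))
    (K.mul_mem (K.inv_mem (hherm w)) (key w i j))

theorem pr_left {u w : Vec m} (hu : herm u u ≠ 0) (h : herm u w = 0) : pr u w *ᵥ u = u := by
  have h' : herm w u = 0 := by rw [herm_comm, h, star_zero]
  rw [pr_mulVec, h', mul_zero, zero_smul, add_zero, inv_mul_cancel₀ hu, one_smul]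

theorem pr_right {u w : Vec m} (hw : herm w w ≠ 0) (h : herm u w = 0) : pr u w *ᵥ w = w := by
  rw [pr_mulVec, h, mul_zero, zero_smul, zero_add, inv_mul_cancel₀ hw, one_smul]

/-- The range of the projection. -/
theorem pr_eq_iff {u w v : Vec m} (hu : herm u u ≠ 0) (hw : herm w w ≠ 0) (h : herm u w = 0) :
    pr u w *ᵥ v = v ↔ ∃ a b : ℂ, v = a • u + b • w := by
  constructor
  · intro hv
    rw [pr_mulVec] at hv
    exact ⟨_, _, hv.symm⟩
  · rintro ⟨a, b, rfl⟩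
    rw [mulVec_add, mulVec_smul, mulVec_smul, pr_left hu h, pr_right hw h]

end Pool.Agent.Lib.MP_5d4057_al.PU
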