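import Pool.Agent.Lib.MP_5d4057_al.PU.Pr
import Pool.Agent.Lib.MP_5d4057_al.PU.Cus

/-!
# PU: a rational anisotropic plane avoids the cusps
-/

set_option autoImplicit false

namespace Pool.Agent.Lib.MP_5d4057_al.PU

open Matrix Filter Topology Pool.Agent.Lib.MP_5d4057_al Pool.Agent.Lib.MP_5d4057_al.Hyb
  Pool.Agent.Lib.MP_5d4057_al.HM Pool.Agent.Lib.MP_5d4057_al.HM.Kak Pool.Agent.Lib.MP_5d4057_al.NU

open scoped ComplexOrder MatrixOrder Matrix.Norms.L2Operator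

variable {j m : ℕ}

variable {K : Subfield ℂ} {H : Matrix (Fin (m + 1)) (Fin (m + 1)) K} {B : Mat (m + 1)}

/-- The form is rational. -/
theorem herm_mem (hf : IsForm m K H B) {v x : Vec m} (hv : ∀ i, (B⁻¹ *ᵥ v) i ∈ K)
    (hx : ∀ i, (B⁻¹ *ᵥ x) i ∈ K) : herm v x ∈ K := by
  have hBu : IsUnit B.det := isUnit_iff_ne_zero.2 hf.det
  have hB1 : B * B⁻¹ = 1 := Matrix.mul_nonsing_inv B hBu
  obtain ⟨-, -, hst, -⟩ := hf.cm
  have h1 : herm v x = star (B⁻¹ *ᵥ v) ⬝ᵥ (H.map (fun x : K => (x : ℂ)) *ᵥ (B⁻¹ *ᵥ x)) := by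
    rw [← hf.form, herm, star_mulVec, ← dotProduct_mulVec, mulVec_mulVec, mulVec_mulVec]
    congr 2
    calc J m = (B * B⁻¹)ᴴ * J m * (B * B⁻¹) := by
          rw [hB1, conjTranspose_one, Matrix.one_mul, Matrix.mul_one]
      _ = _ := by
          rw [conjTranspose_mul]
          simp only [Matrix.mul_assoc]
  rw [h1, dotProduct]
  refine K.sum_mem fun i _ => K.mul_mem (hst _ (hv i)) ?_
  rw [mulVec, dotProduct]
  exact K.sum_mem fun k _ => K.mul_mem (H i k).2 (hx k)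

/-- The complement of a good plane is definite. -/
theorem Pl.compl {u w : Vec m} (h : Pl K B u w) {v : Vec m} (hv : pr u w *ᵥ v = 0)
    (h0 : v ≠ 0) : 0 < q v := by
  obtain ⟨-, h2, h3⟩ := pr_split h.neg h.pos h.orth v
  rw [hv, sub_zero] at h2 h3
  exact lt_of_le_of_ne h2 fun h4 => h0 (h3 h4.symm)

/-- A good plane has no rational isotropic vectors. -/
theorem Pl.no_isot (hf : IsForm m K H B) {u w : Vec m} (h : Pl K B u w)
    {x : Fin (m + 1) → K}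
    (h1 : pr u w *ᵥ (B *ᵥ fun i => (x i : ℂ)) = B *ᵥ (fun i => (x i : ℂ)))
    (h2 : q (B *ᵥ fun i => (x i : ℂ)) = 0) : x = 0 := by
  have hBu : IsUnit B.det := isUnit_iff_ne_zero.2 hf.det
  have hB2 : B⁻¹ * B = 1 := Matrix.nonsing_inv_mul B hBu
  have hxK : ∀ i, (B⁻¹ *ᵥ (B *ᵥ fun i => (x i : ℂ))) i ∈ K := by
    intro i
    rw [mulVec_mulVec, hB2, one_mulVec]
    exact (x i).2
  obtain ⟨y, hy⟩ : ∃ y, y = B *ᵥ (fun i => (x i : ℂ)) := ⟨_, rfl⟩
  rw [← hy] at h1 h2 hxK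
  rw [pr_mulVec] at h1
  have ha : (herm u u)⁻¹ * herm u y ∈ K :=
    K.mul_mem (K.inv_mem (herm_mem hf h.ratu h.ratu)) (herm_mem hf h.ratu hxK)
  have hb : (herm w w)⁻¹ * herm w y ∈ K :=
    K.mul_mem (K.inv_mem (herm_mem hf h.ratw h.ratw)) (herm_mem hf h.ratw hxK)
  obtain ⟨ha0, hb0⟩ := h.aniso _ ha _ hb (by rw [h1, h2])
  rw [ha0, hb0, zero_smul, zero_smul, add_zero] at h1
  have h3 : (fun i => (x i : ℂ)) = 0 := by
    have h4 := congrArg (fun z => B⁻¹ *ᵥ z) hy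
    simp only [mulVec_mulVec] at h4
    rw [hB2, one_mulVec, ← h1, mulVec_zero] at h4
    exact h4.symm
  ext i
  have := congrFun h3 i
  simpa using this

/-- The height function is bounded on a good plane (`Γ` commensurable with the integral points). -/
theorem hty_le' (hf : IsForm m K H B) {Γ : Subgroup (SUGroup m)}
    (hΓ : (integralPoints m K B).relIndex Γ ≠ 0) {u w : Vec m} (h : Pl K B u w) :
    ∃ c : ℝ, ∀ v ∈ Cone m, pr u w *ᵥ v = v → hty Γ v ≤ c :=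
  hty_plane hf hΓ (pr_mul_self h.hu h.hw h.orth) pr_self (h.rat hf) (fun _ => h.compl)
    fun _ => h.no_isot hf

/-- The height function is bounded on a good plane. -/
theorem hty_le (hf : IsForm m K H B) {Γ : Subgroup (SUGroup m)} (hΓ : Γ ≤ integralPoints m K B)
    (_hd : DiscreteTopology Γ) {u w : Vec m} (h : Pl K B u w) :
    ∃ c : ℝ, ∀ g : SUGroup m, pr u w *ᵥ act g (base m) = act g (base m) →
      hty Γ (act g (base m)) ≤ c := by
  obtain ⟨c, hc⟩ := hty_le' hf (Γ := Γ) (by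
    rw [Subgroup.relIndex_eq_one.2 hΓ]
    exact one_ne_zero) h
  exact ⟨c, fun g hg => hc _ (orbit_mem g) hg⟩

/-- The stabiliser of a good plane is cocompact on it. -/
theorem coc_pl (hm : 2 ≤ m) (hf : IsForm m K H B) {Γ : Subgroup (SUGroup m)}
    {χ : SUGroup m → ℝ} (hL : Lat Γ χ) (hT : TF Γ) (hTor : Tor Γ)
    (hΓ : (integralPoints m K B).relIndex Γ ≠ 0) {u w : Vec m} (h : Pl K B u w) :
    ∃ D : Set (Vec m), IsCompact D ∧ D ⊆ Cone m ∧ (∀ x ∈ D, ∃ a b : ℂ, x = a • u + b • w) ∧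
      ∀ v ∈ Cone m, (∃ a b : ℂ, v = a • u + b • w) → ∃ γ ∈ Γ, γ ∈ integralPoints m K B ∧
        γ.toMatrix * pr u w = pr u w * γ.toMatrix ∧ ∃ c : ℂ, c ≠ 0 ∧ c • act γ v ∈ D := by
  obtain ⟨D, h1, h2, h3, h4⟩ := coc_aniso hm hf hL hT hTor hΓ (pr_mul_self h.hu h.hw h.orth)
    pr_self (h.rat hf) (fun _ => h.compl) fun _ => h.no_isot hf
  exact ⟨D, h1, h2, fun x hx => (pr_eq_iff h.hu h.hw h.orth).1 (h3 x hx), fun v hv hv' =>
    h4 v hv ((pr_eq_iff h.hu h.hw h.orth).2 hv')⟩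

end Pool.Agent.Lib.MP_5d4057_al.PU
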