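import Mathlib

/-!
# PU: values of the norm form of an imaginary quadratic field

For every `d > 0` there is an odd prime `p` such that `x ^ 2 + d y ^ 2` has no nontrivial zero
modulo `p`; for such a prime all values of the form have even `p`-adic valuation, while
`1 + r (s ^ 2 + d t ^ 2)` has odd valuation for suitable arbitrarily small rational `s, t`.
-/

set_option autoImplicit false

namespace Pool.Agent.Lib.MP_5d4057_al.PU

open scoped NumberTheorySymbols

/-- There is an odd prime modulo which the form `x ^ 2 + d y ^ 2` is anisotropic. -/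
theorem exists_inert {d : ℕ} (hd : 0 < d) :
    ∃ p : ℕ, p.Prime ∧ p ≠ 2 ∧ ∀ x y : ZMod p, x ^ 2 + d * y ^ 2 = 0 → x = 0 ∧ y = 0 := by
  have hodd : Odd (4 * d - 1) := ⟨2 * d - 1, by omega⟩
  have h4 : (4 * d - 1) % 4 = 3 := by omega
  have h1 : J(-(d : ℤ) | 4 * d - 1) = -1 := by
    have e1 : J(-1 | 4 * d - 1) = -1 := by
      rw [jacobiSym.at_neg_one hodd, ZMod.χ₄_nat_three_mod_four h4]
    have hc : ((4 * d - 1 : ℕ) : ℤ) = 4 * d - 1 := by
      rw [Nat.cast_sub (by omega)]; push_cast; ring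
    have e2 : J((4 : ℤ) * d | 4 * d - 1) = 1 := by
      rw [jacobiSym.mod_left' (a₂ := 1), jacobiSym.one_left]
      rw [hc]
      exact Int.ModEq.symm ((Int.modEq_iff_dvd).2 ⟨1, by ring⟩)
    have e3 : J((4 : ℤ) | 4 * d - 1) = 1 := by
      have h5 : (4 : ℤ) = 2 ^ 2 := by norm_num
      rw [h5]
      apply jacobiSym.sq_one'
      have h6 : Nat.Coprime 2 (4 * d - 1) := by
        rw [Nat.coprime_two_left]
        exact hodd
      exact h6
    have e4 : J((d : ℤ) | 4 * d - 1) = 1 := by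
      rw [jacobiSym.mul_left, e3, one_mul] at e2
      exact e2
    rw [show -(d : ℤ) = -1 * d by ring, jacobiSym.mul_left, e1, e4]
    norm_num
  obtain ⟨p, hp, hdvd, hj⟩ := jacobiSym.eq_neg_one_at_prime_divisor_of_eq_neg_one h1
  have : Fact p.Prime := ⟨hp⟩
  have hns : ¬ IsSquare ((-(d : ℤ) : ℤ) : ZMod p) := ZMod.nonsquare_iff_jacobiSym_eq_neg_one.1 hj
  refine ⟨p, hp, ?_, ?_⟩
  · rintro rfl
    rcases hodd with ⟨k, hk⟩
    omega
  · intro x y hxy
    have hy : y = 0 := by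
      by_contra hy
      apply hns
      refine ⟨x * y⁻¹, ?_⟩
      push_cast
      field_simp
      linear_combination -hxy
    subst hy
    refine ⟨?_, rfl⟩
    have : x ^ 2 = 0 := by simpa using hxy
    exact pow_eq_zero_iff (two_ne_zero) |>.1 this

section prime

variable {d p : ℕ}

theorem dvd_of_dvd_norm (hx : ∀ x y : ZMod p, x ^ 2 + d * y ^ 2 = 0 → x = 0 ∧ y = 0) {A B : ℤ}
    (h : (p : ℤ) ∣ A ^ 2 + d * B ^ 2) : (p : ℤ) ∣ A ∧ (p : ℤ) ∣ B := by
  rw [← ZMod.intCast_zmod_eq_zero_iff_dvd] at h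
  push_cast at h
  have := hx _ _ h
  rwa [ZMod.intCast_zmod_eq_zero_iff_dvd, ZMod.intCast_zmod_eq_zero_iff_dvd] at this

theorem even_norm_int (hp : p.Prime)
    (hx : ∀ x y : ZMod p, x ^ 2 + d * y ^ 2 = 0 → x = 0 ∧ y = 0) :
    ∀ (N : ℕ) (A B : ℤ), (A ^ 2 + d * B ^ 2).natAbs = N → A ^ 2 + d * B ^ 2 ≠ 0 →
      Even (padicValRat p (((A ^ 2 + d * B ^ 2 : ℤ)) : ℚ)) := by
  have : Fact p.Prime := ⟨hp⟩
  intro N
  induction N using Nat.strong_induction_on with
  | _ N ih =>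
    intro A B hN h0
    by_cases hd : (p : ℤ) ∣ A ^ 2 + d * B ^ 2
    · obtain ⟨⟨A', rfl⟩, ⟨B', rfl⟩⟩ := dvd_of_dvd_norm hx hd
      have e : ((p : ℤ) * A') ^ 2 + d * ((p : ℤ) * B') ^ 2 =
          (p : ℤ) ^ 2 * (A' ^ 2 + d * B' ^ 2) := by ring
      have h0' : A' ^ 2 + d * B' ^ 2 ≠ 0 := by
        intro h; apply h0; rw [e, h, mul_zero]
      have hlt : (A' ^ 2 + d * B' ^ 2).natAbs < N := by
        rw [← hN, e, Int.natAbs_mul]
        have h1 : 0 < (A' ^ 2 + d * B' ^ 2).natAbs := Int.natAbs_pos.2 h0'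
        have h2 : 1 < ((p : ℤ) ^ 2).natAbs := by
          rw [Int.natAbs_pow, Int.natAbs_natCast]
          exact Nat.one_lt_pow two_ne_zero hp.one_lt
        nlinarith
      have := ih _ hlt A' B' rfl h0'
      rw [e, Int.cast_mul, padicValRat.mul (by
        push_cast; exact pow_ne_zero _ (Nat.cast_ne_zero.2 hp.ne_zero)) (by exact_mod_cast h0')]
      refine Even.add ?_ this
      push_cast
      rw [padicValRat.pow, padicValRat.self hp.one_lt]
      exact ⟨1, by norm_num⟩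
    · rw [padicValRat.of_int, padicValInt.eq_zero_of_not_dvd hd]
      simp

/-- All values of the norm form have even valuation at an inert prime. -/
theorem even_norm (hp : p.Prime) (hx : ∀ x y : ZMod p, x ^ 2 + d * y ^ 2 = 0 → x = 0 ∧ y = 0)
    {a b : ℚ} (h : a ^ 2 + d * b ^ 2 ≠ 0) : Even (padicValRat p (a ^ 2 + d * b ^ 2)) := by
  have : Fact p.Prime := ⟨hp⟩
  have ha : (a.den : ℚ) ≠ 0 := Nat.cast_ne_zero.2 a.den_ne_zero
  have hb : (b.den : ℚ) ≠ 0 := Nat.cast_ne_zero.2 b.den_ne_zero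
  set A : ℤ := a.num * b.den with hA
  set B : ℤ := b.num * a.den with hB
  have e : a ^ 2 + d * b ^ 2 = ((A ^ 2 + d * B ^ 2 : ℤ) : ℚ) / ((a.den : ℚ) * b.den) ^ 2 := by
    have e1 : a = a.num / a.den := (Rat.num_div_den a).symm
    have e2 : b = b.num / b.den := (Rat.num_div_den b).symm
    rw [eq_div_iff (pow_ne_zero _ (mul_ne_zero ha hb))]
    push_cast
    have e3 : a * a.den = a.num := by
      rw [mul_comm]; exact Rat.den_mul_eq_num a
    have e4 : b * b.den = b.num := by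
      rw [mul_comm]; exact Rat.den_mul_eq_num b
    rw [hA, hB]
    push_cast
    rw [← e3, ← e4]
    ring
  have h0 : A ^ 2 + d * B ^ 2 ≠ 0 := by
    intro h1
    apply h
    rw [e, h1]
    simp
  rw [e, padicValRat.div (by exact_mod_cast h0) (pow_ne_zero _ (mul_ne_zero ha hb)),
    padicValRat.pow]
  refine Even.sub (even_norm_int hp hx _ A B rfl h0) ?_
  exact ⟨_, by push_cast; ring⟩

theorem exists_val_one (hp : p.Prime) (h2 : p ≠ 2)
    (hx : ∀ x y : ZMod p, x ^ 2 + d * y ^ 2 = 0 → x = 0 ∧ y = 0) {u w : ℤ} (hu : ¬ (p : ℤ) ∣ u)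
    (hw : ¬ (p : ℤ) ∣ w) :
    ∃ x y : ℤ, (p : ℤ) ∣ w + u * (x ^ 2 + d * y ^ 2) ∧
      ¬ (p : ℤ) ^ 2 ∣ w + u * (x ^ 2 + d * y ^ 2) := by
  have : Fact p.Prime := ⟨hp⟩
  have hpz : Prime (p : ℤ) := Nat.prime_iff_prime_int.1 hp
  have hd0 : (d : ZMod p) ≠ 0 := by
    intro h
    have := (hx 0 1 (by simp [h])).2
    exact one_ne_zero this
  have hu0 : (u : ZMod p) ≠ 0 := by
    rwa [Ne, ZMod.intCast_zmod_eq_zero_iff_dvd]
  obtain ⟨a, b, hab⟩ := FiniteField.exists_root_sum_quadratic (R := ZMod p)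
    (f := Polynomial.X ^ 2)
    (g := Polynomial.C (d : ZMod p) * Polynomial.X ^ 2 + Polynomial.C ((w : ZMod p) / u))
    (by simp) (by
      rw [Polynomial.degree_add_C]
      · rw [Polynomial.degree_C_mul hd0]; simp
      · rw [Polynomial.degree_C_mul hd0]; simp) (by
      rw [ZMod.card]
      exact (Nat.Prime.eq_two_or_odd hp).resolve_left h2)
  obtain ⟨x, rfl⟩ := ZMod.intCast_surjective a
  obtain ⟨y, rfl⟩ := ZMod.intCast_surjective b
  have h1 : (p : ℤ) ∣ w + u * (x ^ 2 + d * y ^ 2) := by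
    rw [← ZMod.intCast_zmod_eq_zero_iff_dvd]
    push_cast
    simp only [Polynomial.eval_pow, Polynomial.eval_X, Polynomial.eval_add, Polynomial.eval_mul,
      Polynomial.eval_C] at hab
    have h3 : (u : ZMod p) * ((x : ZMod p) ^ 2 + (d * (y : ZMod p) ^ 2 + (w : ZMod p) / u)) = 0 := by
      rw [hab, mul_zero]
    have h4 : (u : ZMod p) * ((w : ZMod p) / u) = w := by field_simp
    linear_combination h3 - h4
  by_cases h3 : (p : ℤ) ^ 2 ∣ w + u * (x ^ 2 + d * y ^ 2)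
  · refine ⟨(1 + p) * x, (1 + p) * y, ?_, ?_⟩
    · obtain ⟨c, hc⟩ := h1
      refine ⟨(1 + p) ^ 2 * c - (2 + p) * w, ?_⟩
      linear_combination (1 + (p : ℤ)) ^ 2 * hc
    · rintro ⟨c, hc⟩
      obtain ⟨c', hc'⟩ := h3
      have h5 : (p : ℤ) * (2 * w) = p * (p * ((1 + p) ^ 2 * c' - c - w)) := by
        linear_combination (1 + (p : ℤ)) ^ 2 * hc' - hc
      have h6 : 2 * w = p * ((1 + p) ^ 2 * c' - c - w) :=
        mul_left_cancel₀ (by exact_mod_cast hp.ne_zero) h5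
      rcases hpz.dvd_or_dvd (⟨_, h6⟩ : (p : ℤ) ∣ 2 * w) with h7 | h7
      · have h8 : p ∣ 2 := by exact_mod_cast h7
        exact h2 ((Nat.prime_dvd_prime_iff_eq hp Nat.prime_two).1 h8)
      · exact hw h7
  · exact ⟨x, y, h1, h3⟩

theorem exists_odd_val (hp : p.Prime) (h2 : p ≠ 2)
    (hx : ∀ x y : ZMod p, x ^ 2 + d * y ^ 2 = 0 → x = 0 ∧ y = 0) {r : ℚ} (hr : r ≠ 0) :
    ∃ s t : ℚ, 1 + r * (s ^ 2 + d * t ^ 2) ≠ 0 ∧
      ¬ Even (padicValRat p (1 + r * (s ^ 2 + d * t ^ 2))) := by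
  have : Fact p.Prime := ⟨hp⟩
  have hp0 : (p : ℚ) ≠ 0 := Nat.cast_ne_zero.2 hp.ne_zero
  by_cases hv : Even (padicValRat p r)
  · obtain ⟨e, he⟩ := hv
    set r0 : ℚ := r * ((p : ℚ) ^ (-e)) ^ 2 with hr0
    have hr00 : r0 ≠ 0 := mul_ne_zero hr (pow_ne_zero _ (zpow_ne_zero _ hp0))
    have hval : padicValRat p r0 = 0 := by
      rw [hr0, padicValRat.mul hr (pow_ne_zero _ (zpow_ne_zero _ hp0)), padicValRat.pow,
        padicValRat.zpow, padicValRat.self hp.one_lt, he]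
      push_cast; ring
    have hnd : ¬ (p : ℤ) ∣ r0.num ∧ ¬ (p : ℤ) ∣ (r0.den : ℤ) := by
      have hcop := r0.reduced
      rw [padicValRat_def] at hval
      have hnot : ¬ ((p : ℤ) ∣ r0.num ∧ (p : ℤ) ∣ (r0.den : ℤ)) := by
        rintro ⟨h3, h4⟩
        have h5 : p ∣ r0.num.natAbs := Int.natCast_dvd.1 h3
        have h6 : p ∣ r0.den := by exact_mod_cast h4
        exact Nat.not_coprime_of_dvd_of_dvd hp.one_lt h5 h6 hcop
      have hiff : (p : ℤ) ∣ r0.num ↔ (p : ℤ) ∣ (r0.den : ℤ) := by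
        have h3 : padicValInt p r0.num = padicValNat p r0.den := by omega
        have hn0 : r0.num ≠ 0 := Rat.num_ne_zero.2 hr00
        constructor
        · intro h4
          by_contra h5
          have h6 : ¬ p ∣ r0.den := by exact_mod_cast h5
          rw [padicValNat.eq_zero_of_not_dvd h6, padicValInt.eq_zero_iff] at h3
          rcases h3 with h3 | h3 | h3
          · exact hp.one_lt.ne' h3
          · exact hn0 h3
          · exact h3 h4
        · intro h4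
          by_contra h5
          have h6 : p ∣ r0.den := by exact_mod_cast h4
          rw [padicValInt.eq_zero_of_not_dvd h5] at h3
          have h7 := one_le_padicValNat_of_dvd r0.den_ne_zero h6
          omega
      tauto
    obtain ⟨x, y, h3, h4⟩ := exists_val_one hp h2 hx hnd.1 hnd.2
    set N : ℤ := (r0.den : ℤ) + r0.num * (x ^ 2 + d * y ^ 2) with hN
    have hN0 : N ≠ 0 := by
      intro h; apply h4; rw [h]; exact dvd_zero _
    have hNv : padicValRat p (N : ℚ) = 1 := by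
      obtain ⟨c, hc⟩ := h3
      have hc1 : ¬ (p : ℤ) ∣ c := by
        rintro ⟨c', hc'⟩
        apply h4
        refine ⟨c', ?_⟩
        rw [hc, hc']; ring
      have hc0 : (c : ℚ) ≠ 0 := by
        intro h
        apply hc1
        rw [Int.cast_eq_zero] at h
        rw [h]; exact dvd_zero _
      rw [hc, Int.cast_mul, padicValRat.mul (by exact_mod_cast hp.ne_zero) hc0,
        Int.cast_natCast, padicValRat.self hp.one_lt, padicValRat.of_int,
        padicValInt.eq_zero_of_not_dvd hc1]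
      simp
    have hden : (r0.den : ℚ) ≠ 0 := Nat.cast_ne_zero.2 r0.den_ne_zero
    have e1 : 1 + r * ((x * (p : ℚ) ^ (-e)) ^ 2 + d * (y * (p : ℚ) ^ (-e)) ^ 2) =
        (N : ℚ) / r0.den := by
      rw [eq_div_iff hden]
      have e2 : r0 * r0.den = r0.num := by
        rw [mul_comm]; exact Rat.den_mul_eq_num r0
      have e3 : r * ((x * (p : ℚ) ^ (-e)) ^ 2 + d * (y * (p : ℚ) ^ (-e)) ^ 2) =
          r0 * (x ^ 2 + d * y ^ 2) := by
        rw [hr0]; ring
      rw [e3, hN]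
      push_cast
      rw [← e2]
      ring
    refine ⟨x * (p : ℚ) ^ (-e), y * (p : ℚ) ^ (-e), ?_, ?_⟩
    · rw [e1]
      exact div_ne_zero (by exact_mod_cast hN0) hden
    · rw [e1, padicValRat.div (by exact_mod_cast hN0) hden, hNv]
      have h5 : padicValRat p (r0.den : ℚ) = 0 := by
        rw [padicValRat.of_nat, padicValNat.eq_zero_of_not_dvd (by exact_mod_cast hnd.2)]
        simp
      rw [h5]
      decide
  · set j : ℕ := (padicValRat p r).natAbs + 1 with hj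
    have hs0 : ((p : ℚ) ^ j)⁻¹ ≠ 0 := inv_ne_zero (pow_ne_zero _ hp0)
    have hq0 : r * (((p : ℚ) ^ j)⁻¹) ^ 2 ≠ 0 := mul_ne_zero hr (pow_ne_zero _ hs0)
    have hval : padicValRat p (r * (((p : ℚ) ^ j)⁻¹) ^ 2) = padicValRat p r - 2 * j := by
      rw [padicValRat.mul hr (pow_ne_zero _ hs0), padicValRat.pow, padicValRat.self_pow_inv]
      push_cast; ring
    have hlt : padicValRat p (r * (((p : ℚ) ^ j)⁻¹) ^ 2) < padicValRat p (1 : ℚ) := by
      rw [hval, padicValRat.one, hj]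
      push_cast
      have := Int.le_natAbs (a := padicValRat p r)
      push_cast at this
      have h0 := abs_nonneg (padicValRat p r)
      linarith
    have hne : r * (((p : ℚ) ^ j)⁻¹) ^ 2 + 1 ≠ 0 := by
      intro h
      have h1 : r * (((p : ℚ) ^ j)⁻¹) ^ 2 = -1 := by linarith
      rw [h1, padicValRat.neg] at hlt
      exact lt_irrefl _ hlt
    refine ⟨((p : ℚ) ^ j)⁻¹, 0, ?_, ?_⟩
    · rw [zero_pow two_ne_zero, mul_zero, add_zero, add_comm]
      exact hne
    · rw [zero_pow two_ne_zero, mul_zero, add_zero, add_comm,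
        padicValRat.add_eq_of_lt hne hq0 one_ne_zero hlt, hval]
      intro h
      apply hv
      have : Even (2 * (j : ℤ)) := ⟨j, by ring⟩
      have h3 := h.add this
      rwa [sub_add_cancel] at h3

/-- `1 + r (s ^ 2 + d t ^ 2)` has odd valuation for suitable small `s`, `t`. -/
theorem exists_not_norm (hp : p.Prime) (h2 : p ≠ 2)
    (hx : ∀ x y : ZMod p, x ^ 2 + d * y ^ 2 = 0 → x = 0 ∧ y = 0) {r : ℚ} (hr : r ≠ 0)
    {ε : ℝ} (hε : 0 < ε) :
    ∃ s t : ℚ, |(s : ℝ)| < ε ∧ |(t : ℝ)| < ε ∧ 1 + r * (s ^ 2 + d * t ^ 2) ≠ 0 ∧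
      ¬ Even (padicValRat p (1 + r * (s ^ 2 + d * t ^ 2))) := by
  have : Fact p.Prime := ⟨hp⟩
  have hp0 : (p : ℚ) ≠ 0 := Nat.cast_ne_zero.2 hp.ne_zero
  obtain ⟨s, t, h0, hodd⟩ := exists_odd_val hp h2 hx hr
  set c := padicValRat p (1 + r * (s ^ 2 + d * t ^ 2)) with hc
  set k : ℕ := c.natAbs + 1 with hk
  obtain ⟨L, hL⟩ := exists_nat_gt ((|(s : ℝ)| + |(t : ℝ)|) / ε + 1)
  have hL1 : 1 < (L : ℝ) := by
    have : 0 ≤ (|(s : ℝ)| + |(t : ℝ)|) / ε := by positivity
    linarith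
  have hL0 : L ≠ 0 := by
    rintro rfl
    norm_num at hL1
  set M : ℕ := 1 + p ^ k * L with hM
  have hMpos : 0 < M := by omega
  have hpk : 1 ≤ p ^ k := Nat.one_le_pow _ _ hp.pos
  have hMbig : (|(s : ℝ)| + |(t : ℝ)|) / ε < M := by
    have h3 : (L : ℝ) ≤ M := by
      rw [hM]
      push_cast
      have h4 : (1 : ℝ) ≤ (p : ℝ) ^ k := by exact_mod_cast hpk
      nlinarith
    linarith
  have hMr : (0 : ℝ) < M := by exact_mod_cast hMpos
  have hMq : (M : ℚ) ≠ 0 := Nat.cast_ne_zero.2 hMpos.ne'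
  have hsum : |(s : ℝ)| + |(t : ℝ)| < ε * M := by
    rw [div_lt_iff₀ hε] at hMbig
    linarith
  have hk0 : k ≠ 0 := by omega
  have hMnd : ¬ p ∣ M := by
    intro h
    have h3 : p ∣ p ^ k * L := Dvd.dvd.mul_right (dvd_pow_self p hk0) L
    have h4 : p ∣ 1 := (Nat.dvd_add_left h3).1 h
    exact hp.one_lt.ne' (Nat.dvd_one.1 h4)
  have hMv : padicValRat p (M : ℚ) = 0 := by
    rw [padicValRat.of_nat, padicValNat.eq_zero_of_not_dvd hMnd]
    simp
  have hM2 : ((M : ℚ) ^ 2 - 1) = (p : ℚ) ^ k * ((L * (2 + p ^ k * L) : ℕ) : ℚ) := by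
    rw [hM]
    push_cast
    ring
  have hfac0 : ((L * (2 + p ^ k * L) : ℕ) : ℚ) ≠ 0 := by
    apply Nat.cast_ne_zero.2
    exact mul_ne_zero hL0 (by omega)
  have hM20 : ((M : ℚ) ^ 2 - 1) ≠ 0 := by
    rw [hM2]
    exact mul_ne_zero (pow_ne_zero _ hp0) hfac0
  have hM2v : c < padicValRat p ((M : ℚ) ^ 2 - 1) := by
    rw [hM2, padicValRat.mul (pow_ne_zero _ hp0) hfac0, padicValRat.pow,
      padicValRat.self hp.one_lt]
    have h3 : 0 ≤ padicValRat p ((L * (2 + p ^ k * L) : ℕ) : ℚ) :=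
      zero_le_padicValRat_of_nat _
    have h4 := Int.le_natAbs (a := c)
    have h5 : (k : ℤ) = |c| + 1 := by rw [hk]; push_cast; ring
    rw [h5]
    push_cast at h4
    linarith
  have hne : (1 + r * (s ^ 2 + d * t ^ 2)) + ((M : ℚ) ^ 2 - 1) ≠ 0 := by
    intro h
    have h3 : (M : ℚ) ^ 2 - 1 = -(1 + r * (s ^ 2 + d * t ^ 2)) := by linarith
    rw [h3, padicValRat.neg] at hM2v
    exact lt_irrefl _ hM2v
  have e1 : 1 + r * ((s / M) ^ 2 + d * (t / M) ^ 2) =
      ((1 + r * (s ^ 2 + d * t ^ 2)) + ((M : ℚ) ^ 2 - 1)) / (M : ℚ) ^ 2 := by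
    field_simp
    ring
  refine ⟨s / M, t / M, ?_, ?_, ?_, ?_⟩
  · push_cast
    rw [abs_div, abs_of_pos hMr, div_lt_iff₀ hMr]
    have := abs_nonneg (t : ℝ)
    linarith
  · push_cast
    rw [abs_div, abs_of_pos hMr, div_lt_iff₀ hMr]
    have := abs_nonneg (s : ℝ)
    linarith
  · rw [e1]
    exact div_ne_zero hne (pow_ne_zero _ hMq)
  · rw [e1, padicValRat.div hne (pow_ne_zero _ hMq), padicValRat.pow, hMv,
      padicValRat.add_eq_of_lt hne h0 hM20 hM2v]
    simpa using hodd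

end prime

end Pool.Agent.Lib.MP_5d4057_al.PU
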