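import Pool.Agent.Lib.MP_5d4057_al.PU.FinB
import Pool.Agent.Lib.MP_5d4057_al.PU.Defs

/-!
# PU: the projection onto a good plane
-/

set_option autoImplicit false

namespace Pool.Agent.Lib.MP_5d4057_al.PU

open Matrix Filter Topology Pool.Agent.Lib.MP_5d4057_al Pool.Agent.Lib.MP_5d4057_al.Hyb
  Pool.Agent.Lib.MP_5d4057_al.HM Pool.Agent.Lib.MP_5d4057_al.HM.Kak Pool.Agent.Lib.MP_5d4057_al.NU

open scoped ComplexOrder MatrixOrder Matrix.Norms.L2Operator

variable {j m : ℕ}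

theorem herm_pr (u w v x : Vec m) : herm (pr u w *ᵥ v) x = herm v (pr u w *ᵥ x) := by
  rw [herm, herm, star_mulVec, ← dotProduct_mulVec, mulVec_mulVec, pr_self, ← mulVec_mulVec]

/-- The projection onto a good plane is rational. -/
theorem Pl.rat {K : Subfield ℂ} {H : Matrix (Fin (m + 1)) (Fin (m + 1)) K} {B : Mat (m + 1)}
    (hf : IsForm m K H B) {u w : Vec m} (h : Pl K B u w) : EntriesIn K B (pr u w) := by
  have hBu : IsUnit B.det := isUnit_iff_ne_zero.2 hf.det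
  have key : ∀ {v : Vec m} (hv : ∀ i, (B⁻¹ *ᵥ v) i ∈ K),
      v = B *ᵥ fun i => (((⟨(B⁻¹ *ᵥ v) i, hv i⟩ : K)) : ℂ) := by
    intro v hv
    have : (fun i => (((⟨(B⁻¹ *ᵥ v) i, hv i⟩ : K)) : ℂ)) = B⁻¹ *ᵥ v := rfl
    rw [this, mulVec_mulVec, Matrix.mul_nonsing_inv B hBu, one_mulVec]
  have h1 := pr_entries hf (fun i => (⟨(B⁻¹ *ᵥ u) i, h.ratu i⟩ : K))
    fun i => (⟨(B⁻¹ *ᵥ w) i, h.ratw i⟩ : K)
  rwa [← key h.ratu, ← key h.ratw] at h1

theorem Pl.hu {K : Subfield ℂ} {B : Mat (m + 1)} {u w : Vec m} (h : Pl K B u w) :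
    herm u u ≠ 0 := by
  rw [herm_self]
  exact_mod_cast h.neg.ne

theorem Pl.hw {K : Subfield ℂ} {B : Mat (m + 1)} {u w : Vec m} (h : Pl K B u w) :
    herm w w ≠ 0 := by
  rw [herm_self]
  exact_mod_cast h.pos.ne'

/-- The form is definite on the complement. -/
theorem pr_split {u w : Vec m} (hu : q u < 0) (hw : 0 < q w) (ho : herm u w = 0) (v : Vec m) :
    q v = q (pr u w *ᵥ v) + q (v - pr u w *ᵥ v) ∧ 0 ≤ q (v - pr u w *ᵥ v) ∧
      (q (v - pr u w *ᵥ v) = 0 → v = pr u w *ᵥ v) := by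
  have hu' : herm u u ≠ 0 := by
    rw [herm_self]
    exact_mod_cast hu.ne
  have hw' : herm w w ≠ 0 := by
    rw [herm_self]
    exact_mod_cast hw.ne'
  obtain ⟨x, hx⟩ : ∃ x, x = pr u w *ᵥ v := ⟨_, rfl⟩
  obtain ⟨y, hy⟩ : ∃ y, y = v - x := ⟨_, rfl⟩
  rw [← hx, ← hy]
  have hPx : pr u w *ᵥ x = x := by rw [hx, mulVec_mulVec, pr_mul_self hu' hw' ho]
  have hPy : pr u w *ᵥ y = 0 := by rw [hy, mulVec_sub, hPx, ← hx, sub_self]
  have hv : v = x + y := by rw [hy]; abel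
  have hxy : herm x y = 0 := by
    rw [← hPx, herm_pr, hPy, herm, mulVec_zero, dotProduct_zero]
  have hyx : herm y x = 0 := by rw [herm_comm, hxy, star_zero]
  have huy : herm u y = 0 := by
    have h1 := herm_pr u w u y
    rw [pr_left hu' ho, hPy] at h1
    rw [h1, herm, mulVec_zero, dotProduct_zero]
  refine ⟨?_, ?_, ?_⟩
  · rw [hv, q, herm_add_right, herm_add_left, herm_add_left, hxy, hyx, zero_add, add_zero,
      Complex.add_re]
    rfl
  · rcases eq_or_ne y 0 with h0 | h0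
    · rw [h0, q, herm, mulVec_zero, dotProduct_zero, Complex.zero_re]
    · exact (q_pos_of_orth hu huy h0).le
  · intro h
    by_contra hne
    have h0 : y ≠ 0 := fun h0 => hne (by rw [hv, h0, add_zero])
    exact (q_pos_of_orth hu huy h0).ne' h

end Pool.Agent.Lib.MP_5d4057_al.PU
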